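import Pool.Agent.Lib.MP_17a322_nt.Mb

/-!
The numerical part of the proof for torus bundles.
-/

namespace Pool.Agent.Lib.MP_17a322_nt.SG

theorem M_num {c b r ε m Li Lf Ai Af Bi Bf z x e h ns C U : ℝ} (hε : 0 < ε) (hr : 0 ≤ r)
    (hm : 0 ≤ m) (hc1 : 1 ≤ c) (hcb : c ≤ b) (hbc : b * r ≤ (r + ε / 2) * c)
    (hSi : c * Li + r * b * (m / 2) * Ai ≤ Bi) (hSf : c * Lf + r * b * (m / 2) * Af ≤ Bf)
    (h2 : Bi + Bf + (r * b * (m / 2) * U + b * e) ≤
      b * r * (z + m * h) + ε / (2 * (m + 1)) * (z + m * h + x) + C)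
    (hT : Ai + Af + U = 2 * h - ns) (hz : 0 ≤ z) (hx : 0 ≤ x) (hh : 0 ≤ h) (he : 0 ≤ e)
    (hn : 0 ≤ ns) :
    Li + Lf + e ≤ r * z + ε * (z + x + h) + (r * b * (m / 2) + |C|) * (1 + ns) := by
  obtain ⟨ρ, hρ⟩ : ∃ ρ : ℝ, ρ = r * b * (m / 2) := ⟨_, rfl⟩
  obtain ⟨κ, hκ⟩ : ∃ κ : ℝ, κ = ε / (2 * (m + 1)) := ⟨_, rfl⟩
  rw [← hρ] at hSi hSf h2 ⊢
  rw [← hκ] at h2
  have hb : 0 ≤ b := by linarith
  have hc : 0 ≤ c := by linarith
  have hρ0 : 0 ≤ ρ := by
    rw [hρ]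
    exact mul_nonneg (mul_nonneg hr hb) (by linarith)
  have hm1 : m + 1 ≠ 0 := by linarith
  have hκ0 : 0 ≤ κ := by
    rw [hκ]
    exact div_nonneg hε.le (by linarith)
  have hκ1 : κ * (m + 1) = ε / 2 := by
    rw [hκ]
    field_simp
  have h4 : ρ * (Ai + Af + U) = b * r * m * h - ρ * ns := by
    rw [hT, hρ]
    ring
  have h3 : c * Li + c * Lf + b * e ≤ b * r * z + ρ * ns + κ * (z + m * h + x) + C := by
    have e1 : ρ * (Ai + Af + U) = ρ * Ai + ρ * Af + ρ * U := by ring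
    have e2 : b * r * (z + m * h) = b * r * z + b * r * m * h := by ring
    linarith
  have h5 : κ * (z + m * h + x) ≤ ε / 2 * (z + x + h) := by
    have h6 : κ * (z + m * h + x) ≤ κ * ((m + 1) * (z + x + h)) := by
      refine mul_le_mul_of_nonneg_left ?_ hκ0
      have e1 : 0 ≤ m * z := mul_nonneg hm hz
      have e2 : 0 ≤ m * x := mul_nonneg hm hx
      have e3 : (m + 1) * (z + x + h) = m * z + m * x + m * h + (z + x + h) := by ring
      linarith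
    rwa [← mul_assoc, hκ1] at h6
  have hw : 0 ≤ z + x + h := by linarith
  have hC : 0 ≤ |C| := abs_nonneg C
  have e1 : c * e ≤ b * e := mul_le_mul_of_nonneg_right hcb he
  have e2 : b * r * z ≤ (r + ε / 2) * c * z := mul_le_mul_of_nonneg_right hbc hz
  have e3 : ρ * ns ≤ c * (ρ * ns) := le_mul_of_one_le_left (mul_nonneg hρ0 hn) hc1
  have e4 : ε / 2 * (z + x + h) ≤ c * (ε / 2 * (z + x + h)) :=
    le_mul_of_one_le_left (mul_nonneg (by linarith) hw) hc1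
  have e5 : C ≤ c * |C| := (le_abs_self C).trans (le_mul_of_one_le_left hC hc1)
  have e6 : 0 ≤ c * ρ := mul_nonneg hc hρ0
  have e7 : 0 ≤ c * (|C| * ns) := mul_nonneg hc (mul_nonneg hC hn)
  have e8 : 0 ≤ c * (ε / 2 * (x + h)) :=
    mul_nonneg hc (mul_nonneg (by linarith) (by linarith))
  have h6 : c * (Li + Lf + e) ≤ c * (r * z + ε * (z + x + h) + (ρ + |C|) * (1 + ns)) := by
    have f1 : c * (Li + Lf + e) = c * Li + c * Lf + c * e := by ring
    have f2 : c * (r * z + ε * (z + x + h) + (ρ + |C|) * (1 + ns)) =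
        (r + ε / 2) * c * z + c * (ε / 2 * (z + x + h)) + c * (ε / 2 * (x + h)) + c * ρ +
          c * (ρ * ns) + c * |C| + c * (|C| * ns) := by ring
    rw [f1, f2]
    linarith
  exact le_of_mul_le_mul_left h6 (by linarith)

end Pool.Agent.Lib.MP_17a322_nt.SG
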