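import Pool.Agent.Lib.MP_17a322_nt.SG.Defs

/-!
Moving hyperplanes over `A × 𝔾_m ^ q`: definitions used in the proof.
-/

universe u

namespace Pool.Agent.Lib.MP_17a322_nt.SG

open MvPolynomial Height
open Pool.Agent.Lib.MP_17a322_nt.VA
open Pool.Agent.Lib.MP_17a322_nt.SL

/-- The box `[0, M] ^ q`. -/
abbrev Bx (q M : ℕ) : Type := Fin q → Fin (M + 1)

/-- The monomial of an element of the box. -/
noncomputable def toF {q M : ℕ} (m : Bx q M) : Fin q →₀ ℕ :=
  Finsupp.equivFunOnFinite.symm fun i => (m i : ℕ)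

/-- The coefficient of `u ^ m Λ` at an element of the box. -/
noncomputable def shf {q n M M' : ℕ} {R : Type*} [CommRing R] (Λ : Fin n → MvPolynomial (Fin q) R)
    (m : Bx q M') (x : Bx q M × Fin n) : R :=
  coeff (toF x.1) (monomial (toF m) 1 * Λ x.2)

/-- The indices of the forms `u ^ m Λ_j` and of the coordinates. -/
abbrev Ix (q M d n s : ℕ) : Type := (Fin s × Bx q (M - d)) ⊕ (Bx q M × Fin n)

/-- The enumeration of the columns. -/
noncomputable def bE (β : Type) [Fintype β] (n : ℕ) : β × Fin n ≃ Fin (Fintype.card β * n) :=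
  ((Fintype.equivFin β).prodCongr (Equiv.refl _)).trans finProdFinEquiv

/-- The block diagonal matrix with `card β` blocks `G`. -/
noncomputable def blk (β : Type) [Fintype β] [DecidableEq β] {g n : ℕ} {R : Type*} [Zero R]
    (G : Matrix (Fin g) (Fin n) R) :
    Matrix (Fin (Fintype.card β * g)) (Fin (Fintype.card β * n)) R :=
  fun i l => if ((bE β g).symm i).1 = ((bE β n).symm l).1 then
    G ((bE β g).symm i).2 ((bE β n).symm l).2 else 0

/-- The vector of the `t ^ m X_l`. -/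
noncomputable def phi {q n : ℕ} {R : Type*} [CommRing R] (M : ℕ) (t : Fin q → R) (X : Fin n → R)
    (x : Bx q M × Fin n) : R :=
  (∏ i, t i ^ (x.1 i : ℕ)) * X x.2

section

variable {K : Type u} [Field K] {N q : ℕ} (A : AV K N) {g n s : ℕ}

/-- The linear forms `u ^ m Λ_j` and the coordinates. -/
noncomputable def LamB {M d : ℕ} (a : Fin (N + 1)) (D : ℕ)
    (Λ : Matrix (Fin s) (Fin n) (MvPolynomial (Fin q) (MvPolynomial (Fin (N + 1)) K))) :
    Ix q M d n s → Bx q M × Fin n → MvPolynomial (Fin (N + 1)) K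
  | Sum.inl p, x => shf (Λ p.1) p.2 x
  | Sum.inr p, x => if x = p then X a ^ D else 0

/-- The rows of the block diagonal matrix and the linear forms `Λ' j`, `j ∈ T`, are linearly
independent. -/
def IndB (β : Type) [DecidableEq β] (G : Matrix (Fin g) (Fin n) (MvPolynomial (Fin (N + 1)) K))
    {σ : Type} (Λ' : σ → β × Fin n → MvPolynomial (Fin (N + 1)) K) (T : Finset σ) : Prop :=
  ∀ (L : Type u) [Field L] [Algebra K L] (P : A.Pts L), Gen A P →
    LinearIndependent L
      (Sum.elim (fun (p : β × Fin g) (x : β × Fin n) =>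
          if p.1 = x.1 then aeval (A.x P) (G p.2 x.2) else 0)
        fun (j : T) (x : β × Fin n) => aeval (A.x P) (Λ' j x))

/-- The local height for columns indexed by `β × Fin n`. -/
noncomputable def lamB {β : Type} [Fintype β] {L : Type u} [Field L] [Algebra K L]
    (v : AbsoluteValue L ℝ) (D : ℕ) (Λ' : β × Fin n → MvPolynomial (Fin (N + 1)) K) (P : A.Pts L)
    (Y : β × Fin n → L) : ℝ :=
  Real.log (⨆ x, v (Y x)) + D * Real.log (⨆ i, v (A.x P i)) -
    Real.log (v (∑ x, aeval (A.x P) (Λ' x) * Y x))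

/-- The exceptional forms for columns indexed by `β × Fin n`. -/
def ExcB (β : Type) [Fintype β] (G : Matrix (Fin g) (Fin n) (MvPolynomial (Fin (N + 1)) K))
    (F : MvPolynomial (Fin (N + 1) ⊕ (β × Fin n)) K) : Prop :=
  (∃ a b : ℕ, ∀ m ∈ F.support, ∑ i, m (Sum.inl i) = a ∧ ∑ x, m (Sum.inr x) = b) ∧
  ∀ (L : Type u) [Field L] [IsAlgClosed L] [Algebra K L] (P : A.Pts L), Gen A P →
    ∃ (c : L) (m : ℕ) (y : Fin m → β × Fin n → L), c ≠ 0 ∧
      (∀ k, ∃ z : β × Fin n → L, (∀ b, (fun l => z (b, l)) ∈ Fib A G P) ∧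
        ∑ x, y k x * z x ≠ 0) ∧
      aeval (Sum.elim (fun i => (C (A.x P i) : MvPolynomial (β × Fin n) L)) X) F =
        C c * ∏ k, ∑ x, C (y k x) * X x

/-- The pullback of a form under `(t, X) ↦ (t ^ m X_l)`. -/
noncomputable def pullF {M : ℕ} (F : MvPolynomial (Fin (N + 1) ⊕ (Bx q M × Fin n)) K) :
    MvPolynomial (Fin (N + 1) ⊕ Fin q ⊕ Fin n) K :=
  aeval (Sum.elim (fun i => X (Sum.inl i))
    (phi M (fun i => X (Sum.inr (Sum.inl i))) fun l => X (Sum.inr (Sum.inr l)))) F

end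

end Pool.Agent.Lib.MP_17a322_nt.SG
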