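import Pool.Agent.Lib.MP_17a322_nt.VJ.A4
import Pool.Agent.Lib.MP_17a322_nt.SG.Defs2

/-!
Heights of the vectors of the products of monomials and coordinates.
-/

universe u

namespace Pool.Agent.Lib.MP_17a322_nt.SG

open MvPolynomial Height
open Pool.Agent.Lib.MP_17a322_nt.VJ
open Pool.Agent.Lib.MP_17a322_nt.VA
open Pool.Agent.Lib.MP_17a322_nt.SL

section

variable {K : Type*} [Field K] {q n : ℕ}

theorem H_mono_ne {t : Fin q → K} (ht : ∀ i, t i ≠ 0) (m : Fin q → ℕ) : ∏ i, t i ^ m i ≠ 0 :=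
  Finset.prod_ne_zero_iff.mpr fun i _ => pow_ne_zero _ (ht i)

theorem H_phi_ne (M : ℕ) {t : Fin q → K} (ht : ∀ i, t i ≠ 0) {Z : Fin n → K} (hZ : Z ≠ 0) :
    phi M t Z ≠ 0 := by
  obtain ⟨l, hl⟩ := Function.ne_iff.mp hZ
  refine Function.ne_iff.mpr ⟨(fun _ => 0, l), ?_⟩
  rw [phi]
  exact mul_ne_zero (H_mono_ne ht _) hl

/-- The local height of the vector of the products. -/
theorem H_sup (M : ℕ) (v : AbsoluteValue K ℝ) (t : Fin q → K) {Z : Fin n → K}
    (hZ : Z ≠ 0) : Real.log (⨆ x, v (phi M t Z x)) =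
      Real.log (⨆ l, v (Z l)) + M * ∑ i, Real.log (max 1 (v (t i))) := by
  classical
  obtain ⟨l₁, hl₁⟩ := Function.ne_iff.mp hZ
  have hι : Nonempty (Fin n) := ⟨l₁⟩
  obtain ⟨l₀, hl₀⟩ := Finite.exists_max fun l => v (Z l)
  have hZ0 : 0 < v (Z l₀) := (v.pos hl₁).trans_le (hl₀ l₁)
  have hsZ : ⨆ l, v (Z l) = v (Z l₀) :=
    le_antisymm (ciSup_le hl₀) (le_ciSup (f := fun l => v (Z l)) (Set.finite_range _).bddAbove l₀)
  have h1 : ∀ i, 0 < max 1 (v (t i)) := fun i => lt_max_of_lt_left one_pos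
  have hP : 0 < ∏ i, max 1 (v (t i)) ^ M := Finset.prod_pos fun i _ => pow_pos (h1 i) M
  have hsup : ⨆ x, v (phi M t Z x) = (∏ i, max 1 (v (t i)) ^ M) * v (Z l₀) := by
    refine le_antisymm (Real.iSup_le (fun x => ?_) (mul_nonneg hP.le (v.nonneg _))) ?_
    · rw [phi, map_mul, map_prod]
      refine mul_le_mul ?_ (hl₀ _) (v.nonneg _) hP.le
      refine Finset.prod_le_prod (fun i _ => v.nonneg _) fun i _ => ?_
      rw [map_pow]
      exact (pow_le_pow_left₀ (v.nonneg _) (le_max_right 1 _) _).trans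
        (pow_le_pow_right₀ (le_max_left _ _) (Nat.lt_succ_iff.mp (x.1 i).2))
    · have h2 : v (phi M t Z (fun i => if 1 ≤ v (t i) then Fin.last M else 0, l₀)) =
          (∏ i, max 1 (v (t i)) ^ M) * v (Z l₀) := by
        rw [phi, map_mul, map_prod]
        congr 1
        refine Finset.prod_congr rfl fun i _ => ?_
        rw [map_pow]
        show v (t i) ^ ((if 1 ≤ v (t i) then Fin.last M else 0 : Fin (M + 1)) : ℕ) = _
        by_cases h3 : 1 ≤ v (t i)
        · rw [if_pos h3, max_eq_right h3, Fin.val_last]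
        · rw [if_neg h3, max_eq_left (le_of_not_ge h3), one_pow]
          exact pow_zero _
      rw [← h2]
      exact le_ciSup (f := fun x => v (phi M t Z x)) (Set.finite_range _).bddAbove _
  rw [hsup, Real.log_mul hP.ne' hZ0.ne', hsZ, Real.log_prod fun i _ => (pow_pos (h1 i) M).ne',
    add_comm, Finset.mul_sum]
  congr 1
  exact Finset.sum_congr rfl fun i _ => by rw [Real.log_pow]

end

section

variable {K : Type*} [Field K] [NumberField K] {q n : ℕ}

theorem H_phi (M : ℕ) {t : Fin q → K} (ht : ∀ i, t i ≠ 0) {Z : Fin n → K}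
    (hZ : Z ≠ 0) :
    logHeight (phi M t Z) = logHeight Z + M * ∑ i, logHeight₁ (t i) := by
  have h1 : FS fun v : AbsoluteValue K ℝ => ∑ i, Real.log (max 1 (v (t i))) :=
    FS_sum _ fun i _ => FS_log_max (t i)
  have h2 : gs (fun v : AbsoluteValue K ℝ => (M : ℝ) * ∑ i, Real.log (max 1 (v (t i)))) =
      M * ∑ i, logHeight₁ (t i) := by
    rw [gs_const_mul, gs_sum Finset.univ (f := fun i (v : AbsoluteValue K ℝ) =>
      Real.log (max 1 (v (t i)))) fun i _ => FS_log_max (t i)]
    simp only [gs_log_max]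
  rw [← gs_log_iSup (H_phi_ne M ht hZ), ← gs_log_iSup hZ, ← h2,
    ← gs_add (FS_log_iSup hZ) (FS_const_mul _ h1)]
  congr 1
  funext v
  exact H_sup M v t hZ

theorem H_gs (S : Finset (NumberField.FinitePlace K)) {f : AbsoluteValue K ℝ → ℝ}
    (hf : FS f) : gs f = ∑ v : NumberField.InfinitePlace K, (v.mult : ℝ) * f v.val +
      (∑ v ∈ S, f v.val + ∑ᶠ v : {v : NumberField.FinitePlace K // v ∉ S}, f v.1.val) := by
  classical
  unfold gs
  rw [NumberField.sum_archAbsVal_eq, NumberField.sum_nonarchAbsVal_eq f]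
  have h0 : (Function.support fun v : NumberField.FinitePlace K => f v.val).Finite := hf
  have h1 : ∑ v ∈ S, f v.val + ∑ᶠ v : {v : NumberField.FinitePlace K // v ∉ S}, f v.1.val =
      ∑ᶠ v : NumberField.FinitePlace K, f v.val := by
    have h2 := finsum_mem_union' (f := fun v : NumberField.FinitePlace K => f v.val)
      (s := (S : Set (NumberField.FinitePlace K))) (t := (S : Set (NumberField.FinitePlace K))ᶜ)
      disjoint_compl_right (h0.subset Set.inter_subset_right)
      (h0.subset Set.inter_subset_right)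
    rw [Set.union_compl_self, finsum_mem_univ, finsum_mem_coe_finset] at h2
    rw [h2]
    congr 1
    exact finsum_set_coe_eq_finsum_mem (f := fun v : NumberField.FinitePlace K => f v.val)
      ((S : Set (NumberField.FinitePlace K))ᶜ)
  rw [h1]
  congr 1
  exact Finset.sum_congr rfl fun v _ => by rw [nsmul_eq_mul]

theorem H_two (S : Finset (NumberField.FinitePlace K)) {z : K} (hz : z ≠ 0) :
    2 * logHeight₁ z = ∑ w : NumberField.InfinitePlace K, (w.mult : ℝ) * |Real.log (w z)| +
      (∑ v ∈ S, |Real.log (v z)| +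
        ∑ᶠ v : {v : NumberField.FinitePlace K // v ∉ S}, |Real.log (v.1 z)|) := by
  have h0 : FS fun v : AbsoluteValue K ℝ => |Real.log (v z)| := by
    refine (FS_log_abv hz).subset fun v hv => ?_
    intro h
    exact hv (by simp only [h, abs_zero])
  have h1 := H_gs S h0
  have h2 : ∀ v : AbsoluteValue K ℝ, |Real.log (v z)| =
      2 * Real.log (max 1 (v z)) - Real.log (v z) := by
    intro v
    rcases le_total 1 (v z) with h | h
    · rw [max_eq_right h, abs_of_nonneg (Real.log_nonneg h)]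
      ring
    · rw [max_eq_left h, Real.log_one, abs_of_nonpos (Real.log_nonpos (v.nonneg z) h)]
      ring
  have h3 : gs (fun v : AbsoluteValue K ℝ => |Real.log (v z)|) = 2 * logHeight₁ z := by
    simp only [h2]
    rw [gs_sub (FS_const_mul 2 (FS_log_max z)) (FS_log_abv hz), gs_const_mul, gs_log_max,
      gs_log_abv hz, sub_zero]
  rw [← h3, h1]
  rfl

end

end Pool.Agent.Lib.MP_17a322_nt.SG
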