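import Pool.Agent.Lib.MP_17a322_nt.SG.Defs2

/-!
Moving hyperplanes over `A × 𝔾_m ^ q`: computations at one place.
-/

universe u

namespace Pool.Agent.Lib.MP_17a322_nt.SG

open MvPolynomial Height
open Pool.Agent.Lib.MP_17a322_nt.VA
open Pool.Agent.Lib.MP_17a322_nt.SL

section

variable {q M : ℕ}

theorem toF_apply (m : Bx q M) (i : Fin q) : toF m i = (m i : ℕ) := rfl

theorem toF_inj : Function.Injective (toF : Bx q M → (Fin q →₀ ℕ)) := by
  intro m m' h
  funext i
  have h1 := DFunLike.congr_fun h i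
  exact Fin.ext h1

theorem toF_surj {m : Fin q →₀ ℕ} (hm : ∀ i, m i ≤ M) : ∃ m' : Bx q M, toF m' = m := by
  refine ⟨fun i => ⟨m i, Nat.lt_succ_of_le (hm i)⟩, ?_⟩
  ext i
  rfl

/-- The value of a polynomial with support in the box. -/
theorem box_sum {R S : Type*} [CommRing R] [CommRing S] (φ : R →+* S) (t : Fin q → S)
    (p : MvPolynomial (Fin q) R) (hp : ∀ m ∈ p.support, ∀ i, m i ≤ M) :
    ∑ m : Bx q M, φ (coeff (toF m) p) * ∏ i, t i ^ (m i : ℕ) = eval t (map φ p) := by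
  classical
  rw [eval_map, eval₂_eq']
  have h1 : p.support ⊆ Finset.univ.image (toF : Bx q M → (Fin q →₀ ℕ)) := by
    intro m hm
    obtain ⟨m', hm'⟩ := toF_surj (hp m hm)
    exact Finset.mem_image.2 ⟨m', Finset.mem_univ _, hm'⟩
  rw [Finset.sum_subset h1, Finset.sum_image fun _ _ _ _ h => toF_inj h]
  · rfl
  · intro m _ hm
    rw [notMem_support_iff.1 hm, map_zero, zero_mul]

theorem shf_supp {R : Type*} [CommRing R] {n M d : ℕ} (hdM : d ≤ M)
    {Λ : Fin n → MvPolynomial (Fin q) R} (hd : ∀ l, ∀ m ∈ (Λ l).support, ∀ i, m i ≤ d)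
    (m : Bx q (M - d)) (l : Fin n) :
    ∀ m' ∈ (monomial (toF m) 1 * Λ l).support, ∀ i, m' i ≤ M := by
  classical
  intro m' hm' i
  have h1 := support_mul _ _ hm'
  rw [Finset.mem_add] at h1
  obtain ⟨a, ha, b, hb, rfl⟩ := h1
  have h2 : a = toF m := by
    have h3 := support_monomial_subset ha
    exact Finset.mem_singleton.1 h3
  rw [h2, Finsupp.add_apply, toF_apply]
  have h3 := hd l b hb i
  have h4 := (m i).2
  omega

theorem wt_sum (τ : Fin q → ℝ) :
    ∑ m : Bx q M, wt τ (toF m) = (M + 1) ^ q * (M / 2) * ∑ i, τ i := by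
  have h1 : ∀ i : Fin q, ∑ m : Bx q M, ((m i : ℕ) : ℝ) = (M + 1) ^ q * (M / 2) := by
    intro i
    have h2 : ∑ m : Bx q M, ((m i : ℕ) : ℝ) = ∑ m : Bx q M, ((M : ℝ) - ((m i : ℕ) : ℝ)) := by
      rw [← Equiv.sum_comp (Equiv.piCongrRight fun _ : Fin q => (Fin.revPerm (n := M + 1)))]
      refine Finset.sum_congr rfl fun m _ => ?_
      have h3 : ((Fin.rev (m i) : Fin (M + 1)) : ℕ) = M - m i := by
        rw [Fin.val_rev]
        omega
      have h4 : ((m i : ℕ)) ≤ M := Nat.lt_succ_iff.1 (m i).2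
      simp only [Equiv.piCongrRight_apply, Pi.map_apply, Fin.revPerm_apply, h3]
      rw [Nat.cast_sub h4]
    rw [Finset.sum_sub_distrib, Finset.sum_const, Finset.card_univ] at h2
    have h3 : Fintype.card (Bx q M) = (M + 1) ^ q := by
      rw [Fintype.card_fun, Fintype.card_fin, Fintype.card_fin]
    rw [h3, nsmul_eq_mul] at h2
    push_cast at h2
    linarith
  unfold wt
  rw [Finset.sum_comm]
  rw [Finset.mul_sum]
  refine Finset.sum_congr rfl fun i _ => ?_
  rw [← Finset.sum_mul, ← h1 i]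
  rfl

theorem log_prod_pow {K : Type*} [Field K] (v : AbsoluteValue K ℝ) {t : Fin q → K}
    (ht : ∀ i, t i ≠ 0) (m : Bx q M) :
    Real.log (v (∏ i, t i ^ (m i : ℕ))) = wt (fun i => Real.log (v (t i))) (toF m) := by
  rw [map_prod, Real.log_prod]
  · unfold wt
    refine Finset.sum_congr rfl fun i _ => ?_
    rw [map_pow, Real.log_pow, toF_apply]
  · intro i _
    rw [map_pow]
    exact pow_ne_zero _ (v.ne_zero (ht i))

theorem posLog_two {x : ℝ} : 2 * Real.posLog x - Real.log x = |Real.log x| := by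
  rw [Real.posLog_apply]
  rcases le_total 0 (Real.log x) with h | h
  · rw [max_eq_right h, abs_of_nonneg h]
    ring
  · rw [max_eq_left h, abs_of_nonpos h]
    ring

theorem phi_sup {K : Type*} [Field K] {n : ℕ} (v : AbsoluteValue K ℝ) {t : Fin q → K}
    (ht : ∀ i, t i ≠ 0) {Z : Fin n → K} (hZ : Z ≠ 0) :
    Real.log (⨆ x, v (phi M t Z x)) =
      Real.log (⨆ l, v (Z l)) + M * ∑ i, Real.posLog (v (t i)) := by
  obtain ⟨l₁, hl₁⟩ : ∃ l, Z l ≠ 0 := by
    by_contra hcon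
    push Not at hcon
    exact hZ (funext hcon)
  have : Nonempty (Fin n) := ⟨l₁⟩
  obtain ⟨l₀, hl₀⟩ := exists_eq_ciSup_of_finite (f := fun l => v (Z l))
  have hs0 : 0 < ⨆ l, v (Z l) :=
    (v.pos hl₁).trans_le (le_ciSup (f := fun l => v (Z l)) (Set.finite_range _).bddAbove l₁)
  have hl0 : Z l₀ ≠ 0 := by
    intro h
    rw [← hl₀, h, map_zero] at hs0
    exact lt_irrefl _ hs0
  have hval : ∀ (m : Bx q M) (l : Fin n), Z l ≠ 0 → Real.log (v (phi M t Z (m, l))) =
      wt (fun i => Real.log (v (t i))) (toF m) + Real.log (v (Z l)) := by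
    intro m l hl
    unfold phi
    rw [map_mul, Real.log_mul _ (v.ne_zero hl), log_prod_pow v ht]
    exact v.ne_zero (Finset.prod_ne_zero_iff.2 fun i _ => pow_ne_zero _ (ht i))
  have hne : ∀ (m : Bx q M) (l : Fin n), Z l ≠ 0 → phi M t Z (m, l) ≠ 0 := by
    intro m l hl
    exact mul_ne_zero (Finset.prod_ne_zero_iff.2 fun i _ => pow_ne_zero _ (ht i)) hl
  have hbdd : BddAbove (Set.range fun x => v (phi M t Z x)) := (Set.finite_range _).bddAbove
  apply le_antisymm
  · obtain ⟨x₀, hx₀⟩ := exists_eq_ciSup_of_finite (f := fun x => v (phi M t Z x))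
    rw [← hx₀]
    have hx0 : Z x₀.2 ≠ 0 := by
      intro h
      have h1 : v (phi M t Z x₀) = 0 := by
        unfold phi
        rw [h, mul_zero, map_zero]
      have h2 : 0 < ⨆ x, v (phi M t Z x) :=
        (v.pos (hne (fun _ => 0) l₀ hl0)).trans_le (le_ciSup hbdd ((fun _ => 0), l₀))
      rw [← hx₀, h1] at h2
      exact lt_irrefl _ h2
    rw [show x₀ = (x₀.1, x₀.2) from rfl, hval _ _ hx0]
    have h1 : Real.log (v (Z x₀.2)) ≤ Real.log (⨆ l, v (Z l)) :=
      Real.log_le_log (v.pos hx0) (le_ciSup (f := fun l => v (Z l))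
        (Set.finite_range _).bddAbove x₀.2)
    have h2 : wt (fun i => Real.log (v (t i))) (toF x₀.1) ≤ M * ∑ i, Real.posLog (v (t i)) := by
      unfold wt
      rw [Finset.mul_sum]
      refine Finset.sum_le_sum fun i _ => ?_
      rw [toF_apply]
      have h3 : Real.log (v (t i)) ≤ Real.posLog (v (t i)) := by
        rw [Real.posLog_apply]
        exact le_max_right _ _
      have h4 : ((x₀.1 i : ℕ) : ℝ) ≤ M := by
        have h5 : (x₀.1 i : ℕ) ≤ M := Nat.lt_succ_iff.1 (x₀.1 i).2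
        exact_mod_cast h5
      exact (mul_le_mul_of_nonneg_left h3 (Nat.cast_nonneg _)).trans
        (mul_le_mul_of_nonneg_right h4 Real.posLog_nonneg)
    linarith
  · classical
    obtain ⟨m, hm⟩ : ∃ m : Bx q M, m = fun i => if 0 ≤ Real.log (v (t i)) then Fin.last M else 0 :=
      ⟨_, rfl⟩
    have h1 : wt (fun i => Real.log (v (t i))) (toF m) = M * ∑ i, Real.posLog (v (t i)) := by
      unfold wt
      rw [Finset.mul_sum]
      refine Finset.sum_congr rfl fun i _ => ?_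
      rw [toF_apply, hm, Real.posLog_apply]
      by_cases h : 0 ≤ Real.log (v (t i))
      · simp only [h, if_true, Fin.val_last, max_eq_right]
      · have h' : Real.log (v (t i)) ≤ 0 := le_of_not_ge h
        simp only [h, if_false, Fin.val_zero, Nat.cast_zero, zero_mul, max_eq_left h', mul_zero]
    rw [← h1, ← hl₀]
    have h2 := hval m l₀ hl0
    rw [add_comm] at h2
    rw [← h2]
    exact Real.log_le_log (v.pos (hne m l₀ hl0)) (le_ciSup hbdd (m, l₀))

end

section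

variable {K : Type u} [Field K] {N q : ℕ} (A : AV K N) {g n r s : ℕ}

theorem V_val {D M d : ℕ} (hdM : d ≤ M) {a : Fin (N + 1)}
    (Λ : Matrix (Fin s) (Fin n) (MvPolynomial (Fin q) (MvPolynomial (Fin (N + 1)) K)))
    (hd : ∀ j l, ∀ m ∈ (Λ j l).support, ∀ i, m i ≤ d) (P : A.Pts K) (t : Fin q → K)
    (Z : Fin n → K) (j : Fin s) (m : Bx q (M - d)) :
    ∑ x, aeval (A.x P) (LamB (M := M) (d := d) a D Λ (Sum.inl (j, m)) x) * phi M t Z x =
      (∏ i, t i ^ (m i : ℕ)) * ∑ l, ev A P t (Λ j l) * Z l := by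
  rw [Fintype.sum_prod_type_right, Finset.mul_sum]
  refine Finset.sum_congr rfl fun l _ => ?_
  have h1 := box_sum (M := M) (aeval (A.x P) : MvPolynomial (Fin (N + 1)) K →ₐ[K] K).toRingHom t
    (monomial (toF m) 1 * Λ j l) (shf_supp hdM (hd j) m l)
  have h2 : ∑ m' : Bx q M, aeval (A.x P) (LamB (M := M) (d := d) a D Λ (Sum.inl (j, m)) (m', l)) *
      phi M t Z (m', l) = (∑ m' : Bx q M, (aeval (A.x P) :
        MvPolynomial (Fin (N + 1)) K →ₐ[K] K).toRingHom
          (coeff (toF m') (monomial (toF m) 1 * Λ j l)) * ∏ i, t i ^ (m' i : ℕ)) * Z l := by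
    rw [Finset.sum_mul]
    refine Finset.sum_congr rfl fun m' _ => ?_
    unfold phi
    rw [← mul_assoc]
    rfl
  rw [h2, h1, map_mul, map_monomial, map_one, eval_mul]
  have h3 : eval t (monomial (toF m) (1 : K)) = ∏ i, t i ^ (m i : ℕ) := by
    rw [eval_monomial, one_mul, Finsupp.prod_fintype _ _ fun i => pow_zero _]
    rfl
  rw [h3, mul_assoc]
  rfl

theorem LamB_inr {D M d : ℕ} {a : Fin (N + 1)}
    (Λ : Matrix (Fin s) (Fin n) (MvPolynomial (Fin q) (MvPolynomial (Fin (N + 1)) K)))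
    (p x : Bx q M × Fin n) :
    LamB (M := M) (d := d) a D Λ (Sum.inr p) x = if x = p then X a ^ D else 0 := rfl

theorem V_val' {D M d : ℕ} {a : Fin (N + 1)}
    (Λ : Matrix (Fin s) (Fin n) (MvPolynomial (Fin q) (MvPolynomial (Fin (N + 1)) K)))
    (P : A.Pts K) (t : Fin q → K) (Z : Fin n → K) (p : Bx q M × Fin n) :
    ∑ x, aeval (A.x P) (LamB (M := M) (d := d) a D Λ (Sum.inr p) x) * phi M t Z x =
      A.x P a ^ D * phi M t Z p := by
  rw [Finset.sum_eq_single p]
  · rw [LamB_inr, if_pos rfl, map_pow, aeval_X]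
  · intro x _ hx
    rw [LamB_inr, if_neg hx, map_zero, zero_mul]
  · intro h
    exact absurd (Finset.mem_univ _) h

theorem V_main {D M d : ℕ} (hdM : d ≤ M) {a : Fin (N + 1)}
    (Λ : Matrix (Fin s) (Fin n) (MvPolynomial (Fin q) (MvPolynomial (Fin (N + 1)) K)))
    (hd : ∀ j l, ∀ m ∈ (Λ j l).support, ∀ i, m i ≤ d) (v : AbsoluteValue K ℝ) (P : A.Pts K)
    (t : Fin q → K) (ht : ∀ i, t i ≠ 0) (Z : Fin n → K) (hZ : Z ≠ 0) (T : Finset (Fin s))
    (W : Finset (Bx q M × Fin n))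
    (hc : W.card + T.card * (M - d + 1) ^ q = r * (M + 1) ^ q)
    (hs : ∑ j ∈ T, ∑ m : Bx q (M - d), (wt (fun i => Real.log (v (t i))) (toF m) +
        maxWt (fun i => Real.log (v (t i))) (Λ j)) +
      ∑ p ∈ W, wt (fun i => Real.log (v (t i))) (toF p.1) =
        r * ∑ m : Bx q M, wt (fun i => Real.log (v (t i))) (toF m))
    (hne : ∀ j ∈ (T ×ˢ Finset.univ).disjSum W,
      (∑ x, aeval (A.x P) (LamB (M := M) (d := d) a D Λ j x) * phi M t Z x) ≠ 0) :
    (M - d + 1 : ℕ) ^ q * ∑ j ∈ T, lamG A v D (Λ j) P t Z +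
        r * (M + 1) ^ q * (M / 2) * ∑ i, |Real.log (v (t i))| ≤
      ∑ j ∈ (T ×ˢ Finset.univ).disjSum W,
        lamB A v D (LamB (M := M) (d := d) a D Λ j) P (phi M t Z) := by
  obtain ⟨τ, hτ⟩ : ∃ τ : Fin q → ℝ, τ = fun i => Real.log (v (t i)) := ⟨_, rfl⟩
  obtain ⟨κ, hκ⟩ : ∃ κ : ℝ, κ = M * ∑ i, Real.posLog (v (t i)) := ⟨_, rfl⟩
  have hsup := phi_sup (M := M) v ht hZ
  rw [← hκ] at hsup
  rw [← hτ] at hs
  -- the forms `u ^ m Λ_j`
  have h1 : ∀ j ∈ T, ∀ m : Bx q (M - d),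
      lamB A v D (LamB (M := M) (d := d) a D Λ (Sum.inl (j, m))) P (phi M t Z) =
        lamG A v D (Λ j) P t Z + κ - (wt τ (toF m) + maxWt τ (Λ j)) := by
    intro j hj m
    have h2 := hne (Sum.inl (j, m)) (Finset.inl_mem_disjSum.2
      (Finset.mk_mem_product hj (Finset.mem_univ _)))
    rw [V_val A hdM Λ hd] at h2
    unfold lamB
    rw [V_val A hdM Λ hd, hsup, map_mul, Real.log_mul (v.ne_zero (left_ne_zero_of_mul h2))
      (v.ne_zero (right_ne_zero_of_mul h2)), log_prod_pow v ht]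
    unfold lamG
    rw [← hτ]
    ring
  -- the coordinates
  have h2 : ∀ p ∈ W, κ - wt τ (toF p.1) ≤
      lamB A v D (LamB (M := M) (d := d) a D Λ (Sum.inr p)) P (phi M t Z) := by
    intro p hp
    have h3 := hne (Sum.inr p) (Finset.inr_mem_disjSum.2 hp)
    rw [V_val'] at h3
    have hxa := left_ne_zero_of_mul h3
    have hph := right_ne_zero_of_mul h3
    have hZp : Z p.2 ≠ 0 := right_ne_zero_of_mul hph
    unfold lamB
    rw [V_val', hsup, map_mul, Real.log_mul (v.ne_zero hxa) (v.ne_zero hph)]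
    unfold phi
    rw [map_mul, Real.log_mul (v.ne_zero (left_ne_zero_of_mul hph)) (v.ne_zero hZp),
      log_prod_pow v ht, map_pow, Real.log_pow, ← hτ]
    have h4 : Real.log (v (Z p.2)) ≤ Real.log (⨆ l, v (Z l)) :=
      Real.log_le_log (v.pos hZp) (le_ciSup (f := fun l => v (Z l))
        (Set.finite_range _).bddAbove p.2)
    have h5 : (D : ℝ) * Real.log (v (A.x P a)) ≤ D * Real.log (⨆ i, v (A.x P i)) := by
      rcases Nat.eq_zero_or_pos D with hD | hD
      · rw [hD, Nat.cast_zero, zero_mul, zero_mul]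
      · have hxa' : A.x P a ≠ 0 := fun h => hxa (by rw [h, zero_pow hD.ne'])
        exact mul_le_mul_of_nonneg_left (Real.log_le_log (v.pos hxa')
          (le_ciSup (f := fun i => v (A.x P i)) (Set.finite_range _).bddAbove a))
          (Nat.cast_nonneg _)
    linarith
  rw [Finset.sum_disjSum, Finset.sum_product]
  have h3 : ∑ j ∈ T, ∑ m : Bx q (M - d),
      lamB A v D (LamB (M := M) (d := d) a D Λ (Sum.inl (j, m))) P (phi M t Z) =
        (M - d + 1 : ℕ) ^ q * ∑ j ∈ T, lamG A v D (Λ j) P t Z +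
          (T.card * (M - d + 1 : ℕ) ^ q) * κ -
          ∑ j ∈ T, ∑ m : Bx q (M - d), (wt τ (toF m) + maxWt τ (Λ j)) := by
    rw [Finset.mul_sum, ← nsmul_eq_mul (n := T.card), smul_mul_assoc, ← Finset.sum_const,
      ← Finset.sum_add_distrib, ← Finset.sum_sub_distrib]
    refine Finset.sum_congr rfl fun j hj => ?_
    rw [Finset.sum_congr rfl fun m _ => h1 j hj m, Finset.sum_sub_distrib, Finset.sum_const,
      Finset.card_univ, Fintype.card_fun, Fintype.card_fin, Fintype.card_fin, nsmul_eq_mul]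
    push_cast
    ring
  have h4 : (W.card : ℝ) * κ - ∑ p ∈ W, wt τ (toF p.1) ≤
      ∑ p ∈ W, lamB A v D (LamB (M := M) (d := d) a D Λ (Sum.inr p)) P (phi M t Z) := by
    rw [← nsmul_eq_mul, ← Finset.sum_const, ← Finset.sum_sub_distrib]
    exact Finset.sum_le_sum h2
  have hc' : (W.card : ℝ) + T.card * (M - d + 1 : ℕ) ^ q = r * (M + 1) ^ q := by
    exact_mod_cast hc
  have h5 : (M : ℝ) / 2 * ∑ i, |Real.log (v (t i))| = κ - M / 2 * ∑ i, τ i := by
    rw [hκ, hτ, Finset.mul_sum, Finset.mul_sum, Finset.mul_sum, ← Finset.sum_sub_distrib]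
    refine Finset.sum_congr rfl fun i _ => ?_
    rw [← posLog_two]
    ring
  rw [wt_sum] at hs
  rw [h3]
  have h6 : (r : ℝ) * (M + 1) ^ q * (M / 2) * ∑ i, |Real.log (v (t i))| =
      (r * (M + 1) ^ q) * κ - r * ((M + 1) ^ q * (M / 2) * ∑ i, τ i) := by
    have h7 : (r : ℝ) * (M + 1) ^ q * (M / 2) * ∑ i, |Real.log (v (t i))| =
        r * (M + 1) ^ q * (M / 2 * ∑ i, |Real.log (v (t i))|) := by ring
    rw [h7, h5]
    ring
  rw [h6, ← hc', ← hs]
  linarith

end

end Pool.Agent.Lib.MP_17a322_nt.SG
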