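import Pool.Agent.Lib.MP_17a322_nt.SG.L3
import Pool.Agent.Lib.MP_17a322_nt.SG.V1
import Pool.Agent.Lib.MP_17a322_nt.EF.T1

/-!
Moving hyperplanes over `A × 𝔾_m ^ q`: completion of the forms by coordinates at all generic points.
-/

universe u

namespace Pool.Agent.Lib.MP_17a322_nt.SG

open MvPolynomial Height
open Pool.Agent.Lib.MP_17a322_nt.VA
open Pool.Agent.Lib.MP_17a322_nt.SL

section

variable {q : ℕ}

theorem coeff_partWt {R : Type*} [CommRing R] (τ : Fin q → ℝ) (h : ℝ)
    (p : MvPolynomial (Fin q) R) (m : Fin q →₀ ℕ) :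
    coeff m (partWt τ h p) = (open Classical in if wt τ m = h then coeff m p else 0) := by
  classical
  unfold partWt
  rw [coeff_sum]
  have h1 : ∀ x ∈ p.support.filter fun m => wt τ m = h,
      coeff m (monomial x (coeff x p)) = if m = x then coeff m p else 0 := by
    intro x _
    rw [coeff_monomial]
    by_cases h2 : x = m
    · rw [if_pos h2, if_pos h2.symm, h2]
    · rw [if_neg h2, if_neg fun h3 => h2 h3.symm]
  rw [Finset.sum_congr rfl h1, Finset.sum_ite_eq]
  by_cases h2 : wt τ m = h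
  · rw [if_pos h2]
    by_cases h3 : m ∈ p.support
    · rw [if_pos (Finset.mem_filter.2 ⟨h3, h2⟩)]
    · rw [if_neg fun h4 => h3 (Finset.mem_filter.1 h4).1, notMem_support_iff.1 h3]
  · rw [if_neg h2]
    have h3 : m ∉ p.support.filter fun m => wt τ m = h := fun h4 =>
      h2 (Finset.mem_filter.1 h4).2
    rw [if_neg h3]

theorem li_congr {R M ι : Type*} [Ring R] [AddCommGroup M] [Module R M] {v v' : ι → M}
    (h : LinearIndependent R v) (e : ∀ i, v' i = v i) : LinearIndependent R v' := by
  rw [show v' = v from funext e]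
  exact h

theorem map_partWt {R S : Type*} [CommRing R] [CommRing S] (φ : R →+* S) (τ : Fin q → ℝ) (h : ℝ)
    (p : MvPolynomial (Fin q) R) : map φ (partWt τ h p) = partWt τ h (map φ p) := by
  classical
  ext m
  rw [coeff_map, coeff_partWt, coeff_partWt, coeff_map]
  split_ifs
  · rfl
  · rw [map_zero]

theorem le_maxWt {R : Type*} [CommRing R] {n : ℕ} (τ : Fin q → ℝ)
    (Λ : Fin n → MvPolynomial (Fin q) R) {l : Fin n} {m : Fin q →₀ ℕ} (hm : m ∈ (Λ l).support) :
    wt τ m ≤ maxWt τ Λ := by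
  classical
  have h1 : m ∈ supp Λ := by
    unfold supp
    exact Finset.mem_biUnion.2 ⟨l, Finset.mem_univ _, hm⟩
  unfold maxWt
  exact le_ciSup (f := fun m : supp Λ => wt τ m) (Set.finite_range _).bddAbove ⟨m, h1⟩

theorem shf_map {R S : Type*} [CommRing R] [CommRing S] (φ : R →+* S) {n M M' : ℕ}
    (Λ : Fin n → MvPolynomial (Fin q) R) (m : Bx q M') (x : Bx q M × Fin n) :
    φ (shf Λ m x) = shf (fun l => map φ (Λ l)) m x := by
  unfold shf
  rw [← coeff_map, map_mul, map_monomial, map_one]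

end

section

variable {K : Type u} [Field K] {N q : ℕ} (A : AV K N) {g n r s : ℕ}

theorem shf_hom {D n M M' : ℕ} {Λ : Fin n → MvPolynomial (Fin q) (MvPolynomial (Fin (N + 1)) K)}
    (hΛ : ∀ l m, (coeff m (Λ l)).IsHomogeneous D) (m : Bx q M') (x : Bx q M × Fin n) :
    (shf Λ m x).IsHomogeneous D := by
  classical
  unfold shf
  rw [coeff_monomial_mul']
  split_ifs
  · rw [one_mul]
    exact hΛ _ _
  · exact isHomogeneous_zero _ _ _

theorem LamB_hom {D M d : ℕ} (a : Fin (N + 1))
    {Λ : Matrix (Fin s) (Fin n) (MvPolynomial (Fin q) (MvPolynomial (Fin (N + 1)) K))}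
    (hΛ : ∀ j l m, (coeff m (Λ j l)).IsHomogeneous D) (j : Ix q M d n s) (x : Bx q M × Fin n) :
    (LamB (M := M) (d := d) a D Λ j x).IsHomogeneous D := by
  rcases j with p | p
  · exact shf_hom (hΛ p.1) p.2 x
  · rw [LamB_inr]
    split_ifs
    · have h1 := (isHomogeneous_X K a).pow D
      rwa [one_mul] at h1
    · exact isHomogeneous_zero _ _ _

theorem T_main {D D' M d : ℕ} (hgr : g + r = n) (hdM : d ≤ M) {a : Fin (N + 1)}
    (ha : (X a : MvPolynomial (Fin (N + 1)) K) ∉ A.I)
    (G : Matrix (Fin g) (Fin n) (MvPolynomial (Fin (N + 1)) K))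
    (hG : ∀ i l, (G i l).IsHomogeneous D')
    (Λ : Matrix (Fin s) (Fin n) (MvPolynomial (Fin q) (MvPolynomial (Fin (N + 1)) K)))
    (hΛ : ∀ j l m, (coeff m (Λ j l)).IsHomogeneous D)
    (hd : ∀ j l, ∀ m ∈ (Λ j l).support, ∀ i, m i ≤ d) (τ : Fin q → ℝ) (T : Finset (Fin s))
    (hT : IndG A G Λ τ T) :
    ∃ W : Finset (Bx q M × Fin n),
      IndB A (Bx q M) G (LamB (M := M) (d := d) a D Λ) ((T ×ˢ Finset.univ).disjSum W) ∧
      W.card + T.card * (M - d + 1) ^ q = r * (M + 1) ^ q ∧
      ∑ j ∈ T, ∑ m : Bx q (M - d), (wt τ (toF m) + maxWt τ (Λ j)) + ∑ p ∈ W, wt τ (toF p.1) =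
        r * ∑ m : Bx q M, wt τ (toF m) := by
  classical
  obtain ⟨L, _, _, _, P₀, hP₀⟩ := EF.T_gen A
  obtain ⟨φ, hφ⟩ : ∃ φ : MvPolynomial (Fin (N + 1)) K →+* L,
    φ = (aeval (A.x P₀) : MvPolynomial (Fin (N + 1)) K →ₐ[K] L).toRingHom := ⟨_, rfl⟩
  have hφ' : ∀ p, aeval (A.x P₀) p = φ p := fun p => by rw [hφ]; rfl
  have h1 := hT L P₀ hP₀
  rw [← hφ] at h1
  obtain ⟨W, hW, hWc, hWs⟩ := SG.L_main hdM τ (Matrix.of fun i l => aeval (A.x P₀) (G i l))
    (fun j l => map φ (Λ j l))
    (fun j l m hm i => hd j l m (support_map_subset _ _ hm) i) (fun j => maxWt τ (Λ j))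
    (fun j l m hm => le_maxWt τ (Λ j) (support_map_subset _ _ hm)) T (by
      have h2 : (fun (j : T) (l : Fin n) => partWt τ (maxWt τ (Λ j)) (map φ (Λ j l))) =
          fun (j : T) (l : Fin n) => map φ (partWt τ (maxWt τ (Λ j)) (Λ j l)) := by
        funext j l
        rw [map_partWt]
      rw [h2]
      exact h1)
  refine ⟨W, ?_, ?_, ?_⟩
  · -- the map from the indices in the disjoint sum
    have hxa : A.x P₀ a ≠ 0 := by
      intro h
      refine ha (hP₀ _ 1 (isHomogeneous_X K a) ?_)
      rw [aeval_X]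
      exact h
    have hy : ∀ i : ((T ×ˢ Finset.univ).disjSum W : Finset (Ix q M d n s)),
        ∃ y : (T × Bx q (M - d)) ⊕ W,
          Sum.map (fun p : T × Bx q (M - d) => ((p.1 : Fin s), p.2)) (fun p : W => p.1) y = i.1 := by
      rintro ⟨i, hi⟩
      rcases i with p | p
      · have h2 := Finset.inl_mem_disjSum.1 hi
        rw [Finset.mem_product] at h2
        exact ⟨Sum.inl (⟨p.1, h2.1⟩, p.2), rfl⟩
      · have h2 := Finset.inr_mem_disjSum.1 hi
        exact ⟨Sum.inr ⟨p, h2⟩, rfl⟩
    choose y hy using hy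
    have hyi : Function.Injective y := by
      intro i i' h
      refine Subtype.ext ?_
      rw [← hy i, ← hy i', h]
    have hLI : LinearIndependent L (fun (i : (Bx q M × Fin g) ⊕
        ((T ×ˢ Finset.univ).disjSum W : Finset (Ix q M d n s))) (x : Bx q M × Fin n) =>
          aeval (A.x P₀) ((Sum.elim (fun (p : Bx q M × Fin g) (x : Bx q M × Fin n) =>
            if p.1 = x.1 then G p.2 x.2 else 0)
            (fun (j : ((T ×ˢ Finset.univ).disjSum W : Finset (Ix q M d n s))) x =>
              LamB (M := M) (d := d) a D Λ j.1 x) i x))) := by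
      have h2 := (hW.comp (Sum.map id y) (Function.injective_id.sumMap hyi)).units_smul
        (Sum.elim (fun _ => 1) fun i => Sum.elim (fun _ => 1)
          (fun _ => Units.mk0 (A.x P₀ a ^ D) (pow_ne_zero _ hxa)) (y i))
      refine li_congr h2 ?_
      intro i
      funext x
      rcases i with p | i
      · simp only [Pi.smul_apply', Function.comp_apply, Sum.map_inl, Sum.elim_inl, id, one_smul]
        split_ifs
        · rfl
        · rw [map_zero]
      · simp only [Pi.smul_apply', Function.comp_apply, Sum.map_inr, Sum.elim_inr]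
        have h3 := hy i
        rcases h4 : y i with p | p
        · rw [h4] at h3
          simp only [Sum.elim_inl, one_smul, ← h3, Sum.map_inl]
          rw [hφ']
          exact shf_map φ (Λ p.1) p.2 x
        · rw [h4] at h3
          simp only [Sum.elim_inr, ← h3, Sum.map_inr, LamB_inr]
          rw [Pi.smul_apply, Units.smul_def, Units.val_mk0, smul_eq_mul]
          split_ifs
          · rw [map_pow, aeval_X, mul_one]
          · rw [map_zero, mul_zero]
    intro L' _ _ P hP
    have h2 := EF.T_li A (fun (i : (Bx q M × Fin g) ⊕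
        ((T ×ˢ Finset.univ).disjSum W : Finset (Ix q M d n s))) (x : Bx q M × Fin n) =>
          ((Sum.elim (fun (p : Bx q M × Fin g) (x : Bx q M × Fin n) =>
            if p.1 = x.1 then G p.2 x.2 else 0)
            (fun (j : ((T ×ˢ Finset.univ).disjSum W : Finset (Ix q M d n s))) x =>
              LamB (M := M) (d := d) a D Λ j.1 x) i x)))
      (Sum.elim (fun _ => D') fun _ => D) (by
        rintro (p | j) x
        · simp only [Sum.elim_inl]
          split_ifs
          · exact hG _ _
          · exact isHomogeneous_zero _ _ _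
        · exact LamB_hom a hΛ j.1 x) P₀ P hP₀ hP hLI
    refine li_congr h2 ?_
    intro i
    funext x
    rcases i with p | j
    · simp only [Sum.elim_inl]
      split_ifs
      · rfl
      · rw [map_zero]
    · rfl
  · subst hgr
    rw [add_mul] at hWc
    linarith
  · subst hgr
    rw [hWs]
    push_cast
    ring

end

end Pool.Agent.Lib.MP_17a322_nt.SG
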