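import Pool.Agent.Lib.MP_17a322_nt.SG.Defs2

/-!
Exceptional forms over `A × 𝔾_m ^ q`.
-/

universe u

namespace Pool.Agent.Lib.MP_17a322_nt.SG

open MvPolynomial Height
open Pool.Agent.Lib.MP_17a322_nt.VA
open Pool.Agent.Lib.MP_17a322_nt.SL

section

variable {K : Type u} [Field K] {N q : ℕ} (A : AV K N) {g n r s : ℕ}

theorem X_eval' {M : ℕ} {R : Type*} [CommRing R] [Algebra K R]
    (F : MvPolynomial (Fin (N + 1) ⊕ (Bx q M × Fin n)) K) (x : Fin (N + 1) → R)
    (t : Fin q → R) (Z : Fin n → R) :
    aeval (Sum.elim x (Sum.elim t Z)) (pullF F) = aeval (Sum.elim x (phi M t Z)) F := by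
  unfold pullF
  rw [← AlgHom.comp_apply, comp_aeval]
  congr 2
  funext i
  rcases i with i | i
  · simp
  · simp [phi]

theorem X_eval {M : ℕ} (F : MvPolynomial (Fin (N + 1) ⊕ (Bx q M × Fin n)) K) (x : Fin (N + 1) → K)
    (t : Fin q → K) (Z : Fin n → K) :
    aeval (Sum.elim x (Sum.elim t Z)) (pullF F) = aeval (Sum.elim x (phi M t Z)) F :=
  X_eval' F x t Z

theorem X_mul {G : Matrix (Fin g) (Fin n) (MvPolynomial (Fin (N + 1)) K)}
    {F F' : MvPolynomial (Fin (N + 1) ⊕ Fin q ⊕ Fin n) K} (hF : ExcG A G F)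
    (hF' : ExcG A G F') : ExcG A G (F * F') := by
  classical
  obtain ⟨⟨a, b, hab⟩, h⟩ := hF
  obtain ⟨⟨a', b', hab'⟩, h'⟩ := hF'
  refine ⟨⟨a + a', b + b', fun m hm => ?_⟩, fun L _ _ _ P hP => ?_⟩
  · have h1 := support_mul _ _ hm
    obtain ⟨m₁, hm₁, m₂, hm₂, rfl⟩ := Finset.mem_add.1 h1
    simp only [Finsupp.add_apply, Finset.sum_add_distrib]
    rw [(hab m₁ hm₁).1, (hab m₁ hm₁).2, (hab' m₂ hm₂).1, (hab' m₂ hm₂).2]
    exact ⟨rfl, rfl⟩
  · obtain ⟨c, m, y, hc, hy, hF⟩ := h L P hP
    obtain ⟨c', m', y', hc', hy', hF'⟩ := h' L P hP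
    refine ⟨c * c', m + m', Fin.append y y', mul_ne_zero hc hc', fun k => ?_, ?_⟩
    · refine Fin.addCases (fun k => ?_) (fun k => ?_) k
      · rw [Fin.append_left]
        exact hy k
      · rw [Fin.append_right]
        exact hy' k
    · rw [map_mul, hF, hF', Fin.prod_univ_add]
      simp only [Fin.append_left, Fin.append_right, map_mul]
      ring

theorem X_one {G : Matrix (Fin g) (Fin n) (MvPolynomial (Fin (N + 1)) K)} :
    ExcG A G (1 : MvPolynomial (Fin (N + 1) ⊕ Fin q ⊕ Fin n) K) := by
  classical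
  refine ⟨⟨0, 0, fun m hm => ?_⟩, fun L _ _ _ P hP => ⟨1, 0, fun _ _ => 0, one_ne_zero,
    fun k => k.elim0, ?_⟩⟩
  · have h1 : m = 0 := by
      have h2 := support_monomial_subset (R := K) (s := 0) (a := 1) hm
      simpa using h2
    rw [h1]
    simp
  · simp

theorem X_prod {G : Matrix (Fin g) (Fin n) (MvPolynomial (Fin (N + 1)) K)} {ι : Type*}
    (s : Finset ι) (F : ι → MvPolynomial (Fin (N + 1) ⊕ Fin q ⊕ Fin n) K)
    (h : ∀ i ∈ s, ExcG A G (F i)) : ExcG A G (∏ i ∈ s, F i) := by
  classical
  induction s using Finset.induction_on with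
  | empty =>
    rw [Finset.prod_empty]
    exact X_one A
  | insert i s hi ih =>
    rw [Finset.prod_insert hi]
    exact X_mul A (h i (Finset.mem_insert_self i s))
      (ih fun j hj => h j (Finset.mem_insert_of_mem hj))

theorem X_mon {L : Type*} [CommRing L] (M : ℕ) (m : Bx q M) :
    (∏ i, (X i : MvPolynomial (Fin q) L) ^ (m i : ℕ)) = monomial (toF m) 1 := by
  rw [monomial_eq, C_1, one_mul, Finsupp.prod_fintype _ _ (fun i => pow_zero _)]
  rfl

theorem X_toF_inj {M : ℕ} : Function.Injective (toF : Bx q M → Fin q →₀ ℕ) := by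
  intro m m' h
  have h1 := Finsupp.equivFunOnFinite.symm.injective h
  funext i
  exact Fin.ext (congrFun h1 i)

/-- The pullback of a monomial. -/
theorem X_pull_mon {M : ℕ} (d : Fin (N + 1) ⊕ (Bx q M × Fin n) →₀ ℕ) (c : K) :
    pullF (monomial d c) =
        monomial (∑ i, Finsupp.single (Sum.inl i) (d (Sum.inl i)) +
          ∑ x : Bx q M × Fin n, (∑ i, Finsupp.single (Sum.inr (Sum.inl i))
              (d (Sum.inr x) * (x.1 i : ℕ)) +
            Finsupp.single (Sum.inr (Sum.inr x.2)) (d (Sum.inr x)))) c := by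
  have h3 : ∀ (e e' : Fin (N + 1) ⊕ Fin q ⊕ Fin n →₀ ℕ) (c : K),
      monomial (e + e') c = C c * (monomial e 1 * monomial e' 1) := by
    intro e e' c
    rw [monomial_mul, C_mul_monomial, mul_one, mul_one]
  have h4 : ∀ (e e' : Fin (N + 1) ⊕ Fin q ⊕ Fin n →₀ ℕ),
      monomial (e + e') (1 : K) = monomial e 1 * monomial e' 1 := by
    intro e e'
    rw [monomial_mul, mul_one]
  rw [h3, monomial_sum_one, monomial_sum_one]
  unfold pullF
  rw [aeval_monomial, Finsupp.prod_fintype _ _ (fun i => pow_zero _), Fintype.prod_sum_type,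
    algebraMap_eq]
  congr 1
  congr 1
  · refine Finset.prod_congr rfl fun i _ => ?_
    rw [Sum.elim_inl, X_pow_eq_monomial]
  · refine Finset.prod_congr rfl fun x _ => ?_
    rw [Sum.elim_inr, phi, mul_pow, h4, monomial_sum_one, X_pow_eq_monomial, ← Finset.prod_pow]
    congr 1
    refine Finset.prod_congr rfl fun i _ => ?_
    rw [← pow_mul, X_pow_eq_monomial, mul_comm]

theorem X_exc {M : ℕ} {G : Matrix (Fin g) (Fin n) (MvPolynomial (Fin (N + 1)) K)}
    {F : MvPolynomial (Fin (N + 1) ⊕ (Bx q M × Fin n)) K} (hF : ExcB A (Bx q M) G F) :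
    ExcG A G (pullF F) := by
  classical
  obtain ⟨⟨a, b, hab⟩, h⟩ := hF
  refine ⟨⟨a, b, ?_⟩, fun L _ _ _ P hP => ?_⟩
  · intro m hm
    have h1 : pullF F = ∑ d ∈ F.support, pullF (monomial d (coeff d F)) := by
      conv_lhs => rw [F.as_sum]
      unfold pullF
      rw [map_sum]
    rw [h1] at hm
    obtain ⟨d, hd, hmd⟩ := Finset.mem_biUnion.1 (support_sum hm)
    obtain ⟨hd1, hd2⟩ := hab d hd
    rw [X_pull_mon] at hmd
    have h3 := support_monomial_subset hmd
    rw [Finset.mem_singleton] at h3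
    rw [h3]
    constructor
    · rw [← hd1]
      refine Finset.sum_congr rfl fun i _ => ?_
      simp only [Finsupp.add_apply, Finsupp.finsetSum_apply, Finsupp.single_apply]
      simp
    · rw [← hd2]
      simp only [Finsupp.add_apply, Finsupp.finsetSum_apply, Finsupp.single_apply]
      simp only [Sum.inr.injEq, reduceCtorEq, if_false, Finset.sum_const_zero, zero_add]
      rw [Finset.sum_comm]
      refine Finset.sum_congr rfl fun k _ => ?_
      simp
  · obtain ⟨c, m, y, hc, hy, hFP⟩ := h L P hP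
    refine ⟨C c, m, fun k l => ∑ b : Bx q M, C (y k (b, l)) *
      ∏ i, (X i : MvPolynomial (Fin q) L) ^ (b i : ℕ), fun h0 => hc (C_injective _ _
        (h0.trans C_0.symm)), fun k => ?_, ?_⟩
    · obtain ⟨z, hz, hne⟩ := hy k
      rw [Fintype.sum_prod_type] at hne
      obtain ⟨b, -, hb⟩ := Finset.exists_ne_zero_of_sum_ne_zero hne
      refine ⟨fun l => z (b, l), hz b, fun h0 => hb ?_⟩
      have h1 := congrArg (coeff (toF b)) h0
      rw [coeff_sum, coeff_zero] at h1
      rw [← h1]
      refine Finset.sum_congr rfl fun l _ => ?_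
      rw [mul_comm _ (C _), coeff_C_mul, coeff_sum, mul_comm (y k _)]
      congr 1
      rw [Finset.sum_eq_single b]
      · rw [coeff_C_mul, X_mon, coeff_monomial, if_pos rfl, mul_one]
      · intro b' _ hb'
        rw [coeff_C_mul, X_mon, coeff_monomial, if_neg fun h3 => hb' (X_toF_inj h3), mul_zero]
      · intro h2
        exact absurd (Finset.mem_univ _) h2
    · have h1 : aeval (Sum.elim (fun i => (C (C (A.x P i)) :
            MvPolynomial (Fin n) (MvPolynomial (Fin q) L))) (Sum.elim (fun i => C (X i)) X))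
          (pullF F) = aeval (phi M (fun i => (C (X i) :
            MvPolynomial (Fin n) (MvPolynomial (Fin q) L))) X)
          (aeval (Sum.elim (fun i => (C (A.x P i) : MvPolynomial (Bx q M × Fin n) L)) X) F) := by
        rw [X_eval']
        have h3 := comp_aeval (R := K) (B := MvPolynomial (Fin n) (MvPolynomial (Fin q) L))
          (Sum.elim (fun i => (C (A.x P i) : MvPolynomial (Bx q M × Fin n) L)) X)
          ((aeval (R := L) (phi M (fun i => (C (X i) :
            MvPolynomial (Fin n) (MvPolynomial (Fin q) L))) X)).restrictScalars K)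
        have h4 := congrArg (fun φ => φ F) h3
        simp only [AlgHom.comp_apply, AlgHom.restrictScalars_apply] at h4
        rw [h4]
        congr 2
        funext i
        rcases i with i | i
        · simp [algebraMap_eq]
        · simp
      rw [h1, hFP]
      simp only [map_mul, map_prod, map_sum, aeval_X, aeval_C]
      congr 1
      refine Finset.prod_congr rfl fun k _ => ?_
      rw [Fintype.sum_prod_type, Finset.sum_comm]
      refine Finset.sum_congr rfl fun l _ => ?_
      rw [Finset.sum_mul]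
      refine Finset.sum_congr rfl fun b _ => ?_
      simp only [map_pow, phi]
      rw [mul_assoc]
      rfl

/-- Exceptional forms without `X` for the trivial bundle of rank one are exceptional for all `G`. -/
theorem X_vert {G : Matrix (Fin g) (Fin n) (MvPolynomial (Fin (N + 1)) K)}
    (G' : Matrix (Fin 0) (Fin 1) (MvPolynomial (Fin (N + 1)) K))
    {F : MvPolynomial (Fin (N + 1) ⊕ Fin q ⊕ Fin 1) K} (hF : ExcG A G' F) :
    ExcG A G (aeval (Sum.elim (fun i => X (Sum.inl i))
      (Sum.elim (fun i => X (Sum.inr (Sum.inl i))) fun _ => 1)) F :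
        MvPolynomial (Fin (N + 1) ⊕ Fin q ⊕ Fin n) K) := by
  classical
  obtain ⟨⟨a, b, hab⟩, h⟩ := hF
  refine ⟨⟨a, 0, ?_⟩, fun L _ _ _ P hP => ?_⟩
  · intro m hm
    rw [F.as_sum, map_sum] at hm
    obtain ⟨d, hd, hmd⟩ := Finset.mem_biUnion.1 (support_sum hm)
    obtain ⟨hd1, hd2⟩ := hab d hd
    have h3 : ∀ (e e' : Fin (N + 1) ⊕ Fin q ⊕ Fin n →₀ ℕ) (c : K),
        monomial (e + e') c = C c * (monomial e 1 * monomial e' 1) := by
      intro e e' c
      rw [monomial_mul, C_mul_monomial, mul_one, mul_one]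
    have h2 : (aeval (Sum.elim (fun i => X (Sum.inl i))
        (Sum.elim (fun i => X (Sum.inr (Sum.inl i))) fun _ => 1)) (monomial d (coeff d F)) :
          MvPolynomial (Fin (N + 1) ⊕ Fin q ⊕ Fin n) K) =
        monomial (∑ i, Finsupp.single (Sum.inl i) (d (Sum.inl i)) +
          ∑ i, Finsupp.single (Sum.inr (Sum.inl i)) (d (Sum.inr (Sum.inl i)))) (coeff d F) := by
      rw [h3, monomial_sum_one, monomial_sum_one, aeval_monomial,
        Finsupp.prod_fintype _ _ (fun i => pow_zero _), Fintype.prod_sum_type,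
        Fintype.prod_sum_type, algebraMap_eq]
      simp only [Sum.elim_inl, Sum.elim_inr, X_pow_eq_monomial, one_pow, Finset.prod_const_one,
        mul_one]
    rw [h2] at hmd
    have h4 := support_monomial_subset hmd
    rw [Finset.mem_singleton] at h4
    rw [h4]
    constructor
    · rw [← hd1]
      refine Finset.sum_congr rfl fun i _ => ?_
      simp only [Finsupp.add_apply, Finsupp.finsetSum_apply, Finsupp.single_apply]
      simp
    · simp only [Finsupp.add_apply, Finsupp.finsetSum_apply, Finsupp.single_apply]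
      simp
  · obtain ⟨c, m, y, hc, hy, hF⟩ := h L P hP
    refine ⟨c * ∏ k, y k 0, 0, fun _ _ => 0, mul_ne_zero hc (Finset.prod_ne_zero_iff.2
      fun k _ => ?_), fun k => k.elim0, ?_⟩
    · obtain ⟨z, -, hne⟩ := hy k
      intro h0
      refine hne ?_
      rw [Fin.sum_univ_one, h0, zero_mul]
    · have h1 : aeval (Sum.elim (fun i => (C (C (A.x P i)) :
            MvPolynomial (Fin n) (MvPolynomial (Fin q) L))) (Sum.elim (fun i => C (X i)) X))
          (aeval (Sum.elim (fun i => X (Sum.inl i))
            (Sum.elim (fun i => X (Sum.inr (Sum.inl i))) fun _ => 1)) F :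
              MvPolynomial (Fin (N + 1) ⊕ Fin q ⊕ Fin n) K) =
          aeval (R := MvPolynomial (Fin q) L) (fun _ : Fin 1 =>
            (1 : MvPolynomial (Fin n) (MvPolynomial (Fin q) L)))
          (aeval (Sum.elim (fun i => (C (C (A.x P i)) :
            MvPolynomial (Fin 1) (MvPolynomial (Fin q) L))) (Sum.elim (fun i => C (X i)) X))
              F) := by
        rw [← AlgHom.comp_apply, comp_aeval]
        have h3 := comp_aeval (R := K) (B := MvPolynomial (Fin n) (MvPolynomial (Fin q) L))
          (Sum.elim (fun i => (C (C (A.x P i)) :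
            MvPolynomial (Fin 1) (MvPolynomial (Fin q) L))) (Sum.elim (fun i => C (X i)) X))
          ((aeval (R := MvPolynomial (Fin q) L) (fun _ : Fin 1 =>
            (1 : MvPolynomial (Fin n) (MvPolynomial (Fin q) L)))).restrictScalars K)
        have h4 := congrArg (fun φ => φ F) h3
        simp only [AlgHom.comp_apply, AlgHom.restrictScalars_apply] at h4
        rw [h4]
        congr 2
        funext i
        rcases i with i | i | i
        · simp [algebraMap_eq]
        · simp [algebraMap_eq]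
        · simp
      rw [h1, hF]
      simp [map_mul, map_prod, algebraMap_eq]

end

end Pool.Agent.Lib.MP_17a322_nt.SG
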