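import Pool.Agent.Lib.MP_17a322_nt.SG.C1
import Pool.Agent.Lib.MP_17a322_nt.SG.X1
import Pool.Agent.Lib.MP_17a322_nt.SG.T1
import Pool.Agent.Lib.MP_17a322_nt.SG.H1
import Pool.Agent.Lib.MP_17a322_nt.SG.M0

/-!
Moving hyperplanes over `A × 𝔾_m ^ q`: the inequality for independent leading parts.
-/

universe u

namespace Pool.Agent.Lib.MP_17a322_nt.SG

open MvPolynomial Height Filter Topology
open Pool.Agent.Lib.MP_17a322_nt.VA
open Pool.Agent.Lib.MP_17a322_nt.SL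

/-- The size of the box. -/
theorem M_box (q d : ℕ) {δ : ℝ} (hδ : 0 < δ) :
    ∃ k : ℕ, ((k + d + 1 : ℕ) : ℝ) ^ q ≤ (1 + δ) * ((k + 1 : ℕ) : ℝ) ^ q := by
  have h1 : Tendsto (fun k : ℕ => (d : ℝ) / ((k + 1 : ℕ) : ℝ)) atTop (𝓝 0) :=
    (tendsto_const_div_atTop_nhds_zero_nat (d : ℝ)).comp (tendsto_add_atTop_nat 1)
  have h2 : Tendsto (fun k : ℕ => (1 + (d : ℝ) / ((k + 1 : ℕ) : ℝ)) ^ q) atTop (𝓝 1) := by
    have h3 := (h1.const_add 1).pow q
    rw [add_zero, one_pow] at h3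
    exact h3
  obtain ⟨k, hk⟩ := (h2.eventually_le_const (show (1 : ℝ) < 1 + δ by linarith)).exists
  refine ⟨k, ?_⟩
  have h4 : (0 : ℝ) < ((k + 1 : ℕ) : ℝ) := by positivity
  have h5 : ((k + d + 1 : ℕ) : ℝ) = (1 + (d : ℝ) / ((k + 1 : ℕ) : ℝ)) * ((k + 1 : ℕ) : ℝ) := by
    rw [add_mul, div_mul_cancel₀ _ h4.ne']
    push_cast
    ring
  rw [h5, mul_pow]
  exact mul_le_mul_of_nonneg_right hk (pow_nonneg h4.le _)

section

variable {K : Type u} [Field K] {N q : ℕ} (A : AV K N) {g n r s : ℕ}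

theorem M_coord : ∃ a : Fin (N + 1), (X a : MvPolynomial (Fin (N + 1)) K) ∉ A.I := by
  obtain ⟨L, _, _, _, P₀, _⟩ := EF.T_gen A
  by_contra hcon
  push Not at hcon
  refine P₀.1.rep_nonzero (funext fun a => ?_)
  have h1 := P₀.2 _ (hcon a)
  rwa [aeval_X] at h1

theorem M_fib {G : Matrix (Fin g) (Fin n) (MvPolynomial (Fin (N + 1)) K)} {P : A.Pts K}
    {Z : Fin n → K} (hZ : Z ∈ Fib A G P) (M : ℕ) (t : Fin q → K) (b : Bx q M) :
    (fun l => phi M t Z (b, l)) ∈ Fib A G P := by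
  intro i
  have h1 : ∑ l, aeval (A.x P) (G i l) * phi M t Z (b, l) =
      (∏ i, t i ^ (b i : ℕ)) * ∑ l, aeval (A.x P) (G i l) * Z l := by
    rw [Finset.mul_sum]
    refine Finset.sum_congr rfl fun l _ => ?_
    unfold phi
    ring
  rw [h1, hZ i, mul_zero]

/-- A bound for the exponents. -/
theorem M_deg {R : Type*} [CommRing R] (Λ : Matrix (Fin s) (Fin n) (MvPolynomial (Fin q) R)) :
    ∃ d : ℕ, ∀ j l, ∀ m ∈ (Λ j l).support, ∀ i, m i ≤ d := by
  refine ⟨∑ j, ∑ l, ∑ m ∈ (Λ j l).support, ∑ i, m i, fun j l m hm i => ?_⟩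
  have h1 : m i ≤ ∑ i, m i := Finset.single_le_sum (f := fun i => m i) (fun _ _ => Nat.zero_le _)
    (Finset.mem_univ i)
  have h2 : ∑ i, m i ≤ ∑ m ∈ (Λ j l).support, ∑ i, m i :=
    Finset.single_le_sum (f := fun m : Fin q →₀ ℕ => ∑ i, m i) (fun _ _ => Nat.zero_le _) hm
  have h3 : ∑ m ∈ (Λ j l).support, ∑ i, m i ≤ ∑ l, ∑ m ∈ (Λ j l).support, ∑ i, m i :=
    Finset.single_le_sum (f := fun l => ∑ m ∈ (Λ j l).support, ∑ i, m i)
      (fun _ _ => Nat.zero_le _) (Finset.mem_univ l)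
  have h4 : ∑ l, ∑ m ∈ (Λ j l).support, ∑ i, m i ≤
      ∑ j, ∑ l, ∑ m ∈ (Λ j l).support, ∑ i, m i :=
    Finset.single_le_sum (f := fun j => ∑ l, ∑ m ∈ (Λ j l).support, ∑ i, m i)
      (fun _ _ => Nat.zero_le _) (Finset.mem_univ j)
  exact ((h1.trans h2).trans h3).trans h4

theorem NS_nonneg [NumberField K] (S : Finset (NumberField.FinitePlace K)) (t : Fin q → K) :
    0 ≤ NS S t := by
  unfold NS
  exact Finset.sum_nonneg fun i _ => finsum_nonneg fun v => abs_nonneg _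

/-- The sum of the heights of the coordinates. -/
theorem M_two [NumberField K] (S : Finset (NumberField.FinitePlace K)) {t : Fin q → K}
    (ht : ∀ i, t i ≠ 0) :
    2 * ∑ i, logHeight₁ (t i) =
      (∑ w : NumberField.InfinitePlace K, (w.mult : ℝ) * ∑ i, |Real.log (w (t i))|) +
        (∑ v ∈ S, ∑ i, |Real.log (v (t i))|) + NS S t := by
  have h1 : ∀ i, 2 * logHeight₁ (t i) =
      (∑ w : NumberField.InfinitePlace K, (w.mult : ℝ) * |Real.log (w (t i))|) +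
        (∑ v ∈ S, |Real.log (v (t i))|) +
        ∑ᶠ v : {v : NumberField.FinitePlace K // v ∉ S}, |Real.log (v.1 (t i))| := by
    intro i
    rw [H_two S (ht i)]
    ring
  rw [Finset.mul_sum, Finset.sum_congr rfl fun i _ => h1 i, Finset.sum_add_distrib,
    Finset.sum_add_distrib, Finset.sum_comm, Finset.sum_comm (t := S)]
  unfold NS
  congr 2
  refine Finset.sum_congr rfl fun w _ => ?_
  rw [Finset.mul_sum]

theorem M_core [NumberField K] (Γ : AddSubgroup (A.Pts K)) (hΓ : Γ.FG) (hgr : g + r = n)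
    (hr : 0 < r) (D D' : ℕ) (G : Matrix (Fin g) (Fin n) (MvPolynomial (Fin (N + 1)) K))
    (hG : ∀ i l, (G i l).IsHomogeneous D')
    (Λ : Matrix (Fin s) (Fin n) (MvPolynomial (Fin q) (MvPolynomial (Fin (N + 1)) K)))
    (hΛ : ∀ j l m, (coeff m (Λ j l)).IsHomogeneous D)
    (S : Finset (NumberField.FinitePlace K)) (ε : ℝ) (hε : 0 < ε) :
    ∃ (C : ℝ) (F : MvPolynomial (Fin (N + 1) ⊕ Fin q ⊕ Fin n) K), ExcG A G F ∧
      ∀ P ∈ Γ, ∀ t : Fin q → K, (∀ i, t i ≠ 0) → ∀ Z : Fin n → K, Z ≠ 0 → Z ∈ Fib A G P →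
        aeval (Sum.elim (A.x P) (Sum.elim t Z)) F ≠ 0 →
        ∀ (Ti : NumberField.InfinitePlace K → Finset (Fin s))
          (Tf : NumberField.FinitePlace K → Finset (Fin s)),
          (∀ v, IndG A G Λ (fun i => Real.log (v (t i))) (Ti v)) →
          (∀ v ∈ S, IndG A G Λ (fun i => Real.log (v (t i))) (Tf v)) →
          (∀ j, (∃ v, j ∈ Ti v) ∨ (∃ v ∈ S, j ∈ Tf v) → (∑ l, ev A P t (Λ j l) * Z l) ≠ 0) ∧
          (∑ v : NumberField.InfinitePlace K, (v.mult : ℝ) *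
              ∑ j ∈ Ti v, lamG A v.val D (Λ j) P t Z) +
            (∑ v ∈ S, ∑ j ∈ Tf v, lamG A v.val D (Λ j) P t Z) + hE A G P ≤
            r * logHeight Z + ε * (logHeight Z + logHeight (A.x P) + ∑ i, logHeight₁ (t i)) +
              C * (1 + NS S t) := by
  classical
  obtain ⟨d, hd⟩ := M_deg Λ
  obtain ⟨a, ha⟩ := M_coord A
  have hr' : (0 : ℝ) < r := by exact_mod_cast hr
  obtain ⟨k, hk⟩ := M_box q d (δ := ε / (2 * r)) (by positivity)
  obtain ⟨M, hM⟩ : ∃ M, M = k + d := ⟨_, rfl⟩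
  have hdM : d ≤ M := by omega
  have hMd : M - d = k := by omega
  obtain ⟨c, hc⟩ : ∃ c : ℝ, c = ((M - d + 1 : ℕ) : ℝ) ^ q := ⟨_, rfl⟩
  obtain ⟨b, hb⟩ : ∃ b : ℝ, b = ((M : ℝ) + 1) ^ q := ⟨_, rfl⟩
  have hc1 : 1 ≤ c := by
    rw [hc]
    refine one_le_pow₀ ?_
    push_cast
    have : (0 : ℝ) ≤ ((M - d : ℕ) : ℝ) := Nat.cast_nonneg _
    linarith
  have hcb : c ≤ b := by
    rw [hc, hb]
    refine pow_le_pow_left₀ (Nat.cast_nonneg _) ?_ _
    have : (((M - d + 1 : ℕ)) : ℝ) ≤ ((M + 1 : ℕ) : ℝ) := by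
      exact_mod_cast Nat.succ_le_succ (Nat.sub_le _ _)
    push_cast at this ⊢
    exact this
  have hbc : b * r ≤ (r + ε / 2) * c := by
    have h1 : b ≤ (1 + ε / (2 * r)) * c := by
      rw [hb, hc, hMd]
      have h2 : ((k + d + 1 : ℕ) : ℝ) = (M : ℝ) + 1 := by
        rw [hM]
        push_cast
        ring
      rw [← h2]
      exact hk
    calc b * r ≤ ((1 + ε / (2 * r)) * c) * r := mul_le_mul_of_nonneg_right h1 hr'.le
      _ = (r + ε / 2) * c := by field_simp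
  have hcard : (Fintype.card (Bx q M) : ℝ) = b := by
    rw [hb, Fintype.card_fun, Fintype.card_fin, Fintype.card_fin]
    push_cast
    ring
  have hM0 : (0 : ℝ) ≤ M := Nat.cast_nonneg _
  obtain ⟨C₁, F₁, hF₁, h⟩ := C_main A Γ hΓ hgr hr D D' (Bx q M) G hG
    (LamB (M := M) (d := d) a D Λ) (LamB_hom a hΛ) S (ε / (2 * (M + 1))) (by positivity)
  refine ⟨r * b * (M / 2) + |C₁|, pullF F₁, X_exc A hF₁, ?_⟩
  intro P hP t ht Z hZ hZE hne Ti Tf hTi hTf
  have hY : phi M t Z ≠ 0 := H_phi_ne M ht hZ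
  rw [X_eval] at hne
  choose Wi hWi hWic hWis using fun v => T_main A hgr hdM ha G hG Λ hΛ hd _ (Ti v) (hTi v)
  have hWf : ∀ v : NumberField.FinitePlace K, ∃ W : Finset (Bx q M × Fin n), v ∈ S →
      IndB A (Bx q M) G (LamB (M := M) (d := d) a D Λ) ((Tf v ×ˢ Finset.univ).disjSum W) ∧
      W.card + (Tf v).card * (M - d + 1) ^ q = r * (M + 1) ^ q ∧
      ∑ j ∈ Tf v, ∑ m : Bx q (M - d), (wt (fun i => Real.log (v (t i))) (toF m) +
        maxWt (fun i => Real.log (v (t i))) (Λ j)) +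
          ∑ p ∈ W, wt (fun i => Real.log (v (t i))) (toF p.1) =
        r * ∑ m : Bx q M, wt (fun i => Real.log (v (t i))) (toF m) := by
    intro v
    by_cases hv : v ∈ S
    · obtain ⟨W, hW⟩ := T_main A hgr hdM ha G hG Λ hΛ hd _ (Tf v) (hTf v hv)
      exact ⟨W, fun _ => hW⟩
    · exact ⟨∅, fun h => absurd h hv⟩
  choose Wf hWf using hWf
  obtain ⟨h1, h2⟩ := h P hP (phi M t Z) hY (fun b => M_fib A hZE M t b) hne
    (fun v => (Ti v ×ˢ Finset.univ).disjSum (Wi v))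
    (fun v => (Tf v ×ˢ Finset.univ).disjSum (Wf v)) hWi (fun v hv => (hWf v hv).1)
  have h1i : ∀ v : NumberField.InfinitePlace K,
      ∀ j ∈ (Ti v ×ˢ Finset.univ).disjSum (Wi v),
      (∑ x, aeval (A.x P) (LamB (M := M) (d := d) a D Λ j x) * phi M t Z x) ≠ 0 :=
    fun v j hj => h1 j (Or.inl ⟨v, hj⟩)
  have h1f : ∀ v ∈ S, ∀ j ∈ (Tf v ×ˢ Finset.univ).disjSum (Wf v),
      (∑ x, aeval (A.x P) (LamB (M := M) (d := d) a D Λ j x) * phi M t Z x) ≠ 0 :=
    fun v hv j hj => h1 j (Or.inr ⟨v, hv, hj⟩)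
  refine ⟨?_, ?_⟩
  · rintro j (⟨v, hj⟩ | ⟨v, hv, hj⟩)
    · have h3 := h1i v (Sum.inl (j, fun _ => 0)) (Finset.inl_mem_disjSum.2
        (Finset.mk_mem_product hj (Finset.mem_univ _)))
      rw [V_val A hdM Λ hd] at h3
      exact right_ne_zero_of_mul h3
    · have h3 := h1f v hv (Sum.inl (j, fun _ => 0)) (Finset.inl_mem_disjSum.2
        (Finset.mk_mem_product hj (Finset.mem_univ _)))
      rw [V_val A hdM Λ hd] at h3
      exact right_ne_zero_of_mul h3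
  · have hVi : ∀ v : NumberField.InfinitePlace K,
        c * ∑ j ∈ Ti v, lamG A v.val D (Λ j) P t Z +
          r * b * (M / 2) * ∑ i, |Real.log (v (t i))| ≤
        ∑ j ∈ (Ti v ×ˢ Finset.univ).disjSum (Wi v),
          lamB A v.val D (LamB (M := M) (d := d) a D Λ j) P (phi M t Z) := by
      intro v
      rw [hc, hb]
      exact V_main A hdM Λ hd v.val P t ht Z hZ (Ti v) (Wi v) (hWic v) (hWis v) (h1i v)
    have hVf : ∀ v ∈ S,
        c * ∑ j ∈ Tf v, lamG A v.val D (Λ j) P t Z +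
          r * b * (M / 2) * ∑ i, |Real.log (v (t i))| ≤
        ∑ j ∈ (Tf v ×ˢ Finset.univ).disjSum (Wf v),
          lamB A v.val D (LamB (M := M) (d := d) a D Λ j) P (phi M t Z) := by
      intro v hv
      rw [hc, hb]
      exact V_main A hdM Λ hd v.val P t ht Z hZ (Tf v) (Wf v) (hWf v hv).2.1 (hWf v hv).2.2
        (h1f v hv)
    have hSi := Finset.sum_le_sum fun v (_ : v ∈ (Finset.univ :
      Finset (NumberField.InfinitePlace K))) =>
        mul_le_mul_of_nonneg_left (hVi v) (Nat.cast_nonneg v.mult)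
    have hSf := Finset.sum_le_sum hVf
    have hei : ∑ v : NumberField.InfinitePlace K, (v.mult : ℝ) *
        (c * ∑ j ∈ Ti v, lamG A v.val D (Λ j) P t Z +
          r * b * (M / 2) * ∑ i, |Real.log (v (t i))|) =
        c * (∑ v : NumberField.InfinitePlace K, (v.mult : ℝ) *
          ∑ j ∈ Ti v, lamG A v.val D (Λ j) P t Z) +
        r * b * (M / 2) * ∑ v : NumberField.InfinitePlace K, (v.mult : ℝ) *
          ∑ i, |Real.log (v (t i))| := by
      rw [Finset.mul_sum, Finset.mul_sum, ← Finset.sum_add_distrib]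
      exact Finset.sum_congr rfl fun v _ => by ring
    have hef : ∑ v ∈ S, (c * ∑ j ∈ Tf v, lamG A v.val D (Λ j) P t Z +
          r * b * (M / 2) * ∑ i, |Real.log (v (t i))|) =
        c * (∑ v ∈ S, ∑ j ∈ Tf v, lamG A v.val D (Λ j) P t Z) +
        r * b * (M / 2) * ∑ v ∈ S, ∑ i, |Real.log (v (t i))| := by
      rw [Finset.mul_sum, Finset.mul_sum, ← Finset.sum_add_distrib]
    rw [hei] at hSi
    rw [hef] at hSf
    rw [hcard, H_phi M ht hZ] at h2
    have hT := M_two S ht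
    have hN := NS_nonneg S t
    have hEn : 0 ≤ hE A G P := logHeight_nonneg _
    have hZn : 0 ≤ logHeight Z := logHeight_nonneg _
    have hxn : 0 ≤ logHeight (A.x P) := logHeight_nonneg _
    have htn : 0 ≤ ∑ i, logHeight₁ (t i) := Finset.sum_nonneg fun i _ => zero_le_logHeight₁ _
    exact M_num (U := 0) hε hr'.le hM0 hc1 hcb hbc hSi hSf
      (by rw [mul_zero, zero_add]; exact h2) (by rw [add_zero]; linarith) hZn hxn htn hEn hN

end

end Pool.Agent.Lib.MP_17a322_nt.SG
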