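import Pool.Agent.Lib.MP_17a322_nt.Mb

/-!
Initial parts of vectors with respect to a weight on the coordinates.
-/

namespace Pool.Agent.Lib.MP_17a322_nt.SG

section

variable {L : Type*} [Field L] {κ ι : Type*}

/-- The part of the vector `x` of weight `h`. -/
noncomputable def ini (w : κ → ℝ) (h : ℝ) (x : κ → L) : κ → L := by
  classical exact fun k => if w k = h then x k else 0

theorem ini_eq {w : κ → ℝ} {h : ℝ} {x : κ → L} {k : κ} (hk : w k = h) : ini w h x k = x k := by
  classical
  simp [ini, hk]

theorem ini_ne {w : κ → ℝ} {h : ℝ} {x : κ → L} {k : κ} (hk : w k ≠ h) : ini w h x k = 0 := by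
  classical
  simp [ini, hk]

/-- If the initial parts are linearly independent, then so are the vectors. -/
theorem ini_li {w : κ → ℝ} {h : ι → ℝ} {x : ι → κ → L} {s : Set ι}
    (hx : ∀ i ∈ s, ∀ k, h i < w k → x i k = 0)
    (hs : LinearIndepOn L (fun i => ini w (h i) (x i)) s) : LinearIndepOn L x s := by
  classical
  rw [linearIndepOn_iff'] at hs ⊢
  intro t c ht h0 i hi
  by_contra hc
  obtain ⟨i₀, hi₀, hmax⟩ := Finset.exists_max_image (t.filter fun i => c i ≠ 0) h
    ⟨i, Finset.mem_filter.mpr ⟨hi, hc⟩⟩
  have h1 := (Finset.mem_filter.mp hi₀).1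
  have h2 := (Finset.mem_filter.mp hi₀).2
  have h3 := hs (t.filter fun i => h i = h i₀) c
    ((Finset.coe_subset.mpr (Finset.filter_subset _ _)).trans ht) ?_ i₀
    (Finset.mem_filter.mpr ⟨h1, rfl⟩)
  · exact h2 h3
  · funext k
    rw [Finset.sum_apply, Pi.zero_apply]
    by_cases hk : w k = h i₀
    · have h4 := congrFun h0 k
      rw [Finset.sum_apply, Pi.zero_apply] at h4
      rw [← h4, Finset.sum_filter]
      refine Finset.sum_congr rfl fun j hj => ?_
      split_ifs with hjh
      · rw [Pi.smul_apply, Pi.smul_apply, ini_eq (hk.trans hjh.symm)]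
      · by_cases hcj : c j = 0
        · simp [hcj]
        · have h5 := hmax j (Finset.mem_filter.mpr ⟨hj, hcj⟩)
          have h6 : h j < w k := by rw [hk]; exact lt_of_le_of_ne h5 hjh
          rw [Pi.smul_apply, hx j (ht hj) k h6, smul_zero]
    · refine Finset.sum_eq_zero fun j hj => ?_
      have h5 := (Finset.mem_filter.mp hj).2
      rw [Pi.smul_apply, ini_ne (fun h6 => hk (h6.trans h5)), smul_zero]

/-- Completion of a family with independent initial parts by coordinates. -/
theorem ini_extend [Fintype κ] [DecidableEq κ] {w : κ → ℝ} {h : ι → ℝ} {x : ι → κ → L}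
    {s : Set ι} (hs : LinearIndepOn L (fun i => ini w (h i) (x i)) s) (e : κ → ι)
    (he : ∀ k, x (e k) = Pi.single k 1) (he' : ∀ k, h (e k) = w k) :
    ∃ b : Finset ι, s ⊆ b ∧ (b : Set ι) ⊆ s ∪ Set.range e ∧ b.card = Fintype.card κ ∧
      LinearIndepOn L (fun i => ini w (h i) (x i)) (b : Set ι) := by
  classical
  obtain ⟨b, hbt, hsb, hsp, hli⟩ :=
    exists_linearIndepOn_extension hs (t := s ∪ Set.range e) Set.subset_union_left
  have hfin : Finite b := LinearIndependent.finite hli
  have hE : ∀ k, ini w (h (e k)) (x (e k)) = Pi.single k 1 := by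
    intro k
    funext k'
    rw [he, he']
    by_cases hk : w k' = w k
    · rw [ini_eq hk]
    · rw [ini_ne hk, Pi.single_eq_of_ne (fun h' => hk (by rw [h']))]
  have htop : Submodule.span L (Set.range fun i : b => ini w (h i) (x i)) = ⊤ := by
    rw [eq_top_iff, ← (Pi.basisFun L κ).span_eq, Submodule.span_le]
    rintro _ ⟨k, rfl⟩
    have h1 := hsp ⟨e k, Or.inr ⟨k, rfl⟩, rfl⟩
    simp only [hE] at h1
    rw [Pi.basisFun_apply]
    rw [Set.image_eq_range] at h1
    exact h1
  have hcard : Nat.card b = Fintype.card κ := by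
    rw [← Module.finrank_eq_nat_card_basis (Module.Basis.mk hli htop.ge),
      Module.finrank_fintype_fun_eq_card]
  have hbf : b.Finite := hfin
  refine ⟨hbf.toFinset, by simpa using hsb, by simpa using hbt, ?_, by simpa using hli⟩
  rw [← hcard, ← Nat.card_eq_card_finite_toFinset hbf]

/-- The sum of the weights of a basis of initial parts. -/
theorem ini_sum [Fintype κ] {w : κ → ℝ} {h : ι → ℝ} {x : ι → κ → L} {b : Finset ι}
    (hb : LinearIndepOn L (fun i => ini w (h i) (x i)) (b : Set ι))
    (hc : b.card = Fintype.card κ) : ∑ i ∈ b, h i = ∑ k, w k := by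
  classical
  have hle : ∀ d : ℝ, (b.filter fun i => h i = d).card ≤
      (Finset.univ.filter fun k => w k = d).card := by
    intro d
    have h1 : LinearIndepOn L (fun i => ini w (h i) (x i))
        ((b.filter fun i => h i = d : Finset ι) : Set ι) :=
      hb.mono (Finset.coe_subset.mpr (Finset.filter_subset _ _))
    set f : (κ → L) →ₗ[L] ({k // w k = d} → L) := LinearMap.funLeft L L Subtype.val with hf
    have h2 : LinearIndepOn L (fun i => f (ini w (h i) (x i)))
        ((b.filter fun i => h i = d : Finset ι) : Set ι) := by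
      rw [linearIndepOn_iff'] at h1 ⊢
      intro t c ht h0 i hi
      refine h1 t c ht ?_ i hi
      funext k
      rw [Finset.sum_apply, Pi.zero_apply]
      by_cases hk : w k = d
      · have h3 := congrFun h0 ⟨k, hk⟩
        rw [Finset.sum_apply, Pi.zero_apply] at h3
        rw [← h3]
        rfl
      · refine Finset.sum_eq_zero fun j hj => ?_
        have h4 := (Finset.mem_filter.mp (ht hj)).2
        rw [Pi.smul_apply, ini_ne (fun h5 => hk (h5.trans h4)), smul_zero]
    have h3 := LinearIndependent.fintype_card_le_finrank h2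
    have h4 : Fintype.card {k // w k = d} = (Finset.univ.filter fun k => w k = d).card :=
      Fintype.card_subtype _
    rw [Module.finrank_fintype_fun_eq_card, h4, ← Nat.card_eq_fintype_card, Nat.card_coe_set_eq,
      Set.ncard_coe_finset] at h3
    exact h3
  have hmem : ∀ i ∈ b, h i ∈ Finset.univ.image w := by
    intro i hi
    have h1 : ini w (h i) (x i) ≠ 0 := hb.ne_zero hi
    obtain ⟨k, hk⟩ := Function.ne_iff.mp h1
    refine Finset.mem_image.mpr ⟨k, Finset.mem_univ k, ?_⟩
    by_contra h2
    exact hk (ini_ne h2)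
  have hsum : ∑ d ∈ Finset.univ.image w, (b.filter fun i => h i = d).card =
      ∑ d ∈ Finset.univ.image w, (Finset.univ.filter fun k => w k = d).card := by
    rw [← Finset.card_eq_sum_card_fiberwise hmem,
      ← Finset.card_eq_sum_card_fiberwise fun k _ => Finset.mem_image_of_mem w (Finset.mem_univ k),
      hc, Finset.card_univ]
  have heq := (Finset.sum_eq_sum_iff_of_le fun d _ => hle d).mp hsum
  rw [← Finset.sum_fiberwise_of_maps_to hmem, ← Finset.sum_fiberwise_of_maps_to
    (s := Finset.univ) (t := Finset.univ.image w) (g := w)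
    fun k _ => Finset.mem_image_of_mem w (Finset.mem_univ k)]
  refine Finset.sum_congr rfl fun d hd => ?_
  rw [Finset.sum_congr rfl fun i hi => (Finset.mem_filter.mp hi).2,
    Finset.sum_congr rfl fun i hi => (Finset.mem_filter.mp hi).2, Finset.sum_const,
    Finset.sum_const, heq d hd]

end

end Pool.Agent.Lib.MP_17a322_nt.SG
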