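import Pool.Agent.Lib.MP_17a322_nt.SG.Defs
import Pool.Agent.Lib.MP_17a322_nt.SG.L1

/-!
Initial parts of vectors of polynomials, and the vectors of the coefficients of their multiples by
monomials.
-/

namespace Pool.Agent.Lib.MP_17a322_nt.SG

open MvPolynomial

section

variable {q : ℕ}

theorem wt_add (τ : Fin q → ℝ) (m m' : Fin q →₀ ℕ) : wt τ (m + m') = wt τ m + wt τ m' := by
  simp [wt, add_mul, Finset.sum_add_distrib]

theorem wt_zero (τ : Fin q → ℝ) : wt τ 0 = 0 := by simp [wt]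

theorem coeff_partWt_eq {R : Type*} [CommRing R] {τ : Fin q → ℝ} {h : ℝ}
    {f : MvPolynomial (Fin q) R} {m : Fin q →₀ ℕ} (hm : wt τ m = h) :
    coeff m (partWt τ h f) = coeff m f := by
  classical
  rw [partWt, coeff_sum]
  simp only [coeff_monomial]
  rw [Finset.sum_ite_eq']
  by_cases h0 : m ∈ f.support
  · simp [Finset.mem_filter, h0, hm]
  · rw [if_neg (fun h1 => h0 (Finset.mem_filter.mp h1).1)]
    exact (notMem_support_iff.mp h0).symm

theorem coeff_partWt_ne {R : Type*} [CommRing R] {τ : Fin q → ℝ} {h : ℝ}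
    {f : MvPolynomial (Fin q) R} {m : Fin q →₀ ℕ} (hm : wt τ m ≠ h) :
    coeff m (partWt τ h f) = 0 := by
  classical
  rw [partWt, coeff_sum]
  refine Finset.sum_eq_zero fun m' hm' => ?_
  rw [coeff_monomial, if_neg]
  rintro rfl
  exact hm (Finset.mem_filter.mp hm').2

end

section

variable {L : Type*} [Field L] {q n : ℕ} {β I : Type*}

/-- The vector of the coefficients at the exponents `ex b` of the product of `y` with the monomial of
exponent `m`. -/
noncomputable def vec (ex : β → Fin q →₀ ℕ) (m : Fin q →₀ ℕ)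
    (y : Fin n → MvPolynomial (Fin q) L) : β × Fin n → L :=
  fun k => coeff (ex k.1) (monomial m 1 * y k.2)

theorem ini_vec (ex : β → Fin q →₀ ℕ) (τ : Fin q → ℝ) (h : ℝ) (m : Fin q →₀ ℕ)
    (y : Fin n → MvPolynomial (Fin q) L) :
    ini (fun k : β × Fin n => wt τ (ex k.1)) (wt τ m + h) (vec ex m y) =
      vec ex m fun l => partWt τ h (y l) := by
  classical
  funext k
  have key : m ≤ ex k.1 → wt τ (ex k.1) = wt τ m + wt τ (ex k.1 - m) := by
    intro hm
    rw [← wt_add, add_tsub_cancel_of_le hm]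
  simp only [vec, coeff_monomial_mul', one_mul]
  by_cases h1 : wt τ (ex k.1) = wt τ m + h
  · rw [ini_eq (w := fun k : β × Fin n => wt τ (ex k.1)) h1, vec, coeff_monomial_mul', one_mul]
    split_ifs with hm
    · have h2 := key hm
      rw [coeff_partWt_eq (by linarith)]
    · rfl
  · rw [ini_ne (w := fun k : β × Fin n => wt τ (ex k.1)) h1]
    split_ifs with hm
    · have h2 := key hm
      rw [coeff_partWt_ne (fun h3 => h1 (by rw [h2, h3]))]
    · rfl

theorem vec_lt {ex : β → Fin q →₀ ℕ} {τ : Fin q → ℝ} {h : ℝ} {m : Fin q →₀ ℕ}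
    {y : Fin n → MvPolynomial (Fin q) L}
    (hy : ∀ l m', coeff m' (y l) ≠ 0 → wt τ m' ≤ h) (k : β × Fin n)
    (hk : wt τ m + h < wt τ (ex k.1)) : vec ex m y k = 0 := by
  classical
  simp only [vec, coeff_monomial_mul', one_mul]
  split_ifs with hm
  · by_contra h0
    have h1 := hy _ _ h0
    have h2 : wt τ (ex k.1) = wt τ m + wt τ (ex k.1 - m) := by
      rw [← wt_add, add_tsub_cancel_of_le hm]
    linarith
  · rfl

/-- The multiples by monomials of vectors independent over the ring of polynomials are independent. -/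
theorem vec_li {ex : β → Fin q →₀ ℕ} {z : I → Fin n → MvPolynomial (Fin q) L} {T : Set I}
    (hz : LinearIndepOn (MvPolynomial (Fin q) L) z T) {S : Set (I × (Fin q →₀ ℕ))}
    (hT : ∀ p ∈ S, p.1 ∈ T)
    (hS : ∀ p ∈ S, ∀ l m, coeff m (z p.1 l) ≠ 0 → p.2 + m ∈ Set.range ex) :
    LinearIndepOn L (fun p : I × (Fin q →₀ ℕ) => vec ex p.2 (z p.1)) S := by
  classical
  rw [linearIndepOn_iff'] at hz ⊢
  intro t c ht h0 i hi
  have hc : ∀ (p : I × (Fin q →₀ ℕ)) (m₀ : Fin q →₀ ℕ) (l : Fin n),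
      coeff m₀ ((monomial p.2 (c p) • z p.1) l) = c p * coeff m₀ (monomial p.2 1 * z p.1 l) := by
    intro p m₀ l
    have h1 : monomial p.2 (c p) = C (c p) * monomial p.2 (1 : L) := by
      rw [C_mul_monomial, mul_one]
    rw [Pi.smul_apply, smul_eq_mul, h1, mul_assoc, coeff_C_mul]
  have hy : ∑ p ∈ t, (monomial p.2 (c p)) • z p.1 = 0 := by
    funext l
    ext m₀
    rw [Finset.sum_apply, coeff_sum, Pi.zero_apply, coeff_zero]
    by_cases hm : m₀ ∈ Set.range ex
    · obtain ⟨b, rfl⟩ := hm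
      have h1 := congrFun h0 (b, l)
      rw [Finset.sum_apply, Pi.zero_apply] at h1
      rw [← h1]
      exact Finset.sum_congr rfl fun p _ => hc p _ l
    · refine Finset.sum_eq_zero fun p hp => ?_
      rw [hc, coeff_monomial_mul', one_mul]
      split_ifs with hle
      · by_contra h1
        have h2 := hS p (ht hp) l _ (right_ne_zero_of_mul h1)
        rw [add_tsub_cancel_of_le hle] at h2
        exact hm h2
      · exact mul_zero _
  have h1 : ∑ j ∈ t.image Prod.fst,
      (∑ p ∈ t.filter fun p => p.1 = j, monomial p.2 (c p)) • z j = 0 := by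
    rw [← hy, ← Finset.sum_fiberwise_of_maps_to (s := t) (t := t.image Prod.fst) (g := Prod.fst)
      fun p hp => Finset.mem_image_of_mem _ hp]
    refine Finset.sum_congr rfl fun j _ => ?_
    rw [Finset.sum_smul]
    exact Finset.sum_congr rfl fun p hp => by rw [(Finset.mem_filter.mp hp).2]
  have h2 := hz (t.image Prod.fst) _ ?_ h1 i.1 (Finset.mem_image_of_mem _ hi)
  · have h3 := congrArg (coeff i.2) h2
    rw [coeff_sum, coeff_zero, Finset.sum_eq_single i, coeff_monomial, if_pos rfl] at h3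
    · exact h3
    · intro p hp hpi
      rw [coeff_monomial, if_neg]
      intro h4
      exact hpi (Prod.ext (Finset.mem_filter.mp hp).2 h4)
    · intro h4
      exact (h4 (Finset.mem_filter.mpr ⟨hi, rfl⟩)).elim
  · intro j hj
    obtain ⟨p, hp, rfl⟩ := Finset.mem_image.mp hj
    exact hT p (ht hp)

/-- A basis of the space of the coefficients which contains given multiples and whose other elements are
coordinates, with the sum of the weights. -/
theorem exists_box_basis [Fintype β] [DecidableEq β] {ex : β → Fin q →₀ ℕ}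
    {z : I → Fin n → MvPolynomial (Fin q) L} {τ : Fin q → ℝ} {h : I → ℝ} {T : Set I}
    (hz : LinearIndepOn (MvPolynomial (Fin q) L) (fun i l => partWt τ (h i) (z i l)) T)
    {S : Finset (I × (Fin q →₀ ℕ))} (hT : ∀ p ∈ S, p.1 ∈ T)
    (hh : ∀ i ∈ T, ∀ l m, coeff m (z i l) ≠ 0 → wt τ m ≤ h i)
    (hS : ∀ p ∈ S, ∀ l m, coeff m (z p.1 l) ≠ 0 → p.2 + m ∈ Set.range ex) :
    ∃ D : Finset (β × Fin n), S.card + D.card = Fintype.card β * n ∧
      LinearIndepOn L (Sum.elim (fun p : I × (Fin q →₀ ℕ) => vec ex p.2 (z p.1))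
        fun k : β × Fin n => (Pi.single k 1 : β × Fin n → L)) (S.disjSum D : Set _) ∧
      ∑ p ∈ S, (wt τ p.2 + h p.1) + ∑ k ∈ D, wt τ (ex k.1) = n * ∑ b, wt τ (ex b) := by
  classical
  set w : β × Fin n → ℝ := fun k => wt τ (ex k.1) with hw
  set x : (I × (Fin q →₀ ℕ)) ⊕ (β × Fin n) → β × Fin n → L :=
    Sum.elim (fun p : I × (Fin q →₀ ℕ) => vec ex p.2 (z p.1))
        fun k : β × Fin n => (Pi.single k 1 : β × Fin n → L) with hx
  set H : (I × (Fin q →₀ ℕ)) ⊕ (β × Fin n) → ℝ :=
    Sum.elim (fun p => wt τ p.2 + h p.1) w with hH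
  have h1 : LinearIndepOn L (fun p : I × (Fin q →₀ ℕ) => ini w (H (Sum.inl p)) (x (Sum.inl p)))
      (S : Set (I × (Fin q →₀ ℕ))) := by
    have h2 := vec_li (ex := ex) hz (S := (S : Set (I × (Fin q →₀ ℕ)))) (fun p hp => hT p hp)
      (fun p hp l m hm => hS p hp l m (fun h0 => hm (by
        by_cases hwt : wt τ m = h p.1
        · rw [coeff_partWt_eq hwt, h0]
        · rw [coeff_partWt_ne hwt])))
    refine h2.congr fun p _ => ?_
    exact (ini_vec ex τ (h p.1) p.2 (z p.1)).symm
  have h2 : LinearIndepOn L (fun i => ini w (H i) (x i)) (Sum.inl '' (S : Set (I × (Fin q →₀ ℕ)))) :=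
    h1.image_of_comp Sum.inl
  obtain ⟨b, hsb, hbs, hcard, hli⟩ := ini_extend h2 Sum.inr (fun k => rfl) (fun k => rfl)
  have hb : b = S.disjSum (Finset.univ.filter fun k => Sum.inr k ∈ b) := by
    ext i
    rw [Finset.mem_disjSum]
    constructor
    · intro hi
      rcases hbs hi with ⟨p, hp, rfl⟩ | ⟨k, rfl⟩
      · exact Or.inl ⟨p, hp, rfl⟩
      · exact Or.inr ⟨k, Finset.mem_filter.mpr ⟨Finset.mem_univ k, hi⟩, rfl⟩
    · rintro (⟨p, hp, rfl⟩ | ⟨k, hk, rfl⟩)
      · exact hsb ⟨p, hp, rfl⟩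
      · exact (Finset.mem_filter.mp hk).2
  refine ⟨Finset.univ.filter fun k => Sum.inr k ∈ b, ?_, ?_, ?_⟩
  · rw [← Finset.card_disjSum, ← hb, hcard, Fintype.card_prod, Fintype.card_fin]
  · rw [← hb]
    refine ini_li (w := w) (h := H) (fun i hi k hk => ?_) hli
    rcases hbs hi with ⟨p, hp, rfl⟩ | ⟨k', rfl⟩
    · exact vec_lt (fun l m hm => hh p.1 (hT p hp) l m hm) k hk
    · have hne : k ≠ k' := by
        rintro rfl
        exact lt_irrefl _ hk
      exact Pi.single_eq_of_ne hne 1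
  · have h3 := ini_sum hli hcard
    rw [hb, Finset.sum_disjSum] at h3
    rw [hH] at h3
    simp only [Sum.elim_inl, Sum.elim_inr] at h3
    refine h3.trans ?_
    rw [Fintype.sum_prod_type]
    simp [hw, Finset.mul_sum]

end

end Pool.Agent.Lib.MP_17a322_nt.SG
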