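import Pool.Agent.Lib.MP_17a322_nt.SG.Defs2
import Pool.Agent.Lib.MP_17a322_nt.SG.L2

/-!
A basis which contains the shifted forms, its other elements being coordinates.
-/

universe u

namespace Pool.Agent.Lib.MP_17a322_nt.SG

open MvPolynomial

theorem L3_toF_inj {q M : ℕ} : Function.Injective (toF : Bx q M → Fin q →₀ ℕ) := by
  intro m m' h
  funext i
  have h1 := DFunLike.congr_fun h i
  exact Fin.ext h1

theorem L3_toF_apply {q M : ℕ} (m : Bx q M) (i : Fin q) : toF m i = (m i : ℕ) := rfl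

theorem L3_mem_range {q M : ℕ} {m : Fin q →₀ ℕ} (hm : ∀ i, m i ≤ M) :
    m ∈ Set.range (toF : Bx q M → Fin q →₀ ℕ) := by
  refine ⟨fun i => ⟨m i, Nat.lt_succ_iff.mpr (hm i)⟩, ?_⟩
  ext i
  rfl

theorem L3_partWt_C {R : Type*} [CommRing R] {q : ℕ} (τ : Fin q → ℝ) (c : R) :
    partWt τ 0 (C c : MvPolynomial (Fin q) R) = C c := by
  classical
  ext m
  by_cases hm : wt τ m = 0
  · rw [coeff_partWt_eq hm]
  · rw [coeff_partWt_ne hm, coeff_C, if_neg]
    rintro rfl
    exact hm (wt_zero τ)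

theorem L_main {L : Type*} [Field L] {q n g s M d : ℕ} (hd : d ≤ M) (τ : Fin q → ℝ)
    (G : Matrix (Fin g) (Fin n) L) (a : Fin s → Fin n → MvPolynomial (Fin q) L)
    (ha : ∀ j l, ∀ m ∈ (a j l).support, ∀ i, m i ≤ d) (h : Fin s → ℝ)
    (hh : ∀ j l, ∀ m ∈ (a j l).support, wt τ m ≤ h j) (T : Finset (Fin s))
    (hT : LinearIndependent (MvPolynomial (Fin q) L)
      (Sum.elim (fun (i : Fin g) (l : Fin n) => (C (G i l) : MvPolynomial (Fin q) L))
        fun (j : T) (l : Fin n) => partWt τ (h j) (a j l))) :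
    ∃ W : Finset (Bx q M × Fin n),
      LinearIndependent L
        (Sum.elim (fun (p : Bx q M × Fin g) (x : Bx q M × Fin n) =>
            if p.1 = x.1 then G p.2 x.2 else 0)
          (Sum.elim (fun (p : T × Bx q (M - d)) (x : Bx q M × Fin n) => shf (a p.1) p.2 x)
            fun (p : W) (x : Bx q M × Fin n) => if x = p then (1 : L) else 0)) ∧
      W.card + T.card * (M - d + 1) ^ q + g * (M + 1) ^ q = n * (M + 1) ^ q ∧
      ∑ j ∈ T, ∑ m : Bx q (M - d), (wt τ (toF m) + h j) + ∑ p ∈ W, wt τ (toF p.1) =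
        (n - g) * ∑ m : Bx q M, wt τ (toF m) := by
  classical
  set z : Fin g ⊕ Fin s → Fin n → MvPolynomial (Fin q) L :=
    Sum.elim (fun i l => C (G i l)) a with hz
  set h' : Fin g ⊕ Fin s → ℝ := Sum.elim (fun _ => 0) h with hh'
  set φ : Fin g ⊕ T → Fin g ⊕ Fin s := Sum.map id Subtype.val with hφ
  have hφi : Function.Injective φ := Sum.map_injective.mpr ⟨Function.injective_id,
    Subtype.val_injective⟩
  have h1 : LinearIndepOn (MvPolynomial (Fin q) L) (fun i l => partWt τ (h' i) (z i l))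
      (Set.range φ) := by
    rw [linearIndepOn_range_iff hφi]
    have h2 : (fun i l => partWt τ (h' i) (z i l)) ∘ φ =
        Sum.elim (fun (i : Fin g) (l : Fin n) => (C (G i l) : MvPolynomial (Fin q) L))
        fun (j : T) (l : Fin n) => partWt τ (h j) (a j l) := by
      funext i l
      rcases i with i | j
      · exact L3_partWt_C τ (G i l)
      · rfl
    rw [h2]
    exact hT
  set ψ : (Bx q M × Fin g) ⊕ (T × Bx q (M - d)) → (Fin g ⊕ Fin s) × (Fin q →₀ ℕ) :=
    Sum.elim (fun p => (Sum.inl p.2, toF p.1)) (fun p => (Sum.inr p.1.1, toF p.2)) with hψ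
  have hψi : Function.Injective ψ := by
    rintro (⟨b, i⟩ | ⟨j, b⟩) (⟨b', i'⟩ | ⟨j', b'⟩) h0
    · have h2 := Prod.ext_iff.mp h0
      have h3 : i = i' := Sum.inl_injective h2.1
      have h4 : b = b' := L3_toF_inj h2.2
      rw [h3, h4]
    · exact absurd (Prod.ext_iff.mp h0).1 (by simp [hψ])
    · exact absurd (Prod.ext_iff.mp h0).1 (by simp [hψ])
    · have h2 := Prod.ext_iff.mp h0
      have h3 : j = j' := Subtype.ext (Sum.inr_injective h2.1)
      have h4 : b = b' := L3_toF_inj h2.2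
      rw [h3, h4]
  have hzs : ∀ p : (Bx q M × Fin g) ⊕ (T × Bx q (M - d)), ∀ l m, coeff m (z (ψ p).1 l) ≠ 0 →
      (ψ p).2 + m ∈ Set.range (toF : Bx q M → Fin q →₀ ℕ) := by
    rintro (⟨b, i⟩ | ⟨j, b⟩) l m hm
    · have h2 : m = 0 := by
        by_contra h3
        apply hm
        show coeff m (C (G i l)) = 0
        rw [coeff_C, if_neg (fun h4 => h3 h4.symm)]
      refine ⟨b, ?_⟩
      rw [h2, add_zero]
      rfl
    · refine L3_mem_range fun k => ?_
      have h2 : m k ≤ d := ha j l m (mem_support_iff.mpr hm) k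
      have h3 : (b k : ℕ) ≤ M - d := Nat.lt_succ_iff.mp (b k).2
      show (b k : ℕ) + m k ≤ M
      omega
  have hhz : ∀ i ∈ Set.range φ, ∀ l m, coeff m (z i l) ≠ 0 → wt τ m ≤ h' i := by
    rintro _ ⟨i | j, rfl⟩ l m hm
    · have h2 : m = 0 := by
        by_contra h3
        apply hm
        show coeff m (C (G i l)) = 0
        rw [coeff_C, if_neg (fun h4 => h3 h4.symm)]
      rw [h2, wt_zero]
      exact le_refl _
    · exact hh j l m (mem_support_iff.mpr hm)
  obtain ⟨W, hc, hli, hs⟩ := exists_box_basis (β := Bx q M) (ex := toF) (z := z) (τ := τ) (h := h')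
    (T := Set.range φ) h1 (S := Finset.univ.map ⟨ψ, hψi⟩) (fun p hp => by
      obtain ⟨y, -, rfl⟩ := Finset.mem_map.mp hp
      rcases y with ⟨b, i⟩ | ⟨j, b⟩
      · exact ⟨Sum.inl i, rfl⟩
      · exact ⟨Sum.inr j, rfl⟩) hhz (fun p hp => by
      obtain ⟨y, -, rfl⟩ := Finset.mem_map.mp hp
      exact hzs y)
  refine ⟨W, ?_, ?_, ?_⟩
  · set χ : (Bx q M × Fin g) ⊕ ((T × Bx q (M - d)) ⊕ W) →
        (((Finset.univ.map ⟨ψ, hψi⟩).disjSum W : Finset _) : Set _) :=
      Sum.elim (fun p => ⟨Sum.inl (ψ (Sum.inl p)), by simp⟩)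
        (Sum.elim (fun p => ⟨Sum.inl (ψ (Sum.inr p)), by simp⟩)
          fun k => ⟨Sum.inr k.1, by simp⟩) with hχ
    have hχi : Function.Injective χ := by
      rintro (p | p | k) (p' | p' | k') h0
      · have h2 := hψi (Sum.inl_injective (Subtype.ext_iff.mp h0))
        rw [Sum.inl_injective h2]
      · have h2 := hψi (Sum.inl_injective (Subtype.ext_iff.mp h0))
        exact absurd h2 (by simp)
      · exact absurd (Subtype.ext_iff.mp h0) (by simp [hχ])
      · have h2 := hψi (Sum.inl_injective (Subtype.ext_iff.mp h0))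
        exact absurd h2 (by simp)
      · have h2 := hψi (Sum.inl_injective (Subtype.ext_iff.mp h0))
        rw [Sum.inr_injective h2]
      · exact absurd (Subtype.ext_iff.mp h0) (by simp [hχ])
      · exact absurd (Subtype.ext_iff.mp h0) (by simp [hχ])
      · exact absurd (Subtype.ext_iff.mp h0) (by simp [hχ])
      · have h2 : k.1 = k'.1 := Sum.inr_injective (Subtype.ext_iff.mp h0)
        rw [Subtype.ext h2]
    have h2 := LinearIndependent.comp hli χ hχi
    have h3 : (fun x : (((Finset.univ.map ⟨ψ, hψi⟩).disjSum W : Finset _) : Set _) =>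
        Sum.elim (fun p : (Fin g ⊕ Fin s) × (Fin q →₀ ℕ) => vec (toF (M := M)) p.2 (z p.1))
          (fun k : Bx q M × Fin n => (Pi.single k 1 : Bx q M × Fin n → L)) x.1) ∘ χ =
        (Sum.elim (fun (p : Bx q M × Fin g) (x : Bx q M × Fin n) =>
            if p.1 = x.1 then G p.2 x.2 else 0)
          (Sum.elim (fun (p : T × Bx q (M - d)) (x : Bx q M × Fin n) => shf (a p.1) p.2 x)
            fun (p : W) (x : Bx q M × Fin n) => if x = p then (1 : L) else 0)) := by
      funext y x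
      rcases y with p | p | k
      · show coeff (toF x.1) (monomial (toF p.1) 1 * C (G p.2 x.2)) = _
        rw [mul_comm, C_mul_monomial, mul_one, coeff_monomial]
        show _ = if p.1 = x.1 then G p.2 x.2 else 0
        by_cases h4 : p.1 = x.1
        · rw [if_pos h4, if_pos (by rw [h4])]
        · rw [if_neg h4, if_neg (fun h5 => h4 (L3_toF_inj h5))]
      · rfl
      · show (Pi.single k.1 1 : Bx q M × Fin n → L) x = if x = k.1 then 1 else 0
        rw [Pi.single_apply]
    rw [← h3]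
    exact h2
  · rw [Finset.card_map, Finset.card_univ, Fintype.card_sum, Fintype.card_prod, Fintype.card_prod,
      Fintype.card_coe, Fintype.card_fin] at hc
    simp only [Fintype.card_pi, Fintype.card_fin, Finset.prod_const, Finset.card_univ] at hc
    rw [mul_comm n, ← hc]
    ring
  · rw [Finset.sum_map, Fintype.sum_sum_type] at hs
    have h2 : ∑ p : Bx q M × Fin g, (wt τ (ψ (Sum.inl p)).2 + h' (ψ (Sum.inl p)).1) =
        g * ∑ m : Bx q M, wt τ (toF m) := by
      rw [Fintype.sum_prod_type, Finset.mul_sum]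
      refine Finset.sum_congr rfl fun b _ => ?_
      have h3 : ∀ i : Fin g, wt τ (ψ (Sum.inl (b, i))).2 + h' (ψ (Sum.inl (b, i))).1 =
          wt τ (toF b) := fun i => add_zero _
      rw [Finset.sum_congr rfl fun i _ => h3 i, Finset.sum_const, Finset.card_univ,
        Fintype.card_fin, nsmul_eq_mul]
    have h3 : ∑ p : T × Bx q (M - d), (wt τ (ψ (Sum.inr p)).2 + h' (ψ (Sum.inr p)).1) =
        ∑ j ∈ T, ∑ m : Bx q (M - d), (wt τ (toF m) + h j) := by
      rw [Fintype.sum_prod_type, ← Finset.sum_coe_sort T]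
      rfl
    have h4 : ∑ p : Bx q M × Fin g, (wt τ ((⟨ψ, hψi⟩ : _ ↪ _) (Sum.inl p)).2 +
        h' ((⟨ψ, hψi⟩ : _ ↪ _) (Sum.inl p)).1) +
        ∑ p : T × Bx q (M - d), (wt τ ((⟨ψ, hψi⟩ : _ ↪ _) (Sum.inr p)).2 +
        h' ((⟨ψ, hψi⟩ : _ ↪ _) (Sum.inr p)).1) + ∑ k ∈ W, wt τ (toF k.1) =
        n * ∑ b : Bx q M, wt τ (toF b) := hs
    have h5 : g * ∑ m : Bx q M, wt τ (toF m) + ∑ j ∈ T, ∑ m : Bx q (M - d), (wt τ (toF m) + h j) +
        ∑ k ∈ W, wt τ (toF k.1) = n * ∑ b : Bx q M, wt τ (toF b) := by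
      rw [← h2, ← h3]
      exact h4
    linarith [sub_mul (n : ℝ) g (∑ m : Bx q M, wt τ (toF m))]

end Pool.Agent.Lib.MP_17a322_nt.SG
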