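import Pool.Agent.Lib.MP_17a322_nt.SL.FDefs
import Pool.Agent.Lib.MP_17a322_nt.RO.Defs
import Pool.Agent.Lib.MP_17a322_nt.SL.G1

/-!
Block diagonal matrices: spaces and heights.
-/

universe u

namespace Pool.Agent.Lib.MP_17a322_nt.SG

open MvPolynomial Height
open Pool.Agent.Lib.MP_17a322_nt.RO
open Pool.Agent.Lib.MP_17a322_nt.VJ
open Pool.Agent.Lib.MP_17a322_nt.VA
open Pool.Agent.Lib.MP_17a322_nt.SL

section

variable {K : Type*} [Field K] {g n : ℕ}

/-- Every minor is a minor with increasing columns or zero. -/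
theorem B_emb_abs (v : AbsoluteValue K ℝ) (G : Fin g → Fin n → K) (f : Fin g → Fin n) :
    v (Matrix.of fun a b => G a (f b)).det = 0 ∨ ∃ e : Fin g ↪o Fin n,
      v (Matrix.of fun a b => G a (f b)).det = v (Matrix.of fun a b => G a (e b)).det := by
  classical
  by_cases hf : Function.Injective f
  · right
    obtain ⟨S, hS⟩ : ∃ S : Finset (Fin n), S = Finset.univ.image f := ⟨_, rfl⟩
    have hc : S.card = g := by
      rw [hS, Finset.card_image_of_injective _ hf, Finset.card_univ, Fintype.card_fin]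
    have h1 : ∀ b, ∃ c, S.orderEmbOfFin hc c = f b := by
      intro b
      have h2 : f b ∈ Set.range (S.orderEmbOfFin hc) := by
        rw [Finset.range_orderEmbOfFin, hS]
        simp
      exact h2
    choose σ hσ using h1
    have hσi : Function.Injective σ := fun a b h => hf (by rw [← hσ a, ← hσ b, h])
    obtain ⟨τ, hτ⟩ : ∃ τ : Equiv.Perm (Fin g), ∀ b, τ b = σ b :=
      ⟨Equiv.ofBijective σ (Finite.injective_iff_bijective.1 hσi), fun _ => rfl⟩
    refine ⟨S.orderEmbOfFin hc, ?_⟩
    have h2 : (Matrix.of fun a b => G a (f b)) =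
        (Matrix.of fun a b => G a (S.orderEmbOfFin hc b)).submatrix id τ := by
      ext a b
      rw [Matrix.submatrix_apply, Matrix.of_apply, Matrix.of_apply, hτ, hσ]
      rfl
    rw [h2, Matrix.det_permute', map_mul]
    have h3 : v (((Equiv.Perm.sign τ : ℤˣ) : ℤ) : K) = 1 := by
      rcases Int.units_eq_one_or (Equiv.Perm.sign τ) with h | h
      · rw [h]
        simp
      · rw [h]
        simp
    rw [h3, one_mul]
  · left
    unfold Function.Injective at hf
    push Not at hf
    obtain ⟨a, b, hab, hne⟩ := hf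
    rw [Matrix.det_zero_of_column_eq hne fun k => by rw [Matrix.of_apply, Matrix.of_apply, hab],
      map_zero]

theorem B_sup (v : AbsoluteValue K ℝ) (G : Fin g → Fin n → K) :
    (⨆ f : Fin g → Fin n, v (Matrix.of fun a b => G a (f b)).det) =
      ⨆ e : Fin g ↪o Fin n, v (Matrix.of fun a b => G a (e b)).det := by
  apply le_antisymm
  · refine Real.iSup_le (fun f => ?_) (Real.iSup_nonneg fun e => v.nonneg _)
    rcases B_emb_abs v G f with h | ⟨e, he⟩
    · rw [h]
      exact Real.iSup_nonneg fun e => v.nonneg _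
    · rw [he]
      exact le_ciSup (Set.finite_range fun e : Fin g ↪o Fin n =>
        v (Matrix.of fun a b => G a (e b)).det).bddAbove e
  · refine Real.iSup_le (fun e => ?_) (Real.iSup_nonneg fun f => v.nonneg _)
    exact le_ciSup (Set.finite_range fun f : Fin g → Fin n =>
      v (Matrix.of fun a b => G a (f b)).det).bddAbove (e : Fin g → Fin n)

end

/-- The height of the minors: all functions instead of increasing functions. -/
theorem B_ht {K : Type*} [Field K] [NumberField K] {g n : ℕ} (G : Fin g → Fin n → K) :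
    logHeight (fun e : Fin g ↪o Fin n => (Matrix.of fun a b => G a (e b)).det) =
      logHeight (fun f : Fin g → Fin n => (Matrix.of fun a b => G a (f b)).det) := by
  classical
  obtain ⟨v₀⟩ := (inferInstance : Nonempty (NumberField.InfinitePlace K))
  by_cases h0 : (fun e : Fin g ↪o Fin n => (Matrix.of fun a b => G a (e b)).det) = 0
  · have h1 : (fun f : Fin g → Fin n => (Matrix.of fun a b => G a (f b)).det) = 0 := by
      funext f
      rcases B_emb_abs v₀.val G f with h | ⟨e, he⟩
      · exact (map_eq_zero v₀.val).1 h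
      · rw [congrFun h0 e, Pi.zero_apply, map_zero] at he
        exact (map_eq_zero v₀.val).1 he
    rw [h0, h1, logHeight_zero, logHeight_zero]
  · have h1 : (fun f : Fin g → Fin n => (Matrix.of fun a b => G a (f b)).det) ≠ 0 := by
      obtain ⟨e, he⟩ := Function.ne_iff.1 h0
      exact fun h => he (congrFun h (e : Fin g → Fin n))
    rw [← gs_log_iSup h0, ← gs_log_iSup h1]
    congr 1
    funext v
    rw [B_sup]

/-- Block diagonal matrices. -/
def bkd {R β : Type*} [Zero R] [DecidableEq β] {g n g' n' : ℕ}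
    (e₁ : Fin g' ≃ Fin g × β) (e₂ : Fin n' ≃ Fin n × β) (G : Matrix (Fin g) (Fin n) R) :
    Matrix (Fin g') (Fin n') R :=
  (Matrix.blockDiagonal fun _ : β => G).submatrix e₁ e₂

theorem bkd_apply {R β : Type*} [Zero R] [DecidableEq β] {g n g' n' : ℕ}
    (e₁ : Fin g' ≃ Fin g × β) (e₂ : Fin n' ≃ Fin n × β) (G : Matrix (Fin g) (Fin n) R)
    (a : Fin g') (b : Fin n') :
    bkd e₁ e₂ G a b = if (e₁ a).2 = (e₂ b).2 then G (e₁ a).1 (e₂ b).1 else 0 := by
  unfold bkd
  rw [Matrix.submatrix_apply, Matrix.blockDiagonal_apply]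

/-- The height of the minors of a block diagonal matrix. -/
theorem B_bkd_ht {K : Type*} [Field K] [NumberField K] {β : Type*} [Fintype β] [DecidableEq β]
    {g n g' n' : ℕ} (e₁ : Fin g' ≃ Fin g × β) (e₂ : Fin n' ≃ Fin n × β)
    (G : Matrix (Fin g) (Fin n) K) :
    Fintype.card β * logHeight (fun e : Fin g ↪o Fin n => (Matrix.of fun a b => G a (e b)).det) ≤
      logHeight (fun e : Fin g' ↪o Fin n' =>
        (Matrix.of fun a b => bkd e₁ e₂ G a (e b)).det) := by
  classical
  rw [show logHeight (fun e : Fin g ↪o Fin n => (Matrix.of fun a b => G a (e b)).det) = _ from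
    B_ht G, show logHeight (fun e : Fin g' ↪o Fin n' =>
        (Matrix.of fun a b => bkd e₁ e₂ G a (e b)).det) = _ from B_ht (bkd e₁ e₂ G)]
  obtain ⟨x, hx⟩ : ∃ x : (Fin g → Fin n) → K,
    x = fun f : Fin g → Fin n => (Matrix.of fun a b => G a (f b)).det := ⟨_, rfl⟩
  rw [← hx]
  by_cases h0 : x = 0
  · rw [h0, logHeight_zero, mul_zero]
    exact logHeight_nonneg _
  have h1 : logHeight (fun J : β → (Fin g → Fin n) => ∏ k, x (J k)) =
      Fintype.card β * logHeight x := by
    have h2 := logHeight_fun_prod_eq (K := K) (x := fun _ : β => x) (fun _ => h0)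
    rw [h2, Finset.sum_const, Finset.card_univ, nsmul_eq_mul]
  rw [← h1]
  have h2 : (fun J : β → (Fin g → Fin n) => ∏ k, x (J k)) =
      (fun f : Fin g' → Fin n' => (Matrix.of fun a b => bkd e₁ e₂ G a (f b)).det) ∘
        fun (J : β → (Fin g → Fin n)) (a : Fin g') =>
          e₂.symm (J (e₁ a).2 (e₁ a).1, (e₁ a).2) := by
    funext J
    rw [Function.comp_apply]
    have h3 : (Matrix.of fun (a b : Fin g') => bkd e₁ e₂ G a
        (e₂.symm (J (e₁ b).2 (e₁ b).1, (e₁ b).2))) =
        (Matrix.blockDiagonal fun k : β => Matrix.of fun a b : Fin g => G a (J k b)).submatrix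
          e₁ e₁ := by
      ext a b
      rw [Matrix.of_apply, bkd_apply, Equiv.apply_symm_apply, Matrix.submatrix_apply,
        Matrix.blockDiagonal_apply]
      by_cases h : (e₁ a).2 = (e₁ b).2
      · rw [if_pos h, if_pos h, Matrix.of_apply, h]
      · rw [if_neg h, if_neg h]
    rw [h3, Matrix.det_submatrix_equiv_self, Matrix.det_blockDiagonal, hx]
  rw [h2]
  exact logHeight_comp_le _ _

section

variable {K : Type u} [Field K] {N : ℕ} (A : AV K N) {β : Type*} [Fintype β] [DecidableEq β]
  {g n g' n' : ℕ} (e₁ : Fin g' ≃ Fin g × β) (e₂ : Fin n' ≃ Fin n × β)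

omit [Fintype β] in
theorem B_bkd_map {L : Type u} [Field L] [Algebra K L] (P : A.Pts L)
    (G : Matrix (Fin g) (Fin n) (MvPolynomial (Fin (N + 1)) K)) (a : Fin g') (b : Fin n') :
    aeval (A.x P) (bkd e₁ e₂ G a b) = bkd e₁ e₂ (G.map (aeval (A.x P))) a b := by
  rw [bkd_apply, bkd_apply]
  split_ifs
  · rfl
  · rw [map_zero]

/-- The fibres of the bundle given by a block diagonal matrix. -/
theorem B_fib {L : Type u} [Field L] [Algebra K L] (P : A.Pts L)
    (G : Matrix (Fin g) (Fin n) (MvPolynomial (Fin (N + 1)) K)) (X : Fin n' → L) :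
    X ∈ Fib A (bkd e₁ e₂ G) P ↔ ∀ k : β, (fun l => X (e₂.symm (l, k))) ∈ Fib A G P := by
  classical
  have h1 : ∀ a : Fin g', ∑ b, aeval (A.x P) (bkd e₁ e₂ G a b) * X b =
      ∑ l, aeval (A.x P) (G (e₁ a).1 l) * X (e₂.symm (l, (e₁ a).2)) := by
    intro a
    rw [← Equiv.sum_comp e₂.symm, Fintype.sum_prod_type]
    refine Finset.sum_congr rfl fun l _ => ?_
    rw [Finset.sum_eq_single (e₁ a).2]
    · rw [bkd_apply, Equiv.apply_symm_apply, if_pos rfl]
    · intro k _ hk
      rw [bkd_apply, Equiv.apply_symm_apply, if_neg fun h => hk h.symm, map_zero, zero_mul]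
    · intro h
      exact absurd (Finset.mem_univ _) h
  constructor
  · intro h k i
    have h2 := h (e₁.symm (i, k))
    rw [h1, Equiv.apply_symm_apply] at h2
    exact h2
  · intro h a
    rw [h1]
    exact h (e₁ a).2 (e₁ a).1

/-- The height of the block bundle. -/
theorem B_hE [NumberField K] (P : A.Pts K)
    (G : Matrix (Fin g) (Fin n) (MvPolynomial (Fin (N + 1)) K)) :
    Fintype.card β * hE A G P ≤ hE A (bkd e₁ e₂ G) P := by
  have h1 := B_bkd_ht e₁ e₂ (G.map (aeval (A.x P)))
  unfold hE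
  simp only [B_bkd_map]
  exact h1

omit [Fintype β] in
theorem B_hom {D : ℕ} (G : Matrix (Fin g) (Fin n) (MvPolynomial (Fin (N + 1)) K))
    (hG : ∀ i l, (G i l).IsHomogeneous D) (a : Fin g') (b : Fin n') :
    (bkd e₁ e₂ G a b).IsHomogeneous D := by
  rw [bkd_apply]
  split_ifs
  · exact hG _ _
  · exact isHomogeneous_zero _ _ _

end

end Pool.Agent.Lib.MP_17a322_nt.SG
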