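import Pool.Agent.Lib.MP_17a322_nt.SL.F9

/-!
The subspace theorem with moving targets over abelian varieties for arbitrary finite sets of indices,
uniformly in the choice of the linear forms.
-/

universe u

namespace Pool.Agent.Lib.MP_17a322_nt.SG

open MvPolynomial Height
open Pool.Agent.Lib.MP_17a322_nt.VA
open Pool.Agent.Lib.MP_17a322_nt.SL

/-! ### Bundles with arbitrary finite sets of indices -/

section

variable {K : Type u} [Field K] {N : ℕ} (A : AV K N) {γ ι σ : Type} [Fintype ι]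

/-- See `SL.Fib`. -/
def FibT (G : Matrix γ ι (MvPolynomial (Fin (N + 1)) K)) {L : Type u} [Field L]
    [Algebra K L] (P : A.Pts L) : Set (ι → L) :=
  {X | ∀ i, ∑ l, aeval (A.x P) (G i l) * X l = 0}

/-- See `SL.Ind`. -/
def IndT (G : Matrix γ ι (MvPolynomial (Fin (N + 1)) K))
    (Λ : Matrix σ ι (MvPolynomial (Fin (N + 1)) K)) (T : Finset σ) : Prop :=
  ∀ (L : Type u) [Field L] [Algebra K L] (P : A.Pts L), Gen A P →
    LinearIndependent L (Sum.elim (fun (i : γ) (l : ι) => aeval (A.x P) (G i l))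
      fun (j : T) (l : ι) => aeval (A.x P) (Λ j l))

/-- See `SL.Exc`. -/
def ExcT (G : Matrix γ ι (MvPolynomial (Fin (N + 1)) K))
    (F : MvPolynomial (Fin (N + 1) ⊕ ι) K) : Prop :=
  (∃ a b : ℕ, ∀ m ∈ F.support, ∑ i, m (Sum.inl i) = a ∧ ∑ l, m (Sum.inr l) = b) ∧
  ∀ (L : Type u) [Field L] [IsAlgClosed L] [Algebra K L] (P : A.Pts L), Gen A P →
    ∃ (c : L) (m : ℕ) (y : Fin m → ι → L), c ≠ 0 ∧
      (∀ k, ∃ z ∈ FibT A G P, ∑ l, y k l * z l ≠ 0) ∧
      aeval (Sum.elim (fun i => (C (A.x P i) : MvPolynomial ι L)) X) F =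
        C c * ∏ k, ∑ l, C (y k l) * X l

/-- See `SL.lam`. -/
noncomputable def lamT {L : Type u} [Field L] [Algebra K L] (v : AbsoluteValue L ℝ) (D : ℕ)
    (Λ : ι → MvPolynomial (Fin (N + 1)) K) (P : A.Pts L) (X : ι → L) : ℝ :=
  Real.log (⨆ l, v (X l)) + D * Real.log (⨆ i, v (A.x P i)) -
    Real.log (v (∑ l, aeval (A.x P) (Λ l) * X l))

end

section

variable {K : Type u} [Field K] {N : ℕ} {A : AV K N} {g n s : ℕ}
  {G : Matrix (Fin g) (Fin n) (MvPolynomial (Fin (N + 1)) K)}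
  {Λ : Matrix (Fin s) (Fin n) (MvPolynomial (Fin (N + 1)) K)}

theorem S0_mono {T T' : Finset (Fin s)} (hT : T ⊆ T') (h : Ind A G Λ T') : Ind A G Λ T := by
  intro L _ _ P hP
  have h1 := (h L P hP).comp (Sum.map id fun j : T => (⟨j.1, hT j.2⟩ : T'))
    (Function.injective_id.sumMap fun a b hab => Subtype.ext (congrArg (fun t : T' => t.1) hab))
  have h2 : (Sum.elim (fun (i : Fin g) (l : Fin n) => aeval (A.x P) (G i l))
      fun (j : T') (l : Fin n) => aeval (A.x P) (Λ j l)) ∘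
        (Sum.map id fun j : T => (⟨j.1, hT j.2⟩ : T')) =
      Sum.elim (fun (i : Fin g) (l : Fin n) => aeval (A.x P) (G i l))
        fun (j : T) (l : Fin n) => aeval (A.x P) (Λ j l) := by
    funext x
    rcases x with i | j <;> rfl
  rwa [h2] at h1

end

/-- The subspace theorem, uniformly in the choice of the linear forms. -/
theorem S0_fin {K : Type u} [Field K] [NumberField K] {N : ℕ} (A : AV K N)
    (Γ : AddSubgroup (A.Pts K)) (hΓ : Γ.FG) {g n r s : ℕ} (hgr : g + r = n) (hr : 0 < r)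
    (D D' : ℕ) (G : Matrix (Fin g) (Fin n) (MvPolynomial (Fin (N + 1)) K))
    (hG : ∀ i l, (G i l).IsHomogeneous D')
    (Λ : Matrix (Fin s) (Fin n) (MvPolynomial (Fin (N + 1)) K))
    (hΛ : ∀ j l, (Λ j l).IsHomogeneous D) (S : Finset (NumberField.FinitePlace K))
    (ε : ℝ) (hε : 0 < ε) :
    ∃ (C : ℝ) (F : MvPolynomial (Fin (N + 1) ⊕ Fin n) K), Exc A G F ∧
      ∀ P ∈ Γ, ∀ X : Fin n → K, X ≠ 0 → X ∈ Fib A G P → aeval (Sum.elim (A.x P) X) F ≠ 0 →
        ∀ (Ji : NumberField.InfinitePlace K → Finset (Fin s))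
          (Jf : NumberField.FinitePlace K → Finset (Fin s)),
          (∀ v, Ind A G Λ (Ji v)) → (∀ v ∈ S, Ind A G Λ (Jf v)) →
          (∀ j, (∃ v, j ∈ Ji v) ∨ (∃ v ∈ S, j ∈ Jf v) →
            (∑ l, aeval (A.x P) (Λ j l) * X l) ≠ 0) ∧
          (∑ v : NumberField.InfinitePlace K, (v.mult : ℝ) *
              ∑ j ∈ Ji v, lam A v.val D (Λ j) P X) +
            (∑ v ∈ S, ∑ j ∈ Jf v, lam A v.val D (Λ j) P X) + hE A G P ≤
            r * logHeight X + ε * (logHeight X + logHeight (A.x P)) + C := by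
  classical
  obtain ⟨v₀⟩ := (inferInstance : Nonempty (NumberField.InfinitePlace K))
  obtain ⟨ex, hex⟩ : ∃ ex : (S → Finset (Fin s)) → NumberField.FinitePlace K → Finset (Fin s),
      ∀ c v (h : v ∈ S), ex c v = c ⟨v, h⟩ :=
    ⟨fun c v => if h : v ∈ S then c ⟨v, h⟩ else ∅, fun c v h => dif_pos h⟩
  have key : ∀ c : (NumberField.InfinitePlace K → Finset (Fin s)) × (S → Finset (Fin s)),
      ∃ (C : ℝ) (F : MvPolynomial (Fin (N + 1) ⊕ Fin n) K), Exc A G F ∧
        ((∀ v, Ind A G Λ (c.1 v)) → (∀ v ∈ S, Ind A G Λ (ex c.2 v)) →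
          ∀ P ∈ Γ, ∀ X : Fin n → K, X ≠ 0 → X ∈ Fib A G P →
            aeval (Sum.elim (A.x P) X) F ≠ 0 →
            (∀ j, (∃ v, j ∈ c.1 v) ∨ (∃ v ∈ S, j ∈ ex c.2 v) →
              (∑ l, aeval (A.x P) (Λ j l) * X l) ≠ 0) ∧
            (∑ v : NumberField.InfinitePlace K, (v.mult : ℝ) *
                ∑ j ∈ c.1 v, lam A v.val D (Λ j) P X) +
              (∑ v ∈ S, ∑ j ∈ ex c.2 v, lam A v.val D (Λ j) P X) + hE A G P ≤
              r * logHeight X + ε * (logHeight X + logHeight (A.x P)) + C) := by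
    intro c
    by_cases hc : (∀ v, Ind A G Λ (c.1 v)) ∧ ∀ v ∈ S, Ind A G Λ (ex c.2 v)
    · obtain ⟨C, F, hF, h⟩ := SL_final A Γ hΓ hgr hr D D' G hG Λ hΛ S c.1 (ex c.2)
        (fun v T hT _ => S0_mono hT (hc.1 v)) (fun v hv T hT _ => S0_mono hT (hc.2 v hv))
        (S0_mono (Finset.empty_subset _) (hc.1 v₀)) ε hε
      exact ⟨C, F, hF, fun _ _ => h⟩
    · exact ⟨0, 1, F_Exc_one, fun h1 h2 => absurd ⟨h1, h2⟩ hc⟩
  choose C F hF h using key
  refine ⟨∑ c, |C c|, ∏ c, F c, F_Exc_prod _ _ fun c _ => hF c, ?_⟩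
  intro P hP X hX hXE hne Ji Jf hJi hJf
  have h1 : ∀ v ∈ S, ex (fun v : S => Jf v) v = Jf v := fun v hv => hex _ v hv
  have hne' : aeval (Sum.elim (A.x P) X) (F (Ji, fun v : S => Jf v)) ≠ 0 := by
    intro h0
    apply hne
    rw [map_prod]
    exact Finset.prod_eq_zero (Finset.mem_univ (Ji, fun v : S => Jf v)) h0
  obtain ⟨h2, h3⟩ := h (Ji, fun v : S => Jf v) hJi
    (fun v hv => by rw [h1 v hv]; exact hJf v hv) P hP X hX hXE hne'
  refine ⟨fun j hj => h2 j ?_, ?_⟩
  · rcases hj with hj | ⟨v, hv, hj⟩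
    · exact Or.inl hj
    · exact Or.inr ⟨v, hv, by rw [h1 v hv]; exact hj⟩
  · have h4 : (∑ v ∈ S, ∑ j ∈ ex (fun v : S => Jf v) v, lam A v.val D (Λ j) P X) =
        ∑ v ∈ S, ∑ j ∈ Jf v, lam A v.val D (Λ j) P X :=
      Finset.sum_congr rfl fun v hv => by rw [h1 v hv]
    have h5 : C (Ji, fun v : S => Jf v) ≤ ∑ c, |C c| :=
      le_trans (le_abs_self _) (Finset.single_le_sum (fun c _ => abs_nonneg (C c))
        (Finset.mem_univ _))
    simp only at h3
    rw [h4] at h3
    linarith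

/-! ### Change of indices -/

section

variable {K : Type u} [Field K] {N : ℕ} {A : AV K N} {γ ι σ : Type} [Fintype ι]
  {g n s : ℕ} (a : γ ≃ Fin g) (b : ι ≃ Fin n) (c : σ ≃ Fin s)

/-- The matrix with other indices. -/
def rdx {R : Type*} (G : Matrix γ ι R) : Matrix (Fin g) (Fin n) R := fun i l => G (a.symm i) (b.symm l)

theorem S0_sum {L : Type*} [Field L] (y z : ι → L) :
    ∑ l, y (b.symm l) * z (b.symm l) = ∑ l, y l * z l :=
  Equiv.sum_comp b.symm fun l => y l * z l

theorem S0_fib (G : Matrix γ ι (MvPolynomial (Fin (N + 1)) K)) {L : Type u} [Field L]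
    [Algebra K L] (P : A.Pts L) (X : ι → L) :
    (fun l => X (b.symm l)) ∈ Fib A (rdx a b G) P ↔ X ∈ FibT A G P := by
  constructor
  · intro h i
    have h1 := h (a i)
    unfold rdx at h1
    rw [S0_sum b (fun l => aeval (A.x P) (G (a.symm (a i)) l)) X, Equiv.symm_apply_apply] at h1
    exact h1
  · intro h i
    unfold rdx
    rw [S0_sum b (fun l => aeval (A.x P) (G (a.symm i) l)) X]
    exact h _

omit [Fintype ι] in
theorem S0_ind {G : Matrix γ ι (MvPolynomial (Fin (N + 1)) K)}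
    {Λ : Matrix σ ι (MvPolynomial (Fin (N + 1)) K)} {T : Finset σ} (h : IndT A G Λ T) :
    Ind A (rdx a b G) (rdx c b Λ) (T.map c.toEmbedding) := by
  intro L _ _ P hP
  have hm : ∀ j : T.map c.toEmbedding, c.symm j ∈ T := by
    intro j
    obtain ⟨i, hi, hij⟩ := Finset.mem_map.1 j.2
    rw [← hij, Equiv.coe_toEmbedding, Equiv.symm_apply_apply]
    exact hi
  have h1 := (h L P hP).comp
    (Sum.map a.symm fun j : T.map c.toEmbedding => (⟨c.symm j, hm j⟩ : T))
    (a.symm.injective.sumMap fun i j hij => Subtype.ext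
      (c.symm.injective (congrArg (fun t : T => t.1) hij)))
  have h2 := h1.map' (LinearMap.funLeft L L b.symm)
    (LinearMap.ker_eq_bot.2 (LinearMap.funLeft_injective_of_surjective L L _ b.symm.surjective))
  have h3 : (LinearMap.funLeft L L b.symm) ∘ ((Sum.elim
      (fun (i : γ) (l : ι) => aeval (A.x P) (G i l))
      fun (j : T) (l : ι) => aeval (A.x P) (Λ j l)) ∘
        (Sum.map a.symm fun j : T.map c.toEmbedding => (⟨c.symm j, hm j⟩ : T))) =
      Sum.elim (fun (i : Fin g) (l : Fin n) => aeval (A.x P) (rdx a b G i l))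
        fun (j : T.map c.toEmbedding) (l : Fin n) => aeval (A.x P) (rdx c b Λ j l) := by
    funext x
    rcases x with i | j <;> rfl
  rwa [h3] at h2

theorem S0_exc {G : Matrix γ ι (MvPolynomial (Fin (N + 1)) K)}
    {F : MvPolynomial (Fin (N + 1) ⊕ Fin n) K} (hF : Exc A (rdx a b G) F) :
    ExcT A G (rename (Sum.map id b.symm) F) := by
  classical
  have hinj : Function.Injective (Sum.map id b.symm : Fin (N + 1) ⊕ Fin n → Fin (N + 1) ⊕ ι) :=
    Function.injective_id.sumMap b.symm.injective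
  obtain ⟨⟨p, q, h1⟩, h2⟩ := hF
  refine ⟨⟨p, q, fun m hm => ?_⟩, fun L _ _ _ P hP => ?_⟩
  · rw [support_rename_of_injective hinj] at hm
    obtain ⟨m', hm', rfl⟩ := Finset.mem_image.1 hm
    obtain ⟨h3, h4⟩ := h1 m' hm'
    constructor
    · rw [← h3]
      refine Finset.sum_congr rfl fun i _ => ?_
      exact Finsupp.mapDomain_apply hinj m' (Sum.inl i)
    · rw [← h4, ← Equiv.sum_comp b.symm]
      refine Finset.sum_congr rfl fun l _ => ?_
      exact Finsupp.mapDomain_apply hinj m' (Sum.inr l)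
  · obtain ⟨e, m, y, h3, h4, h5⟩ := h2 L P hP
    refine ⟨e, m, fun k l => y k (b l), h3, fun k => ?_, ?_⟩
    · obtain ⟨z, hz, hz'⟩ := h4 k
      refine ⟨fun l => z (b l), ?_, ?_⟩
      · rw [← S0_fib a b]
        have h6 : (fun l => z (b (b.symm l))) = z := funext fun l => by
          rw [Equiv.apply_symm_apply]
        rw [h6]
        exact hz
      · rw [Equiv.sum_comp b fun l => y k l * z l]
        exact hz'
    · have h6 := congrArg (rename b.symm : MvPolynomial (Fin n) L →ₐ[L] MvPolynomial ι L) h5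
      rw [aeval_rename, map_mul, map_prod, rename_C] at *
      have h7 : ∀ F' : MvPolynomial (Fin (N + 1) ⊕ Fin n) K,
          (rename b.symm : MvPolynomial (Fin n) L →ₐ[L] MvPolynomial ι L)
            (aeval (Sum.elim (fun i => (C (A.x P i) : MvPolynomial (Fin n) L)) X) F') =
          aeval ((Sum.elim (fun i => (C (A.x P i) : MvPolynomial ι L)) X) ∘
            Sum.map id b.symm) F' := by
        intro F'
        have h8 : (((rename b.symm : MvPolynomial (Fin n) L →ₐ[L] MvPolynomial ι L).restrictScalars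
            K).comp (aeval (Sum.elim (fun i => (C (A.x P i) : MvPolynomial (Fin n) L)) X))) =
            aeval ((Sum.elim (fun i => (C (A.x P i) : MvPolynomial ι L)) X) ∘
              Sum.map id b.symm) := by
          apply algHom_ext
          intro x
          rcases x with i | l
          · simp
          · simp
        exact congrArg (fun φ => φ F') h8
      rw [h7] at h6
      rw [h6]
      congr 1
      refine Finset.prod_congr rfl fun k _ => ?_
      rw [map_sum, ← Equiv.sum_comp b.symm]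
      refine Finset.sum_congr rfl fun l _ => ?_
      rw [map_mul, rename_C, rename_X]
      show C (y k l) * X (b.symm l) = C (y k (b (b.symm l))) * X (b.symm l)
      rw [Equiv.apply_symm_apply]

omit [Fintype ι] in
theorem S0_eval (F : MvPolynomial (Fin (N + 1) ⊕ Fin n) K) (x : Fin (N + 1) → K) (X : ι → K) :
    aeval (Sum.elim x X) (rename (Sum.map id b.symm) F) =
      aeval (Sum.elim x fun l => X (b.symm l)) F := by
  rw [aeval_rename]
  have h : Sum.elim x X ∘ Sum.map id b.symm = Sum.elim x fun l => X (b.symm l) := by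
    funext y
    rcases y with i | l <;> rfl
  rw [h]

theorem S0_lam {L : Type u} [Field L] [Algebra K L] (v : AbsoluteValue L ℝ) (D : ℕ)
    (Λ : Matrix σ ι (MvPolynomial (Fin (N + 1)) K)) (P : A.Pts L) (X : ι → L) (j : σ) :
    lam A v D (rdx c b Λ (c j)) P (fun l => X (b.symm l)) = lamT A v D (Λ j) P X := by
  unfold lam lamT rdx
  rw [S0_sum b (fun l => aeval (A.x P) (Λ (c.symm (c j)) l)) X, Equiv.symm_apply_apply,
    Equiv.iSup_comp (e := b.symm) (g := fun l => v (X l))]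

theorem S0_ht [NumberField K] (X : ι → K) :
    logHeight (fun l => X (b.symm l)) = logHeight X := by
  refine le_antisymm (logHeight_comp_le (b.symm : Fin n → ι) X) ?_
  have h1 := logHeight_comp_le (b : ι → Fin n) fun l => X (b.symm l)
  have h2 : ((fun l => X (b.symm l)) ∘ b : ι → K) = X := funext fun l => by
    rw [Function.comp_apply, Equiv.symm_apply_apply]
  rwa [h2] at h1

end

/-- The subspace theorem for arbitrary finite sets of indices, uniformly in the choice of the linear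
forms. -/
theorem S0_gen {K : Type u} [Field K] [NumberField K] {N : ℕ} (A : AV K N)
    (Γ : AddSubgroup (A.Pts K)) (hΓ : Γ.FG) {γ ι σ : Type} [Fintype ι] [Fintype σ]
    {g n r : ℕ} (a : γ ≃ Fin g) (b : ι ≃ Fin n) (hgr : g + r = n) (hr : 0 < r)
    (D D' : ℕ) (G : Matrix γ ι (MvPolynomial (Fin (N + 1)) K))
    (hG : ∀ i l, (G i l).IsHomogeneous D')
    (Λ : Matrix σ ι (MvPolynomial (Fin (N + 1)) K))
    (hΛ : ∀ j l, (Λ j l).IsHomogeneous D) (S : Finset (NumberField.FinitePlace K))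
    (ε : ℝ) (hε : 0 < ε) :
    ∃ (C : ℝ) (F : MvPolynomial (Fin (N + 1) ⊕ ι) K), ExcT A G F ∧
      ∀ P ∈ Γ, ∀ X : ι → K, X ≠ 0 → X ∈ FibT A G P → aeval (Sum.elim (A.x P) X) F ≠ 0 →
        ∀ (Ji : NumberField.InfinitePlace K → Finset σ)
          (Jf : NumberField.FinitePlace K → Finset σ),
          (∀ v, IndT A G Λ (Ji v)) → (∀ v ∈ S, IndT A G Λ (Jf v)) →
          (∀ j, (∃ v, j ∈ Ji v) ∨ (∃ v ∈ S, j ∈ Jf v) →
            (∑ l, aeval (A.x P) (Λ j l) * X l) ≠ 0) ∧
          (∑ v : NumberField.InfinitePlace K, (v.mult : ℝ) *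
              ∑ j ∈ Ji v, lamT A v.val D (Λ j) P X) +
            (∑ v ∈ S, ∑ j ∈ Jf v, lamT A v.val D (Λ j) P X) + hE A (rdx a b G) P ≤
            r * logHeight X + ε * (logHeight X + logHeight (A.x P)) + C := by
  classical
  obtain ⟨c⟩ : Nonempty (σ ≃ Fin (Fintype.card σ)) := ⟨Fintype.equivFin σ⟩
  obtain ⟨C, F, hF, h⟩ := S0_fin A Γ hΓ hgr hr D D' (rdx a b G) (fun i l => hG _ _) (rdx c b Λ)
    (fun j l => hΛ _ _) S ε hε
  refine ⟨C, rename (Sum.map id b.symm) F, S0_exc a b hF, ?_⟩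
  intro P hP X hX hXE hne Ji Jf hJi hJf
  rw [S0_eval] at hne
  have hX' : (fun l => X (b.symm l)) ≠ 0 := by
    intro h0
    apply hX
    funext l
    have h1 := congrFun h0 (b l)
    simp only [Equiv.symm_apply_apply] at h1
    exact h1
  obtain ⟨h1, h2⟩ := h P hP (fun l => X (b.symm l)) hX' ((S0_fib a b G P X).2 hXE) hne
    (fun v => (Ji v).map c.toEmbedding) (fun v => (Jf v).map c.toEmbedding)
    (fun v => S0_ind a b c (hJi v)) (fun v hv => S0_ind a b c (hJf v hv))
  refine ⟨fun j hj => ?_, ?_⟩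
  · have h3 := h1 (c j) (by
      rcases hj with ⟨v, hj⟩ | ⟨v, hv, hj⟩
      · exact Or.inl ⟨v, Finset.mem_map.2 ⟨j, hj, rfl⟩⟩
      · exact Or.inr ⟨v, hv, Finset.mem_map.2 ⟨j, hj, rfl⟩⟩)
    unfold rdx at h3
    rw [S0_sum b (fun l => aeval (A.x P) (Λ (c.symm (c j)) l)) X, Equiv.symm_apply_apply] at h3
    exact h3
  · have h3 : ∀ (v : AbsoluteValue K ℝ) (T : Finset σ),
        ∑ j ∈ T.map c.toEmbedding, lam A v D (rdx c b Λ j) P (fun l => X (b.symm l)) =
          ∑ j ∈ T, lamT A v D (Λ j) P X := by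
      intro v T
      rw [Finset.sum_map]
      exact Finset.sum_congr rfl fun j _ => S0_lam b c v D Λ P X j
    simp only [h3, S0_ht] at h2
    exact h2

end Pool.Agent.Lib.MP_17a322_nt.SG
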