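import Pool.Agent.Lib.MP_17a322_nt.SG.E1
import Pool.Agent.Lib.MP_17a322_nt.SG.S0

/-!
The subspace theorem for block diagonal bundles, uniformly in the choice of the linear forms.
-/

universe u

namespace Pool.Agent.Lib.MP_17a322_nt.SG

open MvPolynomial Height
open Pool.Agent.Lib.MP_17a322_nt.VA
open Pool.Agent.Lib.MP_17a322_nt.SL

section

variable {K : Type u} [Field K] {N : ℕ} (A : AV K N) {g n r : ℕ}

/-- The block diagonal matrix. -/
noncomputable def bdG (β : Type) [DecidableEq β] (G : Matrix (Fin g) (Fin n) (MvPolynomial (Fin (N + 1)) K)) :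
    Matrix (β × Fin g) (β × Fin n) (MvPolynomial (Fin (N + 1)) K) :=
  fun p x => if p.1 = x.1 then G p.2 x.2 else 0

theorem C_bdG (β : Type) [DecidableEq β]
    (G : Matrix (Fin g) (Fin n) (MvPolynomial (Fin (N + 1)) K)) {L : Type u} [Field L]
    [Algebra K L] (P : A.Pts L) (p : β × Fin g) (x : β × Fin n) :
    aeval (A.x P) (bdG β G p x) = if p.1 = x.1 then aeval (A.x P) (G p.2 x.2) else 0 := by
  unfold bdG
  split_ifs
  · rfl
  · rw [map_zero]

theorem C_fib (β : Type) [Fintype β] [DecidableEq β]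
    (G : Matrix (Fin g) (Fin n) (MvPolynomial (Fin (N + 1)) K)) {L : Type u} [Field L]
    [Algebra K L] (P : A.Pts L) (Y : β × Fin n → L) :
    Y ∈ FibT A (bdG β G) P ↔ ∀ b, (fun l => Y (b, l)) ∈ Fib A G P := by
  have h1 : ∀ p : β × Fin g, ∑ x, aeval (A.x P) (bdG β G p x) * Y x =
      ∑ l, aeval (A.x P) (G p.2 l) * Y (p.1, l) := by
    intro p
    rw [Fintype.sum_prod_type, Finset.sum_eq_single p.1]
    · refine Finset.sum_congr rfl fun l _ => ?_
      rw [C_bdG, if_pos rfl]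
    · intro b _ hb
      refine Finset.sum_eq_zero fun l _ => ?_
      rw [C_bdG, if_neg fun h => hb h.symm, zero_mul]
    · intro h
      exact absurd (Finset.mem_univ _) h
  constructor
  · intro h b i
    have h2 := h (b, i)
    rwa [h1] at h2
  · intro h p
    rw [h1]
    exact h p.1 p.2

theorem C_ind (β : Type) [DecidableEq β] {σ : Type}
    {G : Matrix (Fin g) (Fin n) (MvPolynomial (Fin (N + 1)) K)}
    {Λ' : σ → β × Fin n → MvPolynomial (Fin (N + 1)) K} {T : Finset σ}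
    (h : IndB A β G Λ' T) : IndT A (bdG β G) Λ' T := by
  intro L _ _ P hP
  have h1 := h L P hP
  simp only [C_bdG]
  exact h1

theorem C_exc (β : Type) [Fintype β] [DecidableEq β]
    {G : Matrix (Fin g) (Fin n) (MvPolynomial (Fin (N + 1)) K)}
    {F : MvPolynomial (Fin (N + 1) ⊕ (β × Fin n)) K} (h : ExcT A (bdG β G) F) :
    ExcB A β G F := by
  refine ⟨h.1, fun L _ _ _ P hP => ?_⟩
  obtain ⟨c, m, y, h1, h2, h3⟩ := h.2 L P hP
  refine ⟨c, m, y, h1, fun k => ?_, h3⟩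
  obtain ⟨z, hz, hz'⟩ := h2 k
  exact ⟨z, (C_fib A β G P z).1 hz, hz'⟩

theorem C_main [NumberField K] (Γ : AddSubgroup (A.Pts K)) (hΓ : Γ.FG) (hgr : g + r = n)
    (hr : 0 < r) (D D' : ℕ) (β : Type) [Fintype β] [DecidableEq β] [Nonempty β] {σ : Type}
    [Fintype σ] (G : Matrix (Fin g) (Fin n) (MvPolynomial (Fin (N + 1)) K))
    (hG : ∀ i l, (G i l).IsHomogeneous D')
    (Λ' : σ → β × Fin n → MvPolynomial (Fin (N + 1)) K)
    (hΛ' : ∀ j x, (Λ' j x).IsHomogeneous D) (S : Finset (NumberField.FinitePlace K)) (ε : ℝ)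
    (hε : 0 < ε) :
    ∃ (C : ℝ) (F : MvPolynomial (Fin (N + 1) ⊕ (β × Fin n)) K), ExcB A β G F ∧
      ∀ P ∈ Γ, ∀ Y : β × Fin n → K, Y ≠ 0 → (∀ b, (fun l => Y (b, l)) ∈ Fib A G P) →
        aeval (Sum.elim (A.x P) Y) F ≠ 0 →
        ∀ (Bi : NumberField.InfinitePlace K → Finset σ)
          (Bf : NumberField.FinitePlace K → Finset σ),
          (∀ v, IndB A β G Λ' (Bi v)) → (∀ v ∈ S, IndB A β G Λ' (Bf v)) →
          (∀ j, (∃ v, j ∈ Bi v) ∨ (∃ v ∈ S, j ∈ Bf v) →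
            (∑ x, aeval (A.x P) (Λ' j x) * Y x) ≠ 0) ∧
          (∑ v : NumberField.InfinitePlace K, (v.mult : ℝ) *
              ∑ j ∈ Bi v, lamB A v.val D (Λ' j) P Y) +
            (∑ v ∈ S, ∑ j ∈ Bf v, lamB A v.val D (Λ' j) P Y) + Fintype.card β * hE A G P ≤
            Fintype.card β * r * logHeight Y + ε * (logHeight Y + logHeight (A.x P)) + C := by
  have h0 : 0 < Fintype.card β := Fintype.card_pos
  obtain ⟨C, F, hF, h⟩ := S0_gen A Γ hΓ (bE β g) (bE β n)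
    (r := Fintype.card β * r) (by rw [← mul_add, hgr]) (Nat.mul_pos h0 hr) D D' (bdG β G)
    (fun p x => by
      unfold bdG
      split_ifs
      · exact hG _ _
      · exact isHomogeneous_zero _ _ _) Λ' hΛ' S ε hε
  refine ⟨C, F, C_exc A β hF, fun P hP Y hY hYE hne Bi Bf hBi hBf => ?_⟩
  obtain ⟨h1, h2⟩ := h P hP Y hY ((C_fib A β G P Y).2 hYE) hne Bi Bf
    (fun v => C_ind A β (hBi v)) fun v hv => C_ind A β (hBf v hv)
  refine ⟨h1, ?_⟩
  have h3 := E_main A β G P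
  have h4 : rdx (bE β g) (bE β n) (bdG β G) = blk β G := rfl
  rw [h4, Nat.cast_mul] at h2
  have h5 : (∑ v : NumberField.InfinitePlace K, (v.mult : ℝ) *
        ∑ j ∈ Bi v, lamB A v.val D (Λ' j) P Y) +
      (∑ v ∈ S, ∑ j ∈ Bf v, lamB A v.val D (Λ' j) P Y) =
      (∑ v : NumberField.InfinitePlace K, (v.mult : ℝ) *
        ∑ j ∈ Bi v, lamT A v.val D (Λ' j) P Y) +
      (∑ v ∈ S, ∑ j ∈ Bf v, lamT A v.val D (Λ' j) P Y) := rfl
  linarith

end

end Pool.Agent.Lib.MP_17a322_nt.SG
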