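import Pool.Agent.Lib.MP_17a322_nt.SL.FDefs

/-!
Moving hyperplanes over `A × 𝔾_m ^ q`: definitions of the final statement.
-/

universe u

namespace Pool.Agent.Lib.MP_17a322_nt.SG

open MvPolynomial Height
open Pool.Agent.Lib.MP_17a322_nt.VA
open Pool.Agent.Lib.MP_17a322_nt.SL

section

variable {q n : ℕ} {R : Type*} [CommRing R]

/-- The weight of a monomial in the direction `τ`. -/
noncomputable def wt (τ : Fin q → ℝ) (m : Fin q →₀ ℕ) : ℝ :=
  ∑ i, (m i : ℝ) * τ i

/-- The monomials that occur in the coefficients of the linear form `Λ`. -/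
noncomputable def supp (Λ : Fin n → MvPolynomial (Fin q) R) : Finset (Fin q →₀ ℕ) := by
  classical
  exact Finset.univ.biUnion fun l => (Λ l).support

/-- The largest weight of the monomials that occur in the coefficients of `Λ`. -/
noncomputable def maxWt (τ : Fin q → ℝ) (Λ : Fin n → MvPolynomial (Fin q) R) : ℝ :=
  ⨆ m : supp Λ, wt τ m

/-- The part of weight `h` of a polynomial. -/
noncomputable def partWt (τ : Fin q → ℝ) (h : ℝ) (p : MvPolynomial (Fin q) R) :
    MvPolynomial (Fin q) R := by
  classical
  exact ∑ m ∈ p.support.filter fun m => wt τ m = h, monomial m (coeff m p)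

end

section

variable {K : Type u} [Field K] {N q : ℕ} (A : AV K N) {g n s : ℕ}

/-- The rows of `G` and the leading parts in the direction `τ` of the linear forms `Λ j`, `j ∈ T`, are
linearly independent over the function field of `A × 𝔾_m ^ q`. -/
def IndG (G : Matrix (Fin g) (Fin n) (MvPolynomial (Fin (N + 1)) K))
    (Λ : Matrix (Fin s) (Fin n) (MvPolynomial (Fin q) (MvPolynomial (Fin (N + 1)) K)))
    (τ : Fin q → ℝ) (T : Finset (Fin s)) : Prop :=
  ∀ (L : Type u) [Field L] [Algebra K L] (P : A.Pts L), Gen A P →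
    LinearIndependent (MvPolynomial (Fin q) L)
      (Sum.elim (fun (i : Fin g) (l : Fin n) => C (aeval (A.x P) (G i l)))
        fun (j : T) (l : Fin n) =>
          MvPolynomial.map (aeval (A.x P) : MvPolynomial (Fin (N + 1)) K →ₐ[K] L).toRingHom
            (partWt τ (maxWt τ (Λ j)) (Λ j l)))

/-- The value at the point `(P, t)` of a polynomial in the coordinates of `𝔾_m ^ q` whose coefficients
are forms on `A`. -/
noncomputable def ev {L : Type u} [Field L] [Algebra K L] (P : A.Pts L) (t : Fin q → L)
    (p : MvPolynomial (Fin q) (MvPolynomial (Fin (N + 1)) K)) : L :=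
  eval t (MvPolynomial.map (aeval (A.x P) : MvPolynomial (Fin (N + 1)) K →ₐ[K] L).toRingHom p)

/-- The local height of the point `(P, t, X)` with respect to the closure of the relative hyperplane
`Λ = 0`, `Λ` a linear form whose coefficients are polynomials in the coordinates of `𝔾_m ^ q`, whose
coefficients are forms of degree `D` on `A`. -/
noncomputable def lamG {L : Type u} [Field L] [Algebra K L] (v : AbsoluteValue L ℝ) (D : ℕ)
    (Λ : Fin n → MvPolynomial (Fin q) (MvPolynomial (Fin (N + 1)) K)) (P : A.Pts L)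
    (t : Fin q → L) (X : Fin n → L) : ℝ :=
  Real.log (⨆ l, v (X l)) + D * Real.log (⨆ i, v (A.x P i)) +
    maxWt (fun i => Real.log (v (t i))) Λ - Real.log (v (∑ l, ev A P t (Λ l) * X l))

/-- The forms `F` of some bidegree in the coordinates of `A` and `X_1, ..., X_n`, with coefficients
polynomials in the coordinates of `𝔾_m ^ q`, that are at the generic point of `A` products of a nonzero
polynomial in the coordinates of `𝔾_m ^ q` and linear forms in `X_1, ..., X_n` whose coefficients are
polynomials in the coordinates of `𝔾_m ^ q` over the algebraic closure of the function field of `A`, none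
of which vanishes on `E`. -/
def ExcG (G : Matrix (Fin g) (Fin n) (MvPolynomial (Fin (N + 1)) K))
    (F : MvPolynomial (Fin (N + 1) ⊕ Fin q ⊕ Fin n) K) : Prop :=
  (∃ a b : ℕ, ∀ m ∈ F.support, ∑ i, m (Sum.inl i) = a ∧ ∑ l, m (Sum.inr (Sum.inr l)) = b) ∧
  ∀ (L : Type u) [Field L] [IsAlgClosed L] [Algebra K L] (P : A.Pts L), Gen A P →
    ∃ (c : MvPolynomial (Fin q) L) (m : ℕ) (y : Fin m → Fin n → MvPolynomial (Fin q) L), c ≠ 0 ∧
      (∀ k, ∃ z ∈ Fib A G P, ∑ l, y k l * C (z l) ≠ 0) ∧
      aeval (Sum.elim (fun i => (C (C (A.x P i)) : MvPolynomial (Fin n) (MvPolynomial (Fin q) L)))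
        (Sum.elim (fun i => C (X i)) X)) F = C c * ∏ k, ∑ l, C (y k l) * X l

/-- The function on `A × 𝔾_m ^ q` given by `f` is nonzero, and it is nonzero on every stratum of the
boundary: the leading part of `f` in every direction does not vanish on `A`. -/
def NZ (f : MvPolynomial (Fin q) (MvPolynomial (Fin (N + 1)) K)) : Prop :=
  ∀ (τ : Fin q → ℝ) (L : Type u) [Field L] [Algebra K L] (P : A.Pts L), Gen A P →
    MvPolynomial.map (aeval (A.x P) : MvPolynomial (Fin (N + 1)) K →ₐ[K] L).toRingHom
      (partWt τ (maxWt τ fun _ : Fin 1 => f) f) ≠ 0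

/-- The part outside `S` of the height of a point of `𝔾_m ^ q`. -/
noncomputable def NS [NumberField K] (S : Finset (NumberField.FinitePlace K)) (t : Fin q → K) : ℝ :=
  ∑ i, ∑ᶠ v : {v : NumberField.FinitePlace K // v ∉ S}, |Real.log (v.1 (t i))|

end

end Pool.Agent.Lib.MP_17a322_nt.SG
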