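import Pool.Agent.Lib.MP_17a322_nt.SG.Defs2
import Pool.Agent.Lib.MP_17a322_nt.SG.B1

/-!
The height of the block diagonal bundle.
-/

universe u

namespace Pool.Agent.Lib.MP_17a322_nt.SG

open MvPolynomial Height
open Pool.Agent.Lib.MP_17a322_nt.VA
open Pool.Agent.Lib.MP_17a322_nt.SL

/-- The two descriptions of block diagonal matrices. -/
theorem E_blk (β : Type) [Fintype β] [DecidableEq β] {g n : ℕ} {R : Type*} [Zero R]
    (G : Matrix (Fin g) (Fin n) R) :
    blk β G = bkd ((bE β g).symm.trans (Equiv.prodComm _ _))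
      ((bE β n).symm.trans (Equiv.prodComm _ _)) G := by
  ext a b
  rw [bkd_apply]
  rfl

theorem E_main {K : Type u} [Field K] {N : ℕ} (A : AV K N) {g n : ℕ} [NumberField K] (β : Type)
    [Fintype β] [DecidableEq β]
    (G : Matrix (Fin g) (Fin n) (MvPolynomial (Fin (N + 1)) K)) (P : A.Pts K) :
    Fintype.card β * hE A G P ≤ hE A (blk β G) P := by
  rw [E_blk]
  exact B_hE A _ _ P G

/-- The fibres of the block diagonal bundle. -/
theorem E_fib {K : Type u} [Field K] {N : ℕ} (A : AV K N) {g n : ℕ} (β : Type)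
    [Fintype β] [DecidableEq β] {L : Type u} [Field L] [Algebra K L] (P : A.Pts L)
    (G : Matrix (Fin g) (Fin n) (MvPolynomial (Fin (N + 1)) K))
    (X : Fin (Fintype.card β * n) → L) :
    X ∈ Fib A (blk β G) P ↔ ∀ k : β, (fun l => X (bE β n (k, l))) ∈ Fib A G P := by
  rw [E_blk, B_fib]
  rfl

theorem E_hom {K : Type u} [Field K] {N : ℕ} {g n D : ℕ} (β : Type)
    [Fintype β] [DecidableEq β] (G : Matrix (Fin g) (Fin n) (MvPolynomial (Fin (N + 1)) K))
    (hG : ∀ i l, (G i l).IsHomogeneous D) (a : Fin (Fintype.card β * g))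
    (b : Fin (Fintype.card β * n)) : (blk β G a b).IsHomogeneous D := by
  rw [E_blk]
  exact B_hom _ _ G hG a b

end Pool.Agent.Lib.MP_17a322_nt.SG
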