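import Pool.Agent.Lib.MP_17a322_nt.SG.R1
import Pool.Agent.Lib.MP_17a322_nt.SG.M1

/-!
Vertical divisors.
-/

universe u

namespace Pool.Agent.Lib.MP_17a322_nt.SG

open MvPolynomial Height
open Pool.Agent.Lib.MP_17a322_nt.VA
open Pool.Agent.Lib.MP_17a322_nt.SL

section

variable {K : Type u} [Field K] {N q : ℕ} (A : AV K N) {g n : ℕ}

theorem N1_ind (G' : Matrix (Fin 0) (Fin 1) (MvPolynomial (Fin (N + 1)) K))
    (f : MvPolynomial (Fin q) (MvPolynomial (Fin (N + 1)) K)) (hfA : NZ A f) (τ : Fin q → ℝ)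
    (T : Finset (Fin 1)) : IndG A G' (fun (_ : Fin 1) (_ : Fin 1) => f) τ T := by
  classical
  intro L _ _ P hP
  rw [Fintype.linearIndependent_iff]
  intro w hw i
  rcases i with i | j
  · exact i.elim0
  · have h1 := congrFun hw 0
    rw [Finset.sum_apply, Fintype.sum_sum_type] at h1
    simp only [Finset.univ_eq_empty, Finset.sum_empty, zero_add, Sum.elim_inr, Pi.smul_apply,
      Pi.zero_apply, smul_eq_mul] at h1
    have h2 : ∀ k : T, k = j := fun k => Subsingleton.elim _ _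
    have h3 : ∑ k : T, w (Sum.inr k) * MvPolynomial.map
        (aeval (A.x P) : MvPolynomial (Fin (N + 1)) K →ₐ[K] L).toRingHom
        (partWt τ (maxWt τ fun _ : Fin 1 => f) f) = w (Sum.inr j) * MvPolynomial.map
        (aeval (A.x P) : MvPolynomial (Fin (N + 1)) K →ₐ[K] L).toRingHom
        (partWt τ (maxWt τ fun _ : Fin 1 => f) f) := by
      refine Fintype.sum_eq_single j fun k hk => absurd (h2 k) hk
    rw [h3] at h1
    exact (mul_eq_zero.1 h1).resolve_right (hfA τ L P hP)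

theorem N_main [NumberField K] (Γ : AddSubgroup (A.Pts K)) (hΓ : Γ.FG)
    (G : Matrix (Fin g) (Fin n) (MvPolynomial (Fin (N + 1)) K)) {e : ℕ}
    (f : MvPolynomial (Fin q) (MvPolynomial (Fin (N + 1)) K))
    (hf : ∀ m, (coeff m f).IsHomogeneous e) (hfA : NZ A f)
    (S : Finset (NumberField.FinitePlace K)) (ε : ℝ) (hε : 0 < ε) :
    ∃ (C : ℝ) (F : MvPolynomial (Fin (N + 1) ⊕ Fin q ⊕ Fin n) K), ExcG A G F ∧
      ∀ P ∈ Γ, ∀ t : Fin q → K, (∀ i, t i ≠ 0) → ∀ Z : Fin n → K,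
        aeval (Sum.elim (A.x P) (Sum.elim t Z)) F ≠ 0 → ev A P t f ≠ 0 ∧
          (∑ v : NumberField.InfinitePlace K, (v.mult : ℝ) *
              lamG A v.val e (fun _ : Fin 1 => f) P t (fun _ => 1)) +
            (∑ v ∈ S, lamG A v.val e (fun _ : Fin 1 => f) P t (fun _ => 1)) ≤
            ε * (logHeight (A.x P) + ∑ i, logHeight₁ (t i)) + C * (1 + NS S t) := by
  classical
  obtain ⟨G', hG'⟩ : ∃ G' : Matrix (Fin 0) (Fin 1) (MvPolynomial (Fin (N + 1)) K),
      G' = fun i _ => i.elim0 := ⟨_, rfl⟩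
  obtain ⟨C₀, F₀, hF₀, h1⟩ := M_core A Γ hΓ (show 0 + 1 = 1 from rfl) one_pos e 0 G'
    (fun i => i.elim0) (fun (_ : Fin 1) (_ : Fin 1) => f) (fun _ _ m => hf m) S ε hε
  refine ⟨C₀, _, X_vert A G' hF₀, ?_⟩
  intro P hP t ht Z hF
  have h2 : aeval (Sum.elim (A.x P) (Sum.elim t Z))
      (aeval (Sum.elim (fun i => (X (Sum.inl i) : MvPolynomial (Fin (N + 1) ⊕ Fin q ⊕ Fin n) K))
      (Sum.elim (fun i => X (Sum.inr (Sum.inl i))) fun _ => 1)) F₀) =
      aeval (Sum.elim (A.x P) (Sum.elim t fun _ : Fin 1 => 1)) F₀ := by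
    rw [← AlgHom.comp_apply, comp_aeval]
    have h3 : (fun i => (aeval (Sum.elim (A.x P) (Sum.elim t Z)))
        (Sum.elim (fun i => (X (Sum.inl i) : MvPolynomial (Fin (N + 1) ⊕ Fin q ⊕ Fin n) K))
        (Sum.elim (fun i => X (Sum.inr (Sum.inl i))) fun _ => 1) i)) =
        Sum.elim (A.x P) (Sum.elim t fun _ : Fin 1 => 1) := by
      funext i
      rcases i with i | i | i
      · simp only [Sum.elim_inl, aeval_X]
      · simp only [Sum.elim_inl, Sum.elim_inr, aeval_X]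
      · simp only [Sum.elim_inr, map_one]
    rw [h3]
  rw [h2] at hF
  have hone : (fun _ : Fin 1 => (1 : K)) ≠ 0 := by
    intro h
    exact one_ne_zero (congrFun h 0)
  obtain ⟨h4, h5⟩ := h1 P hP t ht (fun _ => 1) hone (fun i => i.elim0) hF
    (fun _ => Finset.univ) (fun _ => Finset.univ)
    (fun v => N1_ind A G' f hfA _ _) (fun v _ => N1_ind A G' f hfA _ _)
  have h6 : ev A P t f ≠ 0 := by
    obtain ⟨v⟩ : Nonempty (NumberField.InfinitePlace K) := inferInstance
    have h7 := h4 0 (Or.inl ⟨v, Finset.mem_univ _⟩)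
    rw [Finset.sum_const, Finset.card_univ, Fintype.card_fin, one_smul, mul_one] at h7
    exact h7
  refine ⟨h6, ?_⟩
  have h8 : logHeight (fun _ : Fin 1 => (1 : K)) = 0 := logHeight_one
  have h9 : 0 ≤ hE A G' P := by
    unfold hE
    exact logHeight_nonneg _
  simp only [Finset.univ_unique, Finset.sum_singleton] at h5
  rw [h8] at h5
  simp only [mul_zero, zero_add] at h5
  linarith

end

end Pool.Agent.Lib.MP_17a322_nt.SG
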