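import Pool.Agent.Lib.MP_17a322_nt.SG.Defs

/-!
Leading parts of products and determinants, and bounds for values.
-/

universe u

namespace Pool.Agent.Lib.MP_17a322_nt.SG

open MvPolynomial Height
open Pool.Agent.Lib.MP_17a322_nt.VA
open Pool.Agent.Lib.MP_17a322_nt.SL

section

variable {q : ℕ} {R : Type*} [CommRing R]

theorem R1_wt_add (τ : Fin q → ℝ) (m m' : Fin q →₀ ℕ) :
    wt τ (m + m') = wt τ m + wt τ m' := by
  unfold wt
  rw [← Finset.sum_add_distrib]
  refine Finset.sum_congr rfl fun i _ => ?_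
  rw [Finsupp.add_apply]
  push_cast
  ring

theorem R1_wt_zero (τ : Fin q → ℝ) : wt τ 0 = 0 := by
  unfold wt
  simp

theorem R1_coeff (τ : Fin q → ℝ) (h : ℝ) (p : MvPolynomial (Fin q) R) (m : Fin q →₀ ℕ) :
    coeff m (partWt τ h p) = if wt τ m = h then coeff m p else 0 := by
  classical
  unfold partWt
  rw [coeff_sum]
  simp only [coeff_monomial]
  rw [Finset.sum_ite_eq']
  by_cases h1 : wt τ m = h
  · by_cases h2 : coeff m p = 0
    · rw [if_pos h1, h2]
      split_ifs <;> rfl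
    · rw [if_pos h1, if_pos]
      exact Finset.mem_filter.2 ⟨mem_support_iff.2 h2, h1⟩
  · rw [if_neg h1, if_neg]
    intro h2
    exact h1 (Finset.mem_filter.1 h2).2

theorem R1_mul {τ : Fin q → ℝ} {h h' : ℝ} {p p' : MvPolynomial (Fin q) R}
    (hp : ∀ m ∈ p.support, wt τ m ≤ h) (hp' : ∀ m ∈ p'.support, wt τ m ≤ h') :
    (∀ m ∈ (p * p').support, wt τ m ≤ h + h') ∧
      partWt τ (h + h') (p * p') = partWt τ h p * partWt τ h' p' := by
  classical
  constructor
  · intro m hm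
    rw [mem_support_iff, coeff_mul] at hm
    obtain ⟨y, hy, hy0⟩ := Finset.exists_ne_zero_of_sum_ne_zero hm
    have h1 : wt τ y.1 ≤ h := hp _ (mem_support_iff.2 (left_ne_zero_of_mul hy0))
    have h2 : wt τ y.2 ≤ h' := hp' _ (mem_support_iff.2 (right_ne_zero_of_mul hy0))
    rw [← Finset.HasAntidiagonal.mem_antidiagonal.1 hy, R1_wt_add]
    exact add_le_add h1 h2
  · ext m
    rw [R1_coeff, coeff_mul, coeff_mul]
    by_cases hm : wt τ m = h + h'
    · rw [if_pos hm]
      refine Finset.sum_congr rfl fun y hy => ?_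
      rw [R1_coeff, R1_coeff]
      have h1 : wt τ y.1 + wt τ y.2 = h + h' := by
        rw [← R1_wt_add, Finset.HasAntidiagonal.mem_antidiagonal.1 hy, hm]
      by_cases h2 : coeff y.1 p = 0
      · rw [h2, zero_mul]
        split_ifs <;> simp
      by_cases h3 : coeff y.2 p' = 0
      · rw [h3, mul_zero]
        split_ifs <;> simp
      have h4 : wt τ y.1 ≤ h := hp _ (mem_support_iff.2 h2)
      have h5 : wt τ y.2 ≤ h' := hp' _ (mem_support_iff.2 h3)
      rw [if_pos (by linarith), if_pos (by linarith)]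
    · rw [if_neg hm]
      refine (Finset.sum_eq_zero fun y hy => ?_).symm
      rw [R1_coeff, R1_coeff]
      by_cases h2 : wt τ y.1 = h
      · by_cases h3 : wt τ y.2 = h'
        · exfalso
          apply hm
          rw [← Finset.HasAntidiagonal.mem_antidiagonal.1 hy, R1_wt_add, h2, h3]
        · rw [if_neg h3, mul_zero]
      · rw [if_neg h2, zero_mul]

theorem R1_C (τ : Fin q → ℝ) (c : R) :
    (∀ m ∈ (C c : MvPolynomial (Fin q) R).support, wt τ m ≤ 0) ∧
      partWt τ 0 (C c : MvPolynomial (Fin q) R) = C c := by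
  classical
  constructor
  · intro m hm
    rw [mem_support_iff, coeff_C] at hm
    by_cases h : 0 = m
    · rw [← h, R1_wt_zero]
    · rw [if_neg h] at hm
      exact absurd rfl hm
  · ext m
    rw [R1_coeff, coeff_C]
    by_cases h : 0 = m
    · rw [← h, R1_wt_zero, if_pos rfl]
    · rw [if_neg h]
      split_ifs <;> rfl

theorem R1_prod {ι : Type*} {τ : Fin q → ℝ} (s : Finset ι) (h : ι → ℝ)
    (p : ι → MvPolynomial (Fin q) R) (hp : ∀ i ∈ s, ∀ m ∈ (p i).support, wt τ m ≤ h i) :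
    (∀ m ∈ (∏ i ∈ s, p i).support, wt τ m ≤ ∑ i ∈ s, h i) ∧
      partWt τ (∑ i ∈ s, h i) (∏ i ∈ s, p i) = ∏ i ∈ s, partWt τ (h i) (p i) := by
  classical
  induction s using Finset.induction_on with
  | empty =>
    rw [Finset.prod_empty, Finset.sum_empty, Finset.prod_empty]
    have h1 := R1_C τ (1 : R)
    rw [C_1] at h1
    exact h1
  | insert a s ha ih =>
    rw [Finset.prod_insert ha, Finset.sum_insert ha, Finset.prod_insert ha]
    obtain ⟨h1, h2⟩ := ih fun i hi => hp i (Finset.mem_insert_of_mem hi)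
    obtain ⟨h3, h4⟩ := R1_mul (hp a (Finset.mem_insert_self a s)) h1
    exact ⟨h3, by rw [h4, h2]⟩

theorem R1_sum {ι : Type*} {τ : Fin q → ℝ} (s : Finset ι) (h : ℝ)
    (p : ι → MvPolynomial (Fin q) R) (hp : ∀ i ∈ s, ∀ m ∈ (p i).support, wt τ m ≤ h) :
    (∀ m ∈ (∑ i ∈ s, p i).support, wt τ m ≤ h) ∧
      partWt τ h (∑ i ∈ s, p i) = ∑ i ∈ s, partWt τ h (p i) := by
  classical
  constructor
  · intro m hm
    rw [mem_support_iff, coeff_sum] at hm
    obtain ⟨i, hi, hi0⟩ := Finset.exists_ne_zero_of_sum_ne_zero hm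
    exact hp i hi m (mem_support_iff.2 hi0)
  · ext m
    rw [R1_coeff, coeff_sum, coeff_sum]
    simp only [R1_coeff]
    split_ifs
    · rfl
    · rw [Finset.sum_const_zero]

theorem R1_unit {τ : Fin q → ℝ} (u : ℤˣ) {h : ℝ} {p : MvPolynomial (Fin q) R}
    (hp : ∀ m ∈ p.support, wt τ m ≤ h) :
    (∀ m ∈ (u • p).support, wt τ m ≤ h) ∧ partWt τ h (u • p) = u • partWt τ h p := by
  classical
  rcases Int.units_eq_one_or u with rfl | rfl
  · rw [one_smul, one_smul]
    exact ⟨hp, rfl⟩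
  · have h1 : ((-1 : ℤˣ) • p) = -p := by
      rw [Units.neg_smul, one_smul]
    have h2 : ((-1 : ℤˣ) • partWt τ h p) = -partWt τ h p := by
      rw [Units.neg_smul, one_smul]
    rw [h1, h2]
    constructor
    · intro m hm
      refine hp m ?_
      rw [mem_support_iff, coeff_neg] at hm
      exact mem_support_iff.2 (neg_ne_zero.1 hm)
    · ext m
      rw [R1_coeff, coeff_neg, coeff_neg, R1_coeff]
      split_ifs
      · rfl
      · rw [neg_zero]

/-- The leading part of a determinant. -/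
theorem R1_det {k : ℕ} {τ : Fin q → ℝ} (M : Matrix (Fin k) (Fin k) (MvPolynomial (Fin q) R))
    (h : Fin k → ℝ) (hM : ∀ i l, ∀ m ∈ (M i l).support, wt τ m ≤ h i) :
    (∀ m ∈ M.det.support, wt τ m ≤ ∑ i, h i) ∧
      partWt τ (∑ i, h i) M.det = (Matrix.of fun i l => partWt τ (h i) (M i l)).det := by
  rw [Matrix.det_apply, Matrix.det_apply]
  have h1 : ∀ σ : Equiv.Perm (Fin k), (∀ m ∈ (∏ i, M (σ i) i).support, wt τ m ≤ ∑ i, h i) ∧
      partWt τ (∑ i, h i) (∏ i, M (σ i) i) = ∏ i, partWt τ (h (σ i)) (M (σ i) i) := by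
    intro σ
    have h2 := R1_prod (τ := τ) Finset.univ (fun i => h (σ i)) (fun i => M (σ i) i)
      fun i _ => hM (σ i) i
    rw [Equiv.sum_comp σ h] at h2
    exact h2
  have h3 := R1_sum (τ := τ) (Finset.univ : Finset (Equiv.Perm (Fin k))) (∑ i, h i)
    (fun σ => Equiv.Perm.sign σ • ∏ i, M (σ i) i)
    fun σ _ => (R1_unit (Equiv.Perm.sign σ) (h1 σ).1).1
  refine ⟨h3.1, ?_⟩
  rw [h3.2]
  refine Finset.sum_congr rfl fun σ _ => ?_
  rw [(R1_unit (Equiv.Perm.sign σ) (h1 σ).1).2, (h1 σ).2]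
  rfl

/-- The degrees of the coefficients of a determinant. -/
theorem R1_deg {S : Type*} [CommRing S] {κ : Type*} {k : ℕ}
    (M : Matrix (Fin k) (Fin k) (MvPolynomial (Fin q) (MvPolynomial κ S))) (d : Fin k → ℕ)
    (hM : ∀ i l m, (coeff m (M i l)).IsHomogeneous (d i)) (m : Fin q →₀ ℕ) :
    (coeff m M.det).IsHomogeneous (∑ i, d i) := by
  classical
  have h1 : ∀ (s : Finset (Fin k)) (σ : Equiv.Perm (Fin k)) (m : Fin q →₀ ℕ),
      (coeff m (∏ i ∈ s, M (σ i) i)).IsHomogeneous (∑ i ∈ s, d (σ i)) := by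
    intro s σ
    induction s using Finset.induction_on with
    | empty =>
      intro m
      rw [Finset.prod_empty, Finset.sum_empty, coeff_one]
      split_ifs
      · exact isHomogeneous_one _ _
      · exact isHomogeneous_zero _ _ _
    | insert a s ha ih =>
      intro m
      rw [Finset.prod_insert ha, Finset.sum_insert ha, coeff_mul]
      exact IsHomogeneous.sum _ _ _ fun y _ => (hM _ _ _).mul (ih _)
  rw [Matrix.det_apply, coeff_sum]
  refine IsHomogeneous.sum _ _ _ fun σ _ => ?_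
  have h2 := h1 Finset.univ σ m
  rw [Equiv.sum_comp σ d] at h2
  rcases Int.units_eq_one_or (Equiv.Perm.sign σ) with h3 | h3
  · rw [h3, one_smul]
    exact h2
  · rw [h3, Units.neg_smul, one_smul, coeff_neg]
    exact h2.neg

end

section

theorem R1_detbd {F : Type*} [Field F] (v : AbsoluteValue F ℝ) {n : ℕ}
    (M : Matrix (Fin n) (Fin n) F) (b : Fin n → ℝ) (hM : ∀ i l, v (M i l) ≤ b i) :
    v M.det ≤ (n.factorial : ℝ) * ∏ i, b i := by
  rw [Matrix.det_apply]
  refine (v.sum_le _ _).trans ?_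
  have h1 : ∀ σ ∈ (Finset.univ : Finset (Equiv.Perm (Fin n))),
      v (Equiv.Perm.sign σ • ∏ i, M (σ i) i) ≤ ∏ i, b i := by
    intro σ _
    rw [v.map_units_int_smul, map_prod, ← Equiv.prod_comp σ b]
    exact Finset.prod_le_prod (fun i _ => v.nonneg _) fun i _ => hM _ _
  refine (Finset.sum_le_sum h1).trans ?_
  rw [Finset.sum_const, Finset.card_univ, Fintype.card_perm, Fintype.card_fin, nsmul_eq_mul]

/-- Cramer's rule with bounds. -/
theorem R1_cramer {F : Type*} [Field F] (v : AbsoluteValue F ℝ) {n : ℕ}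
    (M : Matrix (Fin n) (Fin n) F) (b : Fin n → ℝ) (hb : ∀ i, 0 < b i)
    (hM : ∀ i l, v (M i l) ≤ b i) (Z : Fin n → F) (l : Fin n) :
    v M.det * v (Z l) ≤
      (n.factorial : ℝ) * (∏ i, b i) * ∑ i, v (∑ k, M i k * Z k) / b i := by
  classical
  have h1 : M.det * Z l = ∑ i, M.adjugate l i * ∑ k, M i k * Z k := by
    have h2 : M.adjugate.mulVec (M.mulVec Z) = M.det • Z := by
      rw [Matrix.mulVec_mulVec, Matrix.adjugate_mul, Matrix.smul_mulVec, Matrix.one_mulVec]
    have h3 := congrFun h2 l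
    rw [Pi.smul_apply, smul_eq_mul] at h3
    rw [← h3]
    rfl
  rw [← map_mul, h1]
  refine (v.sum_le _ _).trans ?_
  rw [Finset.mul_sum]
  refine Finset.sum_le_sum fun i _ => ?_
  rw [map_mul]
  have h4 : v (M.adjugate l i) ≤ (n.factorial : ℝ) * ((∏ k, b k) / b i) := by
    rw [Matrix.adjugate_apply]
    have h5 := R1_detbd v (M.updateRow i (Pi.single l 1)) (Function.update b i 1) ?_
    · have h6 : ∏ k, Function.update b i 1 k = (∏ k, b k) / b i := by
        rw [Finset.prod_update_of_mem (Finset.mem_univ i), one_mul, eq_div_iff (hb i).ne',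
          Finset.sdiff_singleton_eq_erase, mul_comm]
        exact Finset.mul_prod_erase _ _ (Finset.mem_univ i)
      rw [h6] at h5
      exact h5
    · intro k m
      by_cases hk : k = i
      · subst hk
        rw [Matrix.updateRow_self, Function.update_self]
        by_cases hm : m = l
        · subst hm
          rw [Pi.single_eq_same, map_one]
        · rw [Pi.single_eq_of_ne hm, map_zero]
          exact zero_le_one
      · rw [Matrix.updateRow_ne hk, Function.update_of_ne hk]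
        exact hM k m
  have h7 : (n.factorial : ℝ) * (∏ k, b k) * (v (∑ k, M i k * Z k) / b i) =
      (n.factorial : ℝ) * ((∏ k, b k) / b i) * v (∑ k, M i k * Z k) := by ring
  rw [h7]
  exact mul_le_mul_of_nonneg_right h4 (v.nonneg _)

theorem R1_exp {F : Type*} [Field F] (v : AbsoluteValue F ℝ) {q : ℕ} {t : Fin q → F}
    (ht : ∀ i, t i ≠ 0) (m : Fin q →₀ ℕ) :
    v (∏ i, t i ^ m i) = Real.exp (wt (fun i => Real.log (v (t i))) m) := by
  unfold wt
  rw [Real.exp_sum, map_prod]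
  refine Finset.prod_congr rfl fun i _ => ?_
  rw [map_pow, Real.exp_nat_mul, Real.exp_log (v.pos (ht i))]

variable {K : Type u} [Field K] {N q : ℕ}

theorem R1_form (v : AbsoluteValue K ℝ) {D : ℕ} {f : MvPolynomial (Fin (N + 1)) K}
    (hf : f.IsHomogeneous D) :
    ∃ C : ℝ, 0 ≤ C ∧ ∀ x : Fin (N + 1) → K, v (aeval x f) ≤ C * (⨆ i, v (x i)) ^ D := by
  classical
  refine ⟨∑ μ ∈ f.support, v (coeff μ f), Finset.sum_nonneg fun μ _ => v.nonneg _, ?_⟩
  intro x
  rw [aeval_eq_eval, eval_eq']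
  refine (v.sum_le _ _).trans ?_
  rw [Finset.sum_mul]
  refine Finset.sum_le_sum fun μ hμ => ?_
  rw [map_mul]
  refine mul_le_mul_of_nonneg_left ?_ (v.nonneg _)
  have h1 : ∑ i, μ i = D := by
    have h2 := hf (mem_support_iff.1 hμ)
    rw [Finsupp.weight_apply, Finsupp.sum_fintype _ _ fun _ => by simp] at h2
    simpa using h2
  rw [map_prod, ← h1, ← Finset.prod_pow_eq_pow_sum]
  refine Finset.prod_le_prod (fun i _ => v.nonneg _) fun i _ => ?_
  rw [map_pow]
  exact pow_le_pow_left₀ (v.nonneg _) (Finite.le_ciSup_of_le (f := fun i => v (x i)) i le_rfl) _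

variable (A : AV K N)

theorem R1_x_pos {L : Type u} [Field L] [Algebra K L] (v : AbsoluteValue L ℝ) (P : A.Pts L) :
    0 < ⨆ i, v (A.x P i) := by
  obtain ⟨i, hi⟩ := Function.ne_iff.1 (show A.x P ≠ 0 from P.1.rep_nonzero)
  exact (v.pos hi).trans_le (Finite.le_ciSup_of_le (f := fun i => v (A.x P i)) i le_rfl)

theorem R1_z_pos {L : Type u} [Field L] (v : AbsoluteValue L ℝ) {n : ℕ} {Z : Fin n → L}
    (hZ : Z ≠ 0) : 0 < ⨆ l, v (Z l) := by
  obtain ⟨i, hi⟩ := Function.ne_iff.1 hZ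
  exact (v.pos hi).trans_le (Finite.le_ciSup_of_le (f := fun l => v (Z l)) i le_rfl)

theorem R1_ev_eq {L : Type u} [Field L] [Algebra K L] (P : A.Pts L) (t : Fin q → L)
    (p : MvPolynomial (Fin q) (MvPolynomial (Fin (N + 1)) K)) :
    ev A P t p = ∑ m ∈ p.support, aeval (A.x P) (coeff m p) * ∏ i, t i ^ m i := by
  unfold ev
  rw [eval_map, eval₂_eq']
  rfl

theorem R1_ev (v : AbsoluteValue K ℝ) {D : ℕ}
    (p : MvPolynomial (Fin q) (MvPolynomial (Fin (N + 1)) K))
    (hp : ∀ m, (coeff m p).IsHomogeneous D) :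
    ∃ C : ℝ, 0 ≤ C ∧ ∀ (P : A.Pts K) (t : Fin q → K), (∀ i, t i ≠ 0) → ∀ h : ℝ,
      (∀ m ∈ p.support, wt (fun i => Real.log (v (t i))) m ≤ h) →
        v (ev A P t p) ≤ C * (⨆ i, v (A.x P i)) ^ D * Real.exp h := by
  choose c hc0 hc using fun m => R1_form (N := N) v (hp m)
  refine ⟨∑ m ∈ p.support, c m, Finset.sum_nonneg fun m _ => hc0 m, ?_⟩
  intro P t ht h hh
  rw [R1_ev_eq]
  refine (v.sum_le _ _).trans ?_
  rw [Finset.sum_mul, Finset.sum_mul]
  refine Finset.sum_le_sum fun m hm => ?_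
  rw [map_mul, R1_exp v ht]
  exact mul_le_mul (hc m _) (Real.exp_le_exp.2 (hh m hm)) (Real.exp_pos _).le
    (mul_nonneg (hc0 m) (pow_nonneg (R1_x_pos A v P).le _))

theorem R1_le_max {n : ℕ} {S : Type*} [CommRing S] (τ : Fin q → ℝ)
    (Λ : Fin n → MvPolynomial (Fin q) S) (l : Fin n) :
    ∀ m ∈ (Λ l).support, wt τ m ≤ maxWt τ Λ := by
  classical
  intro m hm
  have h1 : m ∈ supp Λ := by
    unfold supp
    exact Finset.mem_biUnion.2 ⟨l, Finset.mem_univ l, hm⟩
  exact Finite.le_ciSup_of_le (f := fun m : supp Λ => wt τ m) ⟨m, h1⟩ le_rfl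

theorem R_ge (v : AbsoluteValue K ℝ) {n D : ℕ}
    (Λ : Fin n → MvPolynomial (Fin q) (MvPolynomial (Fin (N + 1)) K))
    (hΛ : ∀ l m, (coeff m (Λ l)).IsHomogeneous D) :
    ∃ C : ℝ, ∀ (P : A.Pts K) (t : Fin q → K), (∀ i, t i ≠ 0) → ∀ Z : Fin n → K,
      (∑ l, ev A P t (Λ l) * Z l) ≠ 0 → -C ≤ lamG A v D Λ P t Z := by
  choose c hc0 hc using fun l => R1_ev A v (Λ l) (hΛ l)
  refine ⟨Real.log (1 + ∑ l, c l), ?_⟩
  intro P t ht Z hne
  have hZ : Z ≠ 0 := by
    intro h
    apply hne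
    rw [h]
    simp
  have hx := R1_x_pos A v P
  have hz := R1_z_pos v hZ
  have hs : 0 ≤ ∑ l, c l := Finset.sum_nonneg fun l _ => hc0 l
  have h1 : v (∑ l, ev A P t (Λ l) * Z l) ≤ (1 + ∑ l, c l) * (⨆ i, v (A.x P i)) ^ D *
      Real.exp (maxWt (fun i => Real.log (v (t i))) Λ) * ⨆ l, v (Z l) := by
    refine (v.sum_le _ _).trans ?_
    have h2 : ∑ l, v (ev A P t (Λ l) * Z l) ≤ ∑ l, c l * (⨆ i, v (A.x P i)) ^ D *
        Real.exp (maxWt (fun i => Real.log (v (t i))) Λ) * ⨆ l, v (Z l) := by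
      refine Finset.sum_le_sum fun l _ => ?_
      rw [map_mul]
      have h3 := hc l P t ht _ (R1_le_max (fun i => Real.log (v (t i))) Λ l)
      exact mul_le_mul h3 (Finite.le_ciSup_of_le (f := fun l => v (Z l)) l le_rfl) (v.nonneg _)
        ((v.nonneg _).trans h3)
    refine h2.trans ?_
    rw [← Finset.sum_mul, ← Finset.sum_mul, ← Finset.sum_mul]
    have h4 : 0 ≤ (⨆ i, v (A.x P i)) ^ D *
      Real.exp (maxWt (fun i => Real.log (v (t i))) Λ) * ⨆ l, v (Z l) := by positivity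
    nlinarith
  have h5 : 0 < v (∑ l, ev A P t (Λ l) * Z l) := v.pos hne
  have h6 := Real.log_le_log h5 h1
  have h7 : (0 : ℝ) < 1 + ∑ l, c l := by linarith
  rw [Real.log_mul (by positivity) hz.ne', Real.log_mul (by positivity) (Real.exp_pos _).ne',
    Real.log_mul h7.ne' (pow_pos hx _).ne', Real.log_exp, Real.log_pow] at h6
  unfold lamG
  linarith

end

end Pool.Agent.Lib.MP_17a322_nt.SG
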