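import Pool.Agent.Lib.MP_17a322_nt.SG.R1
import Pool.Agent.Lib.MP_17a322_nt.EF.T1

/-!
More than `r` relative hyperplanes: the determinant of `r` of them.
-/

universe u

namespace Pool.Agent.Lib.MP_17a322_nt.SG

open MvPolynomial Height
open Pool.Agent.Lib.MP_17a322_nt.VA
open Pool.Agent.Lib.MP_17a322_nt.SL

section

variable {K : Type u} [Field K] {N q : ℕ} (A : AV K N) {g n r s : ℕ}

/-- The square matrix with the rows of `G` and the forms `Λ j`, `j ∈ T`. -/
noncomputable def R2_M (G : Matrix (Fin g) (Fin n) (MvPolynomial (Fin (N + 1)) K))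
    (Λ : Matrix (Fin s) (Fin n) (MvPolynomial (Fin q) (MvPolynomial (Fin (N + 1)) K)))
    (T : Finset (Fin s)) (e : Fin n ≃ Fin g ⊕ T) :
    Matrix (Fin n) (Fin n) (MvPolynomial (Fin q) (MvPolynomial (Fin (N + 1)) K)) :=
  Matrix.of fun i l => Sum.elim (fun (i : Fin g) (l : Fin n) => C (G i l))
    (fun (j : T) (l : Fin n) => Λ j l) (e i) l

theorem R2_det_ne {S : Type*} [CommRing S] [IsDomain S] {k : ℕ} (M : Matrix (Fin k) (Fin k) S)
    (h : LinearIndependent S fun i => M i) : M.det ≠ 0 := by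
  intro h0
  obtain ⟨v, hv, hv0⟩ := Matrix.exists_vecMul_eq_zero_iff.2 h0
  apply hv
  have h1 := Fintype.linearIndependent_iff.1 h v
  funext i
  refine h1 ?_ i
  rw [← hv0]
  funext l
  rw [Finset.sum_apply]
  rfl

/-- The leading parts are independent, so the determinant of the leading parts is not zero. -/
theorem R2_lead (G : Matrix (Fin g) (Fin n) (MvPolynomial (Fin (N + 1)) K))
    (Λ : Matrix (Fin s) (Fin n) (MvPolynomial (Fin q) (MvPolynomial (Fin (N + 1)) K)))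
    (T : Finset (Fin s)) (e : Fin n ≃ Fin g ⊕ T) (τ : Fin q → ℝ) (hT : IndG A G Λ τ T) :
    (∀ m ∈ (R2_M G Λ T e).det.support, wt τ m ≤ ∑ j ∈ T, maxWt τ (Λ j)) ∧
    ∀ (L : Type u) [Field L] [Algebra K L] (P : A.Pts L), Gen A P →
      MvPolynomial.map (aeval (A.x P) : MvPolynomial (Fin (N + 1)) K →ₐ[K] L).toRingHom
        (partWt τ (∑ j ∈ T, maxWt τ (Λ j)) (R2_M G Λ T e).det) ≠ 0 := by
  classical
  obtain ⟨h, hh⟩ : ∃ h : Fin n → ℝ, h = fun i => Sum.elim (fun _ : Fin g => (0 : ℝ))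
      (fun j : T => maxWt τ (Λ j)) (e i) := ⟨_, rfl⟩
  have hsum : ∑ i, h i = ∑ j ∈ T, maxWt τ (Λ j) := by
    rw [hh, Equiv.sum_comp e (Sum.elim (fun _ : Fin g => (0 : ℝ)) fun j : T => maxWt τ (Λ j)),
      Fintype.sum_sum_type]
    simp only [Sum.elim_inl, Sum.elim_inr, Finset.sum_const_zero, zero_add]
    exact Finset.sum_coe_sort T fun j => maxWt τ (Λ j)
  have hM : ∀ i l, ∀ m ∈ (R2_M G Λ T e i l).support, wt τ m ≤ h i := by
    intro i l
    rw [hh]
    unfold R2_M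
    rw [Matrix.of_apply]
    show ∀ m ∈ (Sum.elim (fun (i : Fin g) (l : Fin n) => C (G i l))
      (fun (j : T) (l : Fin n) => Λ j l) (e i) l).support, wt τ m ≤
      Sum.elim (fun _ : Fin g => (0 : ℝ)) (fun j : T => maxWt τ (Λ j)) (e i)
    rcases e i with a | j
    · exact (R1_C τ (G a l)).1
    · exact R1_le_max τ (Λ j) l
  obtain ⟨h1, h2⟩ := R1_det (R2_M G Λ T e) h hM
  rw [hsum] at h1 h2
  refine ⟨h1, ?_⟩
  intro L _ _ P hP
  rw [h2, RingHom.map_det]
  refine R2_det_ne _ ?_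
  have h3 := (hT L P hP).comp e e.injective
  have h4 : (fun i => ((MvPolynomial.map
      (aeval (A.x P) : MvPolynomial (Fin (N + 1)) K →ₐ[K] L).toRingHom).mapMatrix
      (Matrix.of fun i l => partWt τ (h i) (R2_M G Λ T e i l))) i) =
      Sum.elim (fun (i : Fin g) (l : Fin n) => (C (aeval (A.x P) (G i l)) : MvPolynomial (Fin q) L))
        (fun (j : T) (l : Fin n) =>
          MvPolynomial.map (aeval (A.x P) : MvPolynomial (Fin (N + 1)) K →ₐ[K] L).toRingHom
            (partWt τ (maxWt τ (Λ j)) (Λ j l))) ∘ e := by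
    funext i l
    rw [RingHom.mapMatrix_apply, Matrix.map_apply, Matrix.of_apply, Function.comp_apply, hh]
    unfold R2_M
    rw [Matrix.of_apply]
    show MvPolynomial.map (aeval (A.x P) : MvPolynomial (Fin (N + 1)) K →ₐ[K] L).toRingHom
      (partWt τ (Sum.elim (fun _ : Fin g => (0 : ℝ)) (fun j : T => maxWt τ (Λ j)) (e i))
      (Sum.elim (fun (i : Fin g) (l : Fin n) => C (G i l))
        (fun (j : T) (l : Fin n) => Λ j l) (e i) l)) = _
    rcases e i with a | j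
    · show MvPolynomial.map _ (partWt τ 0 (C (G a l))) = C (aeval (A.x P) (G a l))
      rw [(R1_C τ (G a l)).2, map_C]
      rfl
    · rfl
  rw [h4]
  exact h3

theorem R2_max (G : Matrix (Fin g) (Fin n) (MvPolynomial (Fin (N + 1)) K))
    (Λ : Matrix (Fin s) (Fin n) (MvPolynomial (Fin q) (MvPolynomial (Fin (N + 1)) K)))
    (T : Finset (Fin s)) (e : Fin n ≃ Fin g ⊕ T) (τ : Fin q → ℝ) (hT : IndG A G Λ τ T) :
    maxWt τ (fun _ : Fin 1 => (R2_M G Λ T e).det) = ∑ j ∈ T, maxWt τ (Λ j) := by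
  classical
  obtain ⟨h1, h2⟩ := R2_lead A G Λ T e τ hT
  obtain ⟨L, _, _, _, P, hP⟩ := EF.T_gen A
  have h3 : partWt τ (∑ j ∈ T, maxWt τ (Λ j)) (R2_M G Λ T e).det ≠ 0 := by
    intro h0
    apply h2 L P hP
    rw [h0, map_zero]
  obtain ⟨m, hm⟩ := ne_zero_iff.1 h3
  rw [R1_coeff] at hm
  have h4 : wt τ m = ∑ j ∈ T, maxWt τ (Λ j) := by
    by_contra hc
    rw [if_neg hc] at hm
    exact hm rfl
  rw [if_pos h4] at hm
  refine le_antisymm ?_ ?_
  · have h5 : m ∈ supp (fun _ : Fin 1 => (R2_M G Λ T e).det) := by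
      unfold supp
      exact Finset.mem_biUnion.2 ⟨0, Finset.mem_univ _, mem_support_iff.2 hm⟩
    have : Nonempty (supp (fun _ : Fin 1 => (R2_M G Λ T e).det)) := ⟨⟨m, h5⟩⟩
    refine ciSup_le fun m' => ?_
    have h6 : (m' : Fin q →₀ ℕ) ∈ supp (fun _ : Fin 1 => (R2_M G Λ T e).det) := m'.2
    unfold supp at h6
    obtain ⟨_, _, h7⟩ := Finset.mem_biUnion.1 h6
    exact h1 _ h7
  · rw [← h4]
    exact R1_le_max τ (fun _ : Fin 1 => (R2_M G Λ T e).det) 0 m (mem_support_iff.2 hm)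

theorem R_main [NumberField K] {D D' : ℕ} (hgr : g + r = n) (hr : 0 < r)
    (G : Matrix (Fin g) (Fin n) (MvPolynomial (Fin (N + 1)) K))
    (hG : ∀ i l, (G i l).IsHomogeneous D')
    (Λ : Matrix (Fin s) (Fin n) (MvPolynomial (Fin q) (MvPolynomial (Fin (N + 1)) K)))
    (hΛ : ∀ j l m, (coeff m (Λ j l)).IsHomogeneous D) (T : Finset (Fin s)) (hTc : T.card = r)
    (hT : ∀ τ, IndG A G Λ τ T) :
    ∃ (R : MvPolynomial (Fin q) (MvPolynomial (Fin (N + 1)) K)) (ρ : ℕ),
      (∀ m, (coeff m R).IsHomogeneous ρ) ∧ NZ A R ∧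
      ∀ (v : AbsoluteValue K ℝ), ∃ C : ℝ, ∀ (P : A.Pts K) (t : Fin q → K), (∀ i, t i ≠ 0) →
        ∀ Z : Fin n → K, Z ≠ 0 → Z ∈ Fib A G P → ev A P t R ≠ 0 →
          (∀ j ∈ T, (∑ l, ev A P t (Λ j l) * Z l) ≠ 0) →
          ∃ j ∈ T, lamG A v D (Λ j) P t Z ≤ lamG A v ρ (fun _ : Fin 1 => R) P t (fun _ => 1) + C := by
  classical
  have hcard : Fintype.card (Fin n) = Fintype.card (Fin g ⊕ T) := by
    rw [Fintype.card_fin, Fintype.card_sum, Fintype.card_fin, Fintype.card_coe, hTc, hgr]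
  obtain ⟨e⟩ : Nonempty (Fin n ≃ Fin g ⊕ T) := ⟨Fintype.equivOfCardEq hcard⟩
  obtain ⟨dg, hdg⟩ : ∃ dg : Fin n → ℕ, dg = fun i => Sum.elim (fun _ : Fin g => D')
      (fun _ : T => D) (e i) := ⟨_, rfl⟩
  have hMdg : ∀ i l m, (coeff m (R2_M G Λ T e i l)).IsHomogeneous (dg i) := by
    intro i l m
    rw [hdg]
    unfold R2_M
    rw [Matrix.of_apply]
    show (coeff m (Sum.elim (fun (i : Fin g) (l : Fin n) => C (G i l))
      (fun (j : T) (l : Fin n) => Λ j l) (e i) l)).IsHomogeneous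
      (Sum.elim (fun _ : Fin g => D') (fun _ : T => D) (e i))
    rcases e i with a | j
    · show (coeff m (C (G a l))).IsHomogeneous D'
      rw [coeff_C]
      split_ifs
      · exact hG a l
      · exact isHomogeneous_zero _ _ _
    · exact hΛ j l m
  refine ⟨(R2_M G Λ T e).det, ∑ i, dg i, R1_deg _ dg hMdg, ?_, ?_⟩
  · intro τ L _ _ P hP
    rw [R2_max A G Λ T e τ (hT τ)]
    exact (R2_lead A G Λ T e τ (hT τ)).2 L P hP
  · intro v
    -- a common bound for the entries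
    have hent : ∀ i l, ∃ c : ℝ, 0 ≤ c ∧ ∀ (P : A.Pts K) (t : Fin q → K), (∀ i, t i ≠ 0) →
        ∀ h : ℝ, (∀ m ∈ (R2_M G Λ T e i l).support,
          wt (fun i => Real.log (v (t i))) m ≤ h) →
        v (ev A P t (R2_M G Λ T e i l)) ≤ c * (⨆ i, v (A.x P i)) ^ dg i * Real.exp h :=
      fun i l => R1_ev A v _ (hMdg i l)
    choose c hc0 hc using hent
    obtain ⟨C₀, hC₀⟩ : ∃ C₀ : ℝ, C₀ = 1 + ∑ i, ∑ l, c i l := ⟨_, rfl⟩
    have hC₀c : ∀ i l, c i l ≤ C₀ := by
      intro i l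
      have h1 : c i l ≤ ∑ l, c i l :=
        Finset.single_le_sum (f := fun l => c i l) (fun l _ => hc0 i l) (Finset.mem_univ l)
      have h2 : ∑ l, c i l ≤ ∑ i, ∑ l, c i l :=
        Finset.single_le_sum (f := fun i => ∑ l, c i l)
          (fun i _ => Finset.sum_nonneg fun l _ => hc0 i l) (Finset.mem_univ i)
      rw [hC₀]
      linarith
    have hC₀p : 0 < C₀ := by
      rw [hC₀]
      have h1 : 0 ≤ ∑ i, ∑ l, c i l :=
        Finset.sum_nonneg fun i _ => Finset.sum_nonneg fun l _ => hc0 i l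
      linarith
    refine ⟨Real.log ((n.factorial : ℝ) * r) + (n : ℝ) * Real.log C₀ - Real.log C₀, ?_⟩
    intro P t ht Z hZ hZF hR hne
    obtain ⟨τ, hτ⟩ : ∃ τ : Fin q → ℝ, τ = fun i => Real.log (v (t i)) := ⟨_, rfl⟩
    obtain ⟨x, hx⟩ : ∃ x, x = ⨆ i, v (A.x P i) := ⟨_, rfl⟩
    have hx0 : 0 < x := hx ▸ R1_x_pos A v P
    obtain ⟨h, hh⟩ : ∃ h : Fin n → ℝ, h = fun i => Sum.elim (fun _ : Fin g => (0 : ℝ))
        (fun j : T => maxWt τ (Λ j)) (e i) := ⟨_, rfl⟩
    have hsum : ∑ i, h i = ∑ j ∈ T, maxWt τ (Λ j) := by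
      rw [hh, Equiv.sum_comp e (Sum.elim (fun _ : Fin g => (0 : ℝ)) fun j : T => maxWt τ (Λ j)),
        Fintype.sum_sum_type]
      simp only [Sum.elim_inl, Sum.elim_inr, Finset.sum_const_zero, zero_add]
      exact Finset.sum_coe_sort T fun j => maxWt τ (Λ j)
    have hMh : ∀ i l, ∀ m ∈ (R2_M G Λ T e i l).support, wt τ m ≤ h i := by
      intro i l
      rw [hh]
      unfold R2_M
      rw [Matrix.of_apply]
      show ∀ m ∈ (Sum.elim (fun (i : Fin g) (l : Fin n) => C (G i l))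
        (fun (j : T) (l : Fin n) => Λ j l) (e i) l).support, wt τ m ≤
        Sum.elim (fun _ : Fin g => (0 : ℝ)) (fun j : T => maxWt τ (Λ j)) (e i)
      rcases e i with a | j
      · exact (R1_C τ (G a l)).1
      · exact R1_le_max τ (Λ j) l
    obtain ⟨b, hb⟩ : ∃ b : Fin n → ℝ, b = fun i => C₀ * x ^ dg i * Real.exp (h i) := ⟨_, rfl⟩
    have hb0 : ∀ i, 0 < b i := by
      intro i
      rw [hb]
      positivity
    obtain ⟨M, hM⟩ : ∃ M : Matrix (Fin n) (Fin n) K,
        M = Matrix.of fun i l => ev A P t (R2_M G Λ T e i l) := ⟨_, rfl⟩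
    have hMb : ∀ i l, v (M i l) ≤ b i := by
      intro i l
      rw [hM, Matrix.of_apply, hb]
      have h1 := hc i l P t ht (h i) (by rw [← hτ]; exact hMh i l)
      rw [← hx] at h1
      refine h1.trans ?_
      exact mul_le_mul_of_nonneg_right (mul_le_mul_of_nonneg_right (hC₀c i l)
        (pow_nonneg hx0.le _)) (Real.exp_pos _).le
    have hdet : M.det = ev A P t (R2_M G Λ T e).det := by
      have h1 : ev A P t (R2_M G Λ T e).det = ((eval t).comp (MvPolynomial.map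
          (aeval (A.x P) : MvPolynomial (Fin (N + 1)) K →ₐ[K] K).toRingHom))
          (R2_M G Λ T e).det := rfl
      rw [h1, RingHom.map_det, hM]
      rfl
    obtain ⟨l, hl⟩ : ∃ l, v (Z l) = ⨆ l, v (Z l) := by
      obtain ⟨i, _⟩ := Function.ne_iff.1 hZ
      have : Nonempty (Fin n) := ⟨i⟩
      exact exists_eq_ciSup_of_finite
    have hz0 : 0 < ⨆ l, v (Z l) := R1_z_pos v hZ
    have h1 := R1_cramer v M b hb0 hMb Z l
    rw [hdet, hl] at h1
    -- the values of the rows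
    have hrow : ∀ i, ∑ k, M i k * Z k = Sum.elim (fun _ : Fin g => (0 : K))
        (fun j : T => ∑ l, ev A P t (Λ j l) * Z l) (e i) := by
      intro i
      rw [hM]
      simp only [Matrix.of_apply]
      unfold R2_M
      simp only [Matrix.of_apply]
      rcases e i with a | j
      · show ∑ k, ev A P t (C (G a k)) * Z k = 0
        have h2 : ∀ k, ev A P t (C (G a k)) = aeval (A.x P) (G a k) := by
          intro k
          unfold ev
          rw [map_C, eval_C]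
          rfl
        simp only [h2]
        exact hZF a
      · rfl
    have hsum2 : ∑ i, v (∑ k, M i k * Z k) / b i =
        ∑ j : T, v (∑ l, ev A P t (Λ j l) * Z l) / (C₀ * x ^ D * Real.exp (maxWt τ (Λ j))) := by
      have h2 : ∀ i, v (∑ k, M i k * Z k) / b i = Sum.elim (fun _ : Fin g => (0 : ℝ))
          (fun j : T => v (∑ l, ev A P t (Λ j l) * Z l) /
            (C₀ * x ^ D * Real.exp (maxWt τ (Λ j)))) (e i) := by
        intro i
        rw [hrow, hb, hdg, hh]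
        show v (Sum.elim (fun _ : Fin g => (0 : K))
          (fun j : T => ∑ l, ev A P t (Λ j l) * Z l) (e i)) /
          (C₀ * x ^ (Sum.elim (fun _ : Fin g => D') (fun _ : T => D) (e i)) *
            Real.exp (Sum.elim (fun _ : Fin g => (0 : ℝ)) (fun j : T => maxWt τ (Λ j)) (e i))) = _
        rcases e i with a | j
        · show v 0 / _ = 0
          rw [map_zero, zero_div]
        · rfl
      rw [Finset.sum_congr rfl fun i _ => h2 i, Equiv.sum_comp e
        (Sum.elim (fun _ : Fin g => (0 : ℝ)) (fun j : T => v (∑ l, ev A P t (Λ j l) * Z l) /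
            (C₀ * x ^ D * Real.exp (maxWt τ (Λ j))))), Fintype.sum_sum_type]
      simp only [Sum.elim_inl, Sum.elim_inr, Finset.sum_const_zero, zero_add]
    rw [hsum2] at h1
    -- the largest term
    have hTne : Nonempty T := by
      have h2 : 0 < T.card := by rw [hTc]; exact hr
      obtain ⟨j, hj⟩ := Finset.card_pos.1 h2
      exact ⟨⟨j, hj⟩⟩
    obtain ⟨j, hj⟩ := Finite.exists_max fun j : T => v (∑ l, ev A P t (Λ j l) * Z l) /
      (C₀ * x ^ D * Real.exp (maxWt τ (Λ j)))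
    refine ⟨j, j.2, ?_⟩
    have h3 : ∑ j : T, v (∑ l, ev A P t (Λ j l) * Z l) / (C₀ * x ^ D * Real.exp (maxWt τ (Λ j))) ≤
        r * (v (∑ l, ev A P t (Λ j l) * Z l) / (C₀ * x ^ D * Real.exp (maxWt τ (Λ j)))) := by
      refine (Finset.sum_le_sum fun i _ => hj i).trans (le_of_eq ?_)
      rw [Finset.sum_const, Finset.card_univ, Fintype.card_coe, hTc, nsmul_eq_mul]
    have hprod : ∏ i, b i = C₀ ^ n * x ^ (∑ i, dg i) * Real.exp (∑ j ∈ T, maxWt τ (Λ j)) := by
      rw [hb, Finset.prod_mul_distrib, Finset.prod_mul_distrib, Finset.prod_const,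
        Finset.card_univ, Fintype.card_fin, Finset.prod_pow_eq_pow_sum, ← Real.exp_sum, hsum]
    rw [hprod] at h1
    have hvj : 0 < v (∑ l, ev A P t (Λ j l) * Z l) := v.pos (hne j j.2)
    have hvR : 0 < v (ev A P t (R2_M G Λ T e).det) := v.pos hR
    have hr0 : (0 : ℝ) < r := Nat.cast_pos.2 hr
    have hf0 : (0 : ℝ) < n.factorial := Nat.cast_pos.2 (Nat.factorial_pos n)
    have h4 : v (ev A P t (R2_M G Λ T e).det) * (⨆ l, v (Z l)) ≤
        ((n.factorial : ℝ) * r) * (C₀ ^ n * x ^ (∑ i, dg i) *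
          Real.exp (∑ j ∈ T, maxWt τ (Λ j))) *
          (v (∑ l, ev A P t (Λ j l) * Z l) / (C₀ * x ^ D * Real.exp (maxWt τ (Λ j)))) := by
      refine h1.trans ?_
      refine (mul_le_mul_of_nonneg_left h3 (by positivity)).trans (le_of_eq ?_)
      ring
    have h5 := Real.log_le_log (mul_pos hvR hz0) h4
    have hA : (0 : ℝ) < (n.factorial : ℝ) * r := mul_pos hf0 hr0
    have hB : 0 < C₀ ^ n * x ^ (∑ i, dg i) * Real.exp (∑ j ∈ T, maxWt τ (Λ j)) := by positivity
    have hD : 0 < C₀ * x ^ D * Real.exp (maxWt τ (Λ j)) := by positivity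
    have e1 : Real.log (C₀ * x ^ D * Real.exp (maxWt τ (Λ j))) =
        Real.log C₀ + D * Real.log x + maxWt τ (Λ j) := by
      rw [Real.log_mul (mul_pos hC₀p (pow_pos hx0 D)).ne' (Real.exp_pos _).ne',
        Real.log_mul hC₀p.ne' (pow_pos hx0 D).ne', Real.log_exp, Real.log_pow]
    have e2 : Real.log (C₀ ^ n * x ^ (∑ i, dg i) * Real.exp (∑ j ∈ T, maxWt τ (Λ j))) =
        n * Real.log C₀ + ((∑ i, dg i : ℕ) : ℝ) * Real.log x + ∑ j ∈ T, maxWt τ (Λ j) := by
      rw [Real.log_mul (mul_pos (pow_pos hC₀p n) (pow_pos hx0 _)).ne' (Real.exp_pos _).ne',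
        Real.log_mul (pow_pos hC₀p n).ne' (pow_pos hx0 _).ne', Real.log_exp, Real.log_pow,
        Real.log_pow]
    rw [Real.log_mul hvR.ne' hz0.ne', Real.log_mul (mul_pos hA hB).ne' (div_pos hvj hD).ne',
      Real.log_mul hA.ne' hB.ne', Real.log_div hvj.ne' hD.ne', e1, e2] at h5
    unfold lamG
    rw [← hτ, R2_max A G Λ T e τ (hT τ), ← hx]
    have h6 : (⨆ _ : Fin 1, v (1 : K)) = 1 := by
      rw [map_one, ciSup_const]
    have h7 : ∑ _ : Fin 1, ev A P t (R2_M G Λ T e).det * 1 = ev A P t (R2_M G Λ T e).det := by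
      rw [Finset.sum_const, Finset.card_univ, Fintype.card_fin, one_smul, mul_one]
    rw [h6, h7, Real.log_one]
    linarith

end

end Pool.Agent.Lib.MP_17a322_nt.SG
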