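import Pool.Agent.Lib.MP_17a322_nt.SG.N1
import Pool.Agent.Lib.MP_17a322_nt.SG.R2

/-!
The final theorem: moving hyperplanes over `A × 𝔾_m ^ q`.
-/

universe u

namespace Pool.Agent.Lib.MP_17a322_nt.SG

open MvPolynomial Height
open Pool.Agent.Lib.MP_17a322_nt.VA
open Pool.Agent.Lib.MP_17a322_nt.SL

section

/-- The local selection. -/
theorem Z1_sel {s r : ℕ} (J : Finset (Fin s)) (a : Fin s → ℝ) {Y : ℝ} (hY : 0 ≤ Y)
    (h : ∀ T ⊆ J, T.card = r → ∃ j ∈ T, a j ≤ Y) :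
    ∃ T ⊆ J, T.card ≤ r ∧ ∑ j ∈ J, a j ≤ ∑ j ∈ T, a j + s * Y := by
  classical
  refine ⟨J.filter fun j => Y < a j, Finset.filter_subset _ _, ?_, ?_⟩
  · by_contra hc
    push Not at hc
    obtain ⟨T, hT, hTc⟩ := Finset.exists_subset_card_eq hc.le
    obtain ⟨j, hj, hj'⟩ := h T (hT.trans (Finset.filter_subset _ _)) hTc
    exact absurd hj' (not_le.2 (Finset.mem_filter.1 (hT hj)).2)
  · rw [← Finset.sum_filter_add_sum_filter_not J (fun j => Y < a j)]
    refine add_le_add le_rfl ?_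
    refine (Finset.sum_le_card_nsmul _ _ Y fun j hj => not_lt.1 (Finset.mem_filter.1 hj).2).trans ?_
    rw [nsmul_eq_mul]
    refine mul_le_mul_of_nonneg_right ?_ hY
    have h1 : (J.filter fun j => ¬ Y < a j).card ≤ s := by
      have h2 := Finset.card_le_univ (J.filter fun j => ¬ Y < a j)
      rwa [Fintype.card_fin] at h2
    exact_mod_cast h1

variable {K : Type u} [Field K] {N q : ℕ} (A : AV K N) {g n r s : ℕ}

theorem Z1_NS [NumberField K] (S : Finset (NumberField.FinitePlace K)) (t : Fin q → K) :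
    0 ≤ NS S t := by
  unfold NS
  exact Finset.sum_nonneg fun i _ => finsum_nonneg fun v => abs_nonneg _

theorem Z1_h1 {K : Type*} [Field K] [NumberField K] (x : K) : 0 ≤ logHeight₁ x := by
  rw [logHeight₁_eq_logHeight]
  exact logHeight_nonneg _

/-- The product of exceptional forms. -/
theorem Z1_prod {G : Matrix (Fin g) (Fin n) (MvPolynomial (Fin (N + 1)) K)} {ι : Type*}
    (s : Finset ι) (F : ι → MvPolynomial (Fin (N + 1) ⊕ Fin q ⊕ Fin n) K)
    (hF : ∀ i ∈ s, ExcG A G (F i)) : ExcG A G (∏ i ∈ s, F i) := by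
  classical
  induction s using Finset.induction_on with
  | empty =>
    rw [Finset.prod_empty]
    exact X_one A
  | insert a s ha ih =>
    rw [Finset.prod_insert ha]
    exact X_mul A (hF a (Finset.mem_insert_self a s))
      (ih fun i hi => hF i (Finset.mem_insert_of_mem hi))

/-- The bound for `r` of the forms. -/
theorem Z1_T [NumberField K] (Γ : AddSubgroup (A.Pts K)) (hΓ : Γ.FG) (hgr : g + r = n)
    (hr : 0 < r) (D D' : ℕ) (G : Matrix (Fin g) (Fin n) (MvPolynomial (Fin (N + 1)) K))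
    (hG : ∀ i l, (G i l).IsHomogeneous D')
    (Λ : Matrix (Fin s) (Fin n) (MvPolynomial (Fin q) (MvPolynomial (Fin (N + 1)) K)))
    (hΛ : ∀ j l m, (coeff m (Λ j l)).IsHomogeneous D)
    (S : Finset (NumberField.FinitePlace K)) (T : Finset (Fin s)) (ε : ℝ) (hε : 0 < ε) :
    ∃ (C : ℝ) (F : MvPolynomial (Fin (N + 1) ⊕ Fin q ⊕ Fin n) K), ExcG A G F ∧
      ∀ P ∈ Γ, ∀ t : Fin q → K, (∀ i, t i ≠ 0) → ∀ Z : Fin n → K, Z ≠ 0 → Z ∈ Fib A G P →
        aeval (Sum.elim (A.x P) (Sum.elim t Z)) F ≠ 0 →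
        ∃ (yi : NumberField.InfinitePlace K → ℝ) (yf : NumberField.FinitePlace K → ℝ),
          (∀ v, 0 ≤ yi v) ∧ (∀ v ∈ S, 0 ≤ yf v) ∧
          (T.card = r → (∀ τ, IndG A G Λ τ T) →
            (∀ j ∈ T, (∑ l, ev A P t (Λ j l) * Z l) ≠ 0) →
            (∀ v : NumberField.InfinitePlace K, ∃ j ∈ T, lamG A v.val D (Λ j) P t Z ≤ yi v) ∧
            (∀ v ∈ S, ∃ j ∈ T, lamG A v.val D (Λ j) P t Z ≤ yf v)) ∧
          (∑ v : NumberField.InfinitePlace K, (v.mult : ℝ) * yi v) + ∑ v ∈ S, yf v ≤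
            ε * (logHeight (A.x P) + ∑ i, logHeight₁ (t i)) + C * (1 + NS S t) := by
  classical
  by_cases hT : T.card = r ∧ ∀ τ, IndG A G Λ τ T
  · obtain ⟨R, ρ, hRh, hNZ, hR⟩ := R_main A hgr hr G hG Λ hΛ T hT.1 hT.2
    obtain ⟨C₀, F, hF, hmain⟩ := N_main A Γ hΓ G R hRh hNZ S ε hε
    choose c hc using hR
    have hge := fun v : AbsoluteValue K ℝ => R_ge A v (fun _ : Fin 1 => R) (fun _ m => hRh m)
    choose c' hc' using hge
    obtain ⟨b, hb⟩ : ∃ b : AbsoluteValue K ℝ → ℝ, b = fun v => max 0 (max (c v) (c' v)) :=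
      ⟨_, rfl⟩
    have hb1 : ∀ v, c v ≤ b v := fun v => by
      rw [hb]
      exact (le_max_left _ _).trans (le_max_right _ _)
    have hb2 : ∀ v, c' v ≤ b v := fun v => by
      rw [hb]
      exact (le_max_right _ _).trans (le_max_right _ _)
    have hb0 : ∀ v, 0 ≤ b v := fun v => by
      rw [hb]
      exact le_max_left _ _
    refine ⟨C₀ + ((∑ v : NumberField.InfinitePlace K, (v.mult : ℝ) * b v.val) +
      ∑ v ∈ S, b v.val), F, hF, ?_⟩
    intro P hP t ht Z hZ hZF hFZ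
    obtain ⟨h1, h2⟩ := hmain P hP t ht Z hFZ
    have h3 : ∀ v : AbsoluteValue K ℝ,
        0 ≤ lamG A v ρ (fun _ : Fin 1 => R) P t (fun _ => 1) + b v := by
      intro v
      have h4 := hc' v P t ht (fun _ => 1) (by
        rw [Finset.sum_const, Finset.card_univ, Fintype.card_fin, one_smul, mul_one]
        exact h1)
      have h5 := hb2 v
      linarith
    refine ⟨fun v => lamG A v.val ρ (fun _ : Fin 1 => R) P t (fun _ => 1) + b v.val,
      fun v => lamG A v.val ρ (fun _ : Fin 1 => R) P t (fun _ => 1) + b v.val,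
      fun v => h3 _, fun v _ => h3 _, ?_, ?_⟩
    · intro _ _ hne
      have h4 : ∀ v : AbsoluteValue K ℝ, ∃ j ∈ T, lamG A v D (Λ j) P t Z ≤
          lamG A v ρ (fun _ : Fin 1 => R) P t (fun _ => 1) + b v := by
        intro v
        obtain ⟨j, hj, hj'⟩ := hc v P t ht Z hZ hZF h1 hne
        exact ⟨j, hj, hj'.trans (add_le_add le_rfl (hb1 v))⟩
      exact ⟨fun v => h4 v.val, fun v _ => h4 v.val⟩
    · have h5 := Z1_NS S t
      have h6 : 0 ≤ (∑ v : NumberField.InfinitePlace K, (v.mult : ℝ) * b v.val) +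
          ∑ v ∈ S, b v.val :=
        add_nonneg (Finset.sum_nonneg fun v _ => mul_nonneg (Nat.cast_nonneg _) (hb0 _))
          (Finset.sum_nonneg fun v _ => hb0 _)
      have h7 := mul_nonneg h6 h5
      simp only [mul_add, Finset.sum_add_distrib]
      rw [mul_add] at h2
      nlinarith
  · refine ⟨0, 1, X_one A, ?_⟩
    intro P hP t ht Z hZ hZF hFZ
    refine ⟨fun _ => 0, fun _ => 0, fun _ => le_rfl, fun _ _ => le_rfl, ?_, ?_⟩
    · intro h1 h2
      exact absurd ⟨h1, h2⟩ hT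
    · have h1 : 0 ≤ logHeight (A.x P) := logHeight_nonneg _
      have h2 : 0 ≤ ∑ i, logHeight₁ (t i) := Finset.sum_nonneg fun i _ => Z1_h1 _
      simp only [mul_zero, Finset.sum_const_zero, zero_mul, add_zero]
      positivity

theorem SLG_final [NumberField K] (Γ : AddSubgroup (A.Pts K)) (hΓ : Γ.FG) (hgr : g + r = n)
    (hr : 0 < r) (D D' e : ℕ) (G : Matrix (Fin g) (Fin n) (MvPolynomial (Fin (N + 1)) K))
    (hG : ∀ i l, (G i l).IsHomogeneous D')
    (Λ : Matrix (Fin s) (Fin n) (MvPolynomial (Fin q) (MvPolynomial (Fin (N + 1)) K)))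
    (hΛ : ∀ j l m, (coeff m (Λ j l)).IsHomogeneous D)
    (S : Finset (NumberField.FinitePlace K))
    (Ji : NumberField.InfinitePlace K → Finset (Fin s))
    (Jf : NumberField.FinitePlace K → Finset (Fin s))
    (hJi : ∀ v, ∀ T ⊆ Ji v, T.card ≤ r → ∀ τ, IndG A G Λ τ T)
    (hJf : ∀ v ∈ S, ∀ T ⊆ Jf v, T.card ≤ r → ∀ τ, IndG A G Λ τ T)
    (f : MvPolynomial (Fin q) (MvPolynomial (Fin (N + 1)) K))
    (hf : ∀ m, (coeff m f).IsHomogeneous e) (hfA : NZ A f) (ε : ℝ) (hε : 0 < ε) :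
    ∃ (C : ℝ) (F : MvPolynomial (Fin (N + 1) ⊕ Fin q ⊕ Fin n) K), ExcG A G F ∧
      ∀ P ∈ Γ, ∀ t : Fin q → K, (∀ i, t i ≠ 0) → ∀ Z : Fin n → K, Z ≠ 0 → Z ∈ Fib A G P →
        aeval (Sum.elim (A.x P) (Sum.elim t Z)) F ≠ 0 →
        (∀ j, (∃ v, j ∈ Ji v) ∨ (∃ v ∈ S, j ∈ Jf v) → (∑ l, ev A P t (Λ j l) * Z l) ≠ 0) ∧
          ev A P t f ≠ 0 ∧
          (∑ v : NumberField.InfinitePlace K, (v.mult : ℝ) *
              ((∑ j ∈ Ji v, lamG A v.val D (Λ j) P t Z) +
                lamG A v.val e (fun _ : Fin 1 => f) P t (fun _ => 1))) +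
            (∑ v ∈ S, ((∑ j ∈ Jf v, lamG A v.val D (Λ j) P t Z) +
                lamG A v.val e (fun _ : Fin 1 => f) P t (fun _ => 1))) + hE A G P ≤
            r * logHeight Z + ε * (logHeight Z + logHeight (A.x P) + ∑ i, logHeight₁ (t i)) +
              C * (1 + NS S t) := by
  classical
  obtain ⟨k, hk⟩ : ∃ k : ℝ, k = s * (Fintype.card (Finset (Fin s)) : ℝ) + 1 := ⟨_, rfl⟩
  have hk0 : 0 < k := by
    rw [hk]
    positivity
  obtain ⟨C₁, F₁, hF₁, h1⟩ := M_core A Γ hΓ hgr hr D D' G hG Λ hΛ S (ε / 3) (by positivity)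
  have h2 := fun T : Finset (Fin s) =>
    Z1_T A Γ hΓ hgr hr D D' G hG Λ hΛ S T (ε / (3 * k)) (by positivity)
  choose C₂ F₂ hF₂ h2 using h2
  obtain ⟨C₃, F₃, hF₃, h3⟩ := N_main A Γ hΓ G f hf hfA S (ε / 3) (by positivity)
  refine ⟨C₁ + s * ∑ T, C₂ T + C₃, F₁ * (∏ T, F₂ T) * F₃,
    X_mul A (X_mul A hF₁ (Z1_prod A Finset.univ F₂ fun T _ => hF₂ T)) hF₃, ?_⟩
  intro P hP t ht Z hZ hZF hF
  rw [map_mul, map_mul, map_prod] at hF
  have hn1 := left_ne_zero_of_mul (left_ne_zero_of_mul hF)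
  have hn2 : ∀ T, aeval (Sum.elim (A.x P) (Sum.elim t Z)) (F₂ T) ≠ 0 := fun T =>
    Finset.prod_ne_zero_iff.1 (right_ne_zero_of_mul (left_ne_zero_of_mul hF)) T (Finset.mem_univ T)
  have hn3 := right_ne_zero_of_mul hF
  have h1' := h1 P hP t ht Z hZ hZF hn1
  obtain ⟨h4, h5⟩ := h3 P hP t ht Z hn3
  have h2' := fun T => h2 T P hP t ht Z hZ hZF (hn2 T)
  choose yi yf hyi hyf hy hys using h2'
  -- the forms do not vanish
  have hne : ∀ j, (∃ v, j ∈ Ji v) ∨ (∃ v ∈ S, j ∈ Jf v) →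
      (∑ l, ev A P t (Λ j l) * Z l) ≠ 0 := by
    rintro j (⟨v, hv⟩ | ⟨v, hvS, hv⟩)
    · have ha : ∀ w : NumberField.InfinitePlace K, IndG A G Λ (fun i => Real.log (w (t i)))
          (if w = v then {j} else ∅) := by
        intro w
        by_cases hw : w = v
        · rw [if_pos hw, hw]
          exact hJi v {j} (Finset.singleton_subset_iff.2 hv) (by rw [Finset.card_singleton]; omega) _
        · rw [if_neg hw]
          exact hJi v ∅ (Finset.empty_subset _) (Nat.zero_le r) _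
      have hb : ∀ w ∈ S, IndG A G Λ (fun i => Real.log (w (t i))) ∅ := by
        intro w _
        exact hJi v ∅ (Finset.empty_subset _) (Nat.zero_le r) _
      refine (h1' (fun w => if w = v then {j} else ∅) (fun _ => ∅) ha hb).1 j (Or.inl ⟨v, ?_⟩)
      rw [if_pos rfl]
      exact Finset.mem_singleton_self j
    · have ha : ∀ w : NumberField.InfinitePlace K, IndG A G Λ (fun i => Real.log (w (t i)))
          ∅ := by
        intro w
        exact hJf v hvS ∅ (Finset.empty_subset _) (Nat.zero_le r) _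
      have hb : ∀ w ∈ S, IndG A G Λ (fun i => Real.log (w (t i)))
          (if w = v then {j} else ∅) := by
        intro w _
        by_cases hw : w = v
        · rw [if_pos hw, hw]
          exact hJf v hvS {j} (Finset.singleton_subset_iff.2 hv)
            (by rw [Finset.card_singleton]; omega) _
        · rw [if_neg hw]
          exact hJf v hvS ∅ (Finset.empty_subset _) (Nat.zero_le r) _
      refine (h1' (fun _ => ∅) (fun w => if w = v then {j} else ∅) ha hb).1 j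
        (Or.inr ⟨v, hvS, ?_⟩)
      rw [if_pos rfl]
      exact Finset.mem_singleton_self j
  refine ⟨hne, h4, ?_⟩
  -- the selection at every place
  have hseli : ∀ v : NumberField.InfinitePlace K, ∃ T ⊆ Ji v, T.card ≤ r ∧
      ∑ j ∈ Ji v, lamG A v.val D (Λ j) P t Z ≤
        ∑ j ∈ T, lamG A v.val D (Λ j) P t Z + s * ∑ T, yi T v := by
    intro v
    refine Z1_sel (Ji v) (fun j => lamG A v.val D (Λ j) P t Z)
      (Finset.sum_nonneg fun T _ => hyi T v) fun T hT hTc => ?_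
    obtain ⟨j, hj, hj'⟩ := (hy T hTc (hJi v T hT hTc.le) fun j hj => hne j (Or.inl ⟨v, hT hj⟩)).1 v
    exact ⟨j, hj, hj'.trans (Finset.single_le_sum (f := fun T => yi T v) (fun T _ => hyi T v)
      (Finset.mem_univ T))⟩
  have hself : ∀ v : NumberField.FinitePlace K, ∃ T : Finset (Fin s), v ∈ S → T ⊆ Jf v ∧
      T.card ≤ r ∧ ∑ j ∈ Jf v, lamG A v.val D (Λ j) P t Z ≤
        ∑ j ∈ T, lamG A v.val D (Λ j) P t Z + s * ∑ T, yf T v := by
    intro v
    by_cases hv : v ∈ S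
    · obtain ⟨T, h6, h7, h8⟩ := Z1_sel (r := r) (Jf v) (fun j => lamG A v.val D (Λ j) P t Z)
        (Finset.sum_nonneg fun T _ => hyf T v hv) fun T hT hTc => by
          obtain ⟨j, hj, hj'⟩ := (hy T hTc (hJf v hv T hT hTc.le)
            fun j hj => hne j (Or.inr ⟨v, hv, hT hj⟩)).2 v hv
          exact ⟨j, hj, hj'.trans (Finset.single_le_sum (f := fun T => yf T v)
            (fun T _ => hyf T v hv) (Finset.mem_univ T))⟩
      exact ⟨T, fun _ => ⟨h6, h7, h8⟩⟩
    · exact ⟨∅, fun h => absurd h hv⟩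
  choose Ti hTi1 hTi2 hTi3 using hseli
  choose Tf hTf using hself
  obtain ⟨_, h6⟩ := h1' Ti Tf (fun v => hJi v (Ti v) (hTi1 v) (hTi2 v) _)
    (fun v hv => hJf v hv (Tf v) (hTf v hv).1 (hTf v hv).2.1 _)
  have h7 : ∑ v : NumberField.InfinitePlace K, (v.mult : ℝ) *
      ∑ j ∈ Ji v, lamG A v.val D (Λ j) P t Z ≤
      ∑ v : NumberField.InfinitePlace K, (v.mult : ℝ) *
        ∑ j ∈ Ti v, lamG A v.val D (Λ j) P t Z +
      s * ∑ T, ∑ v : NumberField.InfinitePlace K, (v.mult : ℝ) * yi T v := by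
    rw [Finset.sum_comm, Finset.mul_sum, ← Finset.sum_add_distrib]
    refine Finset.sum_le_sum fun v _ => ?_
    rw [← Finset.mul_sum]
    refine (mul_le_mul_of_nonneg_left (hTi3 v) (Nat.cast_nonneg _)).trans (le_of_eq ?_)
    ring
  have h8 : ∑ v ∈ S, ∑ j ∈ Jf v, lamG A v.val D (Λ j) P t Z ≤
      ∑ v ∈ S, ∑ j ∈ Tf v, lamG A v.val D (Λ j) P t Z + s * ∑ T, ∑ v ∈ S, yf T v := by
    rw [Finset.sum_comm (s := Finset.univ), Finset.mul_sum, ← Finset.sum_add_distrib]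
    exact Finset.sum_le_sum fun v hv => (hTf v hv).2.2
  have h9 : ∑ T, ∑ v : NumberField.InfinitePlace K, (v.mult : ℝ) * yi T v +
      ∑ T, ∑ v ∈ S, yf T v ≤ ∑ T, (ε / (3 * k) * (logHeight (A.x P) + ∑ i, logHeight₁ (t i)) +
        C₂ T * (1 + NS S t)) := by
    rw [← Finset.sum_add_distrib]
    exact Finset.sum_le_sum fun T _ => hys T
  rw [Finset.sum_add_distrib, Finset.sum_const, Finset.card_univ, nsmul_eq_mul,
    ← Finset.sum_mul] at h9
  have h10 : 0 ≤ logHeight (A.x P) + ∑ i, logHeight₁ (t i) :=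
    add_nonneg (logHeight_nonneg _) (Finset.sum_nonneg fun i _ => Z1_h1 _)
  have h11 : s * ((Fintype.card (Finset (Fin s)) : ℝ) *
      (ε / (3 * k) * (logHeight (A.x P) + ∑ i, logHeight₁ (t i)))) ≤
      ε / 3 * (logHeight (A.x P) + ∑ i, logHeight₁ (t i)) := by
    have h12 : s * ((Fintype.card (Finset (Fin s)) : ℝ) *
        (ε / (3 * k) * (logHeight (A.x P) + ∑ i, logHeight₁ (t i)))) =
        ((k - 1) / k) * (ε / 3 * (logHeight (A.x P) + ∑ i, logHeight₁ (t i))) := by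
      rw [hk]
      field_simp
      ring
    rw [h12]
    have h13 : (k - 1) / k ≤ 1 := by
      rw [div_le_one hk0]
      linarith
    exact mul_le_of_le_one_left (by positivity) h13
  have h12 : s * (∑ T, ∑ v : NumberField.InfinitePlace K, (v.mult : ℝ) * yi T v +
      ∑ T, ∑ v ∈ S, yf T v) ≤ s * ((Fintype.card (Finset (Fin s)) : ℝ) *
      (ε / (3 * k) * (logHeight (A.x P) + ∑ i, logHeight₁ (t i))) +
      (∑ T, C₂ T) * (1 + NS S t)) := mul_le_mul_of_nonneg_left h9 (Nat.cast_nonneg _)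
  have h13 : 0 ≤ ε * logHeight Z := mul_nonneg hε.le (logHeight_nonneg _)
  simp only [mul_add, Finset.sum_add_distrib]
  simp only [mul_add] at h5 h6 h11 h12 ⊢
  linarith

end

end Pool.Agent.Lib.MP_17a322_nt.SG
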