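import Pool.Agent.Lib.MP_17a322_nt.SG.Z1

/-!
The subspace theorem with moving targets over `A × 𝔾_m ^ q`: the final form.
-/

universe u

namespace Pool.Agent.Lib.MP_17a322_nt.SG

open MvPolynomial Height
open Pool.Agent.Lib.MP_17a322_nt.VA
open Pool.Agent.Lib.MP_17a322_nt.SL

section

variable {K : Type u} [Field K] {N q : ℕ} (A : AV K N) {g n r s : ℕ}

/-- If no nonzero coefficient of `f` vanishes on `A`, then `f` is nonzero on every stratum. -/
theorem NZ_of {e : ℕ} {f : MvPolynomial (Fin q) (MvPolynomial (Fin (N + 1)) K)}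
    (hf : ∀ m, (coeff m f).IsHomogeneous e) (hf0 : f ≠ 0)
    (hfA : ∀ m ∈ f.support, coeff m f ∉ A.I) : NZ A f := by
  classical
  intro τ L _ _ P hP h
  have hsup : (supp fun _ : Fin 1 => f) = f.support := by
    unfold supp
    ext m
    simp
  have hne : (supp fun _ : Fin 1 => f).Nonempty := by
    rw [hsup]
    exact support_nonempty.2 hf0
  have : Nonempty (supp fun _ : Fin 1 => f) := hne.to_subtype
  obtain ⟨m, hm⟩ := exists_eq_ciSup_of_finite (f := fun m : supp fun _ : Fin 1 => f => wt τ m)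
  have hms : (m : Fin q →₀ ℕ) ∈ f.support := by
    rw [← hsup]
    exact m.2
  have h1 := congrArg (coeff (m : Fin q →₀ ℕ)) h
  have hm' : wt τ (m : Fin q →₀ ℕ) = maxWt τ fun _ : Fin 1 => f := hm
  rw [coeff_map, coeff_partWt, if_pos hm', coeff_zero] at h1
  exact hfA _ hms (hP _ e (hf _) h1)

theorem SLG_finalV [NumberField K] (Γ : AddSubgroup (A.Pts K)) (hΓ : Γ.FG) (hgr : g + r = n)
    (hr : 0 < r) (D D' e : ℕ) (G : Matrix (Fin g) (Fin n) (MvPolynomial (Fin (N + 1)) K))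
    (hG : ∀ i l, (G i l).IsHomogeneous D')
    (Λ : Matrix (Fin s) (Fin n) (MvPolynomial (Fin q) (MvPolynomial (Fin (N + 1)) K)))
    (hΛ : ∀ j l m, (coeff m (Λ j l)).IsHomogeneous D) (S : Finset (NumberField.FinitePlace K))
    (Ji : NumberField.InfinitePlace K → Finset (Fin s))
    (Jf : NumberField.FinitePlace K → Finset (Fin s))
    (hJi : ∀ v, ∀ T ⊆ Ji v, T.card ≤ r → ∀ τ, IndG A G Λ τ T)
    (hJf : ∀ v ∈ S, ∀ T ⊆ Jf v, T.card ≤ r → ∀ τ, IndG A G Λ τ T)
    (f : MvPolynomial (Fin q) (MvPolynomial (Fin (N + 1)) K))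
    (hf : ∀ m, (coeff m f).IsHomogeneous e) (hf0 : f ≠ 0)
    (hfA : ∀ m ∈ f.support, coeff m f ∉ A.I) (ε : ℝ) (hε : 0 < ε) :
    ∃ (C : ℝ) (F : MvPolynomial (Fin (N + 1) ⊕ Fin q ⊕ Fin n) K), ExcG A G F ∧
      ∀ P ∈ Γ, ∀ t : Fin q → K, (∀ i, t i ≠ 0) → ∀ X : Fin n → K, X ≠ 0 → X ∈ Fib A G P →
        aeval (Sum.elim (A.x P) (Sum.elim t X)) F ≠ 0 →
        (∀ j, (∃ v, j ∈ Ji v) ∨ (∃ v ∈ S, j ∈ Jf v) → (∑ l, ev A P t (Λ j l) * X l) ≠ 0) ∧
        ev A P t f ≠ 0 ∧
        (∑ v : NumberField.InfinitePlace K, (v.mult : ℝ) *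
            ((∑ j ∈ Ji v, lamG A v.val D (Λ j) P t X) + (e * Real.log (⨆ i, v (A.x P i)) +
              maxWt (fun i => Real.log (v (t i))) (fun _ : Fin 1 => f) -
                Real.log (v (ev A P t f))))) +
          (∑ v ∈ S, ((∑ j ∈ Jf v, lamG A v.val D (Λ j) P t X) +
            (e * Real.log (⨆ i, v (A.x P i)) +
              maxWt (fun i => Real.log (v (t i))) (fun _ : Fin 1 => f) -
                Real.log (v (ev A P t f))))) +
          hE A G P ≤
          r * logHeight X + ε * (logHeight X + logHeight (A.x P) + ∑ i, logHeight₁ (t i)) +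
            C * (1 + NS S t) := by
  obtain ⟨C, F, hF, h⟩ := SLG_final A Γ hΓ hgr hr D D' e G hG Λ hΛ S Ji Jf hJi hJf f hf
    (NZ_of A hf hf0 hfA) ε hε
  refine ⟨C, F, hF, fun P hP t ht X hX hXE hne => ?_⟩
  obtain ⟨h1, h2, h3⟩ := h P hP t ht X hX hXE hne
  refine ⟨h1, h2, ?_⟩
  have key : ∀ v : AbsoluteValue K ℝ, lamG A v e (fun _ : Fin 1 => f) P t (fun _ => 1) =
      e * Real.log (⨆ i, v (A.x P i)) +
        maxWt (fun i => Real.log (v (t i))) (fun _ : Fin 1 => f) -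
          Real.log (v (ev A P t f)) := by
    intro v
    unfold lamG
    rw [Fin.sum_univ_one]
    simp only [map_one, ciSup_const, Real.log_one, zero_add, mul_one]
  simp only [key] at h3
  exact h3

end

end Pool.Agent.Lib.MP_17a322_nt.SG
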